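import Pool.Agent.TH421.AC.Main

/-!
Project PD (helper139): calculus of scaled derivatives and integration by parts against a test
function.
-/

set_option autoImplicit false
open MeasureTheory Filter Topology Complex
open scoped ContDiff ENNReal

namespace Pool.Agent.Y139.PD

open Pool.Agent.W745.RW Pool.Agent.TH294.RS Pool.Agent.TH294.RG Pool.Agent.TH421.DF
open Pool.Agent.TH421.AC

noncomputable section

variable {B : Set ℂ}

/-- the scaled derivative in the direction `v` -/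
def d (h : ℝ) (v : ℂ) (f : ℂ → ℝ) (z : ℂ) : ℝ := h * fderiv ℝ f z v

lemma d_sm (hB : IsOpen B) {f : ℂ → ℝ} (hf : ContDiffOn ℝ ∞ f B) (h : ℝ) (v : ℂ) :
    ContDiffOn ℝ ∞ (d h v f) B := contDiffOn_const.mul (rsd hB hf v)

lemma d_mul {f g : ℂ → ℝ} {z : ℂ} (hf : DifferentiableAt ℝ f z) (hg : DifferentiableAt ℝ g z)
    (h : ℝ) (v : ℂ) : d h v (fun w => f w * g w) z = d h v f z * g z + f z * d h v g z := by
  unfold d
  rw [fderiv_fun_mul hf hg]
  simp only [add_apply, smul_apply, smul_eq_mul]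
  ring

lemma d_comp {k : ℝ → ℝ} {f : ℂ → ℝ} {z : ℂ} (hf : DifferentiableAt ℝ f z)
    (hk : DifferentiableAt ℝ k (f z)) (h : ℝ) (v : ℂ) :
    d h v (fun w => k (f w)) z = deriv k (f z) * d h v f z := by
  unfold d
  have h1 : HasFDerivAt (fun w => k (f w)) (deriv k (f z) • fderiv ℝ f z) z :=
    hk.hasDerivAt.comp_hasFDerivAt z hf.hasFDerivAt
  rw [h1.fderiv]
  simp only [smul_apply, smul_eq_mul]
  ring

lemma d_inv {f : ℂ → ℝ} {z : ℂ} (hf : DifferentiableAt ℝ f z) (h0 : f z ≠ 0)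
    (h : ℝ) (v : ℂ) : d h v (fun w => (f w)⁻¹) z = -(d h v f z) * ((f z)⁻¹) ^ 2 := by
  have h1 := d_comp (k := fun x : ℝ => x⁻¹) hf (differentiableAt_inv h0) h v
  rw [h1, deriv_inv]
  field_simp

lemma d_comm (hB : IsOpen B) {f : ℂ → ℝ} (hf : ContDiffOn ℝ ∞ f B) {z : ℂ} (hz : z ∈ B)
    (h : ℝ) : d h 1 (d h I f) z = d h I (d h 1 f) z := by
  have hfa : ContDiffAt ℝ ∞ f z := hf.contDiffAt (hB.mem_nhds hz)
  have hs : IsSymmSndFDerivAt ℝ f z := hfa.isSymmSndFDerivAt (by
    simp only [minSmoothness_of_isRCLikeNormedField]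
    exact (WithTop.coe_le_coe.mpr (le_top : (2 : ℕ∞) ≤ ⊤) :
      ((2 : ℕ∞) : WithTop ℕ∞) ≤ ((⊤ : ℕ∞) : WithTop ℕ∞)))
  have hd : DifferentiableAt ℝ (fderiv ℝ f) z :=
    (hfa.fderiv_right (m := ∞) (by simp)).differentiableAt (by simp)
  have e : ∀ v w : ℂ, d h v (d h w f) z = h * (h * fderiv ℝ (fderiv ℝ f) z v w) := by
    intro v w
    show h * fderiv ℝ (fun y => h * fderiv ℝ f y w) z v = _
    rw [fderiv_const_mul (hd.clm_apply (differentiableAt_const w))]
    rw [fderiv_clm_apply hd (differentiableAt_const w)]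
    simp
  rw [e, e, hs.eq]

/-- integration by parts against a test function -/
theorem ibp (hB : IsOpen B) {φ F : ℂ → ℝ} (hφ : TF B φ) (hF : ContDiffOn ℝ ∞ F B) (h : ℝ)
    (v : ℂ) : Integrable (fun z => φ z * d h v F z) ∧ Integrable (fun z => d h v φ z * F z) ∧
      ∫ z, φ z * d h v F z = - ∫ z, d h v φ z * F z := by
  obtain ⟨S, hS⟩ : ∃ S : Set ℂ, S = tsupport φ := ⟨_, rfl⟩
  have hSc : IsCompact S := by rw [hS]; exact hφ.2.1
  have hSB : S ⊆ B := by rw [hS]; exact hφ.2.2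
  have z0 : ∀ z, z ∉ S → φ z = 0 := fun z hz => image_eq_zero_of_notMem_tsupport (by rwa [hS] at hz)
  have z1 : ∀ z, z ∉ S → d h v φ z = 0 := fun z hz => by
    unfold d
    rw [fderiv_of_notMem_tsupport ℝ (by rwa [hS] at hz)]
    simp
  have cφ : Continuous φ := hφ.1.continuous
  have cφ' : Continuous (d h v φ) := continuous_const.mul
    ((hφ.1.fderiv_right (m := ∞) le_rfl).clm_apply contDiff_const).continuous
  obtain ⟨U, hU⟩ : ∃ U : ℂ → ℝ, U = fun z => φ z * F z := ⟨_, rfl⟩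
  have sU : ContDiffOn ℝ ∞ U B := by
    rw [hU]; exact hφ.1.contDiffOn.mul hF
  have zU : ∀ z, z ∉ S → U z = 0 := fun z hz => by
    rw [hU]; show φ z * _ = 0; rw [z0 z hz, zero_mul]
  have nhU : ∀ z, z ∉ S → U =ᶠ[𝓝 z] fun _ => 0 := by
    intro z hz
    filter_upwards [hSc.isClosed.isOpen_compl.mem_nhds (hz : z ∈ Sᶜ)] with w hw
    exact zU w hw
  have gU : ContDiff ℝ ∞ U := by
    refine contDiff_iff_contDiffAt.2 fun w => ?_
    by_cases hw : w ∈ B
    · exact sU.contDiffAt (hB.mem_nhds hw)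
    · exact contDiffAt_const.congr_of_eventuallyEq (nhU w fun h => hw (hSB h))
  obtain ⟨iU, jU⟩ := Pool.Agent.W366.RW.int_zero U gU (HasCompactSupport.intro hSc zU) v
  have cF : ContinuousOn F S := hF.continuousOn.mono hSB
  have cF' : ContinuousOn (d h v F) S := (d_sm hB hF h v).continuousOn.mono hSB
  have i1 : Integrable (fun z => φ z * d h v F z) :=
    rint hSc (cφ.continuousOn.mul cF') fun z hz => by rw [z0 z hz, zero_mul]
  have i2 : Integrable (fun z => d h v φ z * F z) :=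
    rint hSc (cφ'.continuousOn.mul cF) fun z hz => by rw [z1 z hz, zero_mul]
  refine ⟨i1, i2, ?_⟩
  have key : ∀ z, h * fderiv ℝ U z v = d h v φ z * F z + φ z * d h v F z := by
    intro z
    by_cases hz : z ∈ B
    · have := d_mul (hφ.1.differentiable (by simp) z) (rdA hB hF hz) h v
      rw [hU]; exact this
    · have hzS : z ∉ S := fun h => hz (hSB h)
      rw [z0 z hzS, z1 z hzS, (nhU z hzS).fderiv_eq]; simp
  have tot : ∫ z, h * fderiv ℝ U z v = 0 := by rw [integral_const_mul, jU, mul_zero]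
  simp only [key] at tot
  rw [integral_add i2 i1] at tot
  linarith

end

end Pool.Agent.Y139.PD
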