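import Pool.Agent.Y139.PD.A

/-!
Project PD (helper139): the two energy inequalities and the main inequality for one solution.
-/

set_option autoImplicit false
open MeasureTheory Filter Topology Complex
open scoped ContDiff ENNReal

namespace Pool.Agent.Y139.PD

open Pool.Agent.W745.RW Pool.Agent.TH294.RS Pool.Agent.TH294.RG Pool.Agent.TH421.DF
open Pool.Agent.TH421.AC

noncomputable section

variable {B : Set ℂ}

/-- the cut-off of the identity -/
lemma exists_cut : ∃ (k : ℝ → ℝ) (C : ℝ), 0 < C ∧ ContDiff ℝ ∞ k ∧ (∀ t, t * k t ≤ 4) ∧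
    (∀ t, |k t| ≤ 2) ∧ (∀ t, |1 - deriv k t| ≤ C * |t|) ∧ ∀ t, |k t - t * deriv k t| ≤ C := by
  let f : ContDiffBump (0 : ℝ) := ⟨1, 2, one_pos, one_lt_two⟩
  obtain ⟨θ, hθ⟩ : ∃ θ : ℝ → ℝ, θ = fun x => f x := ⟨_, rfl⟩
  have sθ : ContDiff ℝ ∞ θ := by rw [hθ]; exact f.contDiff
  have cθ : HasCompactSupport θ := by rw [hθ]; exact f.hasCompactSupport
  have θ0 : ∀ x, 0 ≤ θ x := fun x => by rw [hθ]; exact f.nonneg
  have θ1 : ∀ x, θ x ≤ 1 := fun x => by rw [hθ]; exact f.le_one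
  have θe : ∀ x, |x| ≤ 1 → θ x = 1 := fun x hx => by
    rw [hθ]; apply f.one_of_mem_closedBall
    rw [mem_closedBall_zero_iff, Real.norm_eq_abs]; exact hx
  have θz : ∀ x, 2 ≤ |x| → θ x = 0 := fun x hx => by
    rw [hθ]; apply f.zero_of_le_dist
    rw [dist_zero_right, Real.norm_eq_abs]; exact hx
  have cd : Continuous (deriv θ) := sθ.continuous_deriv (by simp)
  have sd : HasCompactSupport (deriv θ) := cθ.deriv
  have s1 : HasCompactSupport (fun t => t * deriv θ t) := sd.mul_left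
  have s2 : HasCompactSupport (fun t => t ^ 2 * deriv θ t) := sd.mul_left
  obtain ⟨D, hD⟩ := s1.exists_bound_of_continuous (continuous_id.mul cd)
  obtain ⟨D2, hD2⟩ := s2.exists_bound_of_continuous ((continuous_pow 2).mul cd)
  have dk : ∀ t, deriv (fun t => t * θ t) t = θ t + t * deriv θ t := fun t => by
    have h1 : HasDerivAt θ (deriv θ t) t :=
      ((sθ.differentiable (by simp)) t).hasDerivAt
    have h2 := (hasDerivAt_id t).mul h1
    have h3 : HasDerivAt (fun t => t * θ t) (1 * θ t + id t * deriv θ t) t := h2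
    rw [h3.deriv]; simp
  have D0 : 0 ≤ D := (norm_nonneg _).trans (hD 0)
  have D20 : 0 ≤ D2 := (norm_nonneg _).trans (hD2 0)
  refine ⟨fun t => t * θ t, 1 + D + D2, by positivity, contDiff_id.mul sθ, fun t => ?_,
    fun t => ?_, fun t => ?_, fun t => ?_⟩
  · show t * (t * θ t) ≤ 4
    by_cases ht : 2 ≤ |t|
    · rw [θz t ht]; norm_num
    · have h1 := not_le.1 ht
      have h2 : t ^ 2 ≤ 4 := by
        rw [← sq_abs]; nlinarith [abs_nonneg t]
      have h3 := θ1 t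
      have h4 := θ0 t
      nlinarith [sq_nonneg t]
  · show |t * θ t| ≤ 2
    by_cases ht : 2 ≤ |t|
    · rw [θz t ht]; norm_num
    · have h1 := not_le.1 ht
      rw [abs_mul, abs_of_nonneg (θ0 t)]
      have h3 := θ1 t
      have h4 := θ0 t
      nlinarith [abs_nonneg t]
  · rw [dk]
    have b1 := hD t
    rw [Real.norm_eq_abs] at b1
    by_cases ht : |t| < 1
    · have e1 : θ =ᶠ[𝓝 t] fun _ => 1 := by
        have : {x : ℝ | |x| < 1} ∈ 𝓝 t := (isOpen_lt continuous_abs continuous_const).mem_nhds ht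
        filter_upwards [this] with x hx
        exact θe x (le_of_lt hx)
      have e2 : deriv θ t = 0 := by rw [e1.deriv_eq]; simp
      rw [θe t ht.le, e2]
      simp only [mul_zero, add_zero, sub_self, abs_zero]
      positivity
    · have h1 : 1 ≤ |t| := not_lt.1 ht
      have h3 := θ1 t
      have h4 := θ0 t
      have h5 : |1 - (θ t + t * deriv θ t)| ≤ 1 + D := by
        have e : 1 - (θ t + t * deriv θ t) = (1 - θ t) - t * deriv θ t := by ring
        rw [e]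
        refine (abs_sub _ _).trans ?_
        rw [abs_of_nonneg (by linarith : 0 ≤ 1 - θ t)]
        linarith
      nlinarith
  · rw [dk]
    have b1 := hD2 t
    rw [Real.norm_eq_abs] at b1
    have e : t * θ t - t * (θ t + t * deriv θ t) = -(t ^ 2 * deriv θ t) := by ring
    show |t * θ t - t * (θ t + t * deriv θ t)| ≤ _
    rw [e, abs_neg]
    linarith

/-- a common bound for finitely many functions -/
lemma bds {S : Set ℂ} (hS : IsCompact S) (L : List (ℂ → ℝ)) (hL : ∀ f ∈ L, ContinuousOn f S) :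
    ∃ M : ℝ, 1 ≤ M ∧ ∀ f ∈ L, ∀ z ∈ S, |f z| ≤ M := by
  induction L with
  | nil => exact ⟨1, le_rfl, fun f hf => by simp at hf⟩
  | cons a L ih =>
    obtain ⟨M, M1, hM⟩ := ih fun f hf => hL f (List.mem_cons_of_mem a hf)
    obtain ⟨N, hN⟩ := hS.exists_bound_of_continuousOn (hL a List.mem_cons_self)
    refine ⟨max M N, M1.trans (le_max_left _ _), fun f hf z hz => ?_⟩
    rcases List.mem_cons.1 hf with rfl | hf
    · exact (hN z hz).trans (le_max_right _ _)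
    · exact (hM f hf z hz).trans (le_max_left _ _)

/-- total derivatives -/
def T (h : ℝ) (v : ℂ) (φ F : ℂ → ℝ) (z : ℂ) : ℝ := φ z * d h v F z + d h v φ z * F z

lemma T_int (hB : IsOpen B) {φ F : ℂ → ℝ} (hφ : TF B φ) (hF : ContDiffOn ℝ ∞ F B) (h : ℝ)
    (v : ℂ) : Integrable (T h v φ F) ∧ ∫ z, T h v φ F z = 0 := by
  obtain ⟨i1, i2, e⟩ := ibp hB hφ hF h v
  refine ⟨i1.add i2, ?_⟩
  show ∫ z, (φ z * d h v F z + d h v φ z * F z) = 0
  rw [integral_add i1 i2, e]; ring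

lemma mono3 {A R T1 T2 E : ℂ → ℝ} {a b c : ℝ} (iA : Integrable A) (iR : Integrable R)
    (i1 : Integrable T1) (i2 : Integrable T2) (iE : Integrable E) (z1 : ∫ z, T1 z = 0)
    (z2 : ∫ z, T2 z = 0) (hle : ∀ z, A z ≤ R z + a * T1 z + b * T2 z + c * E z) :
    ∫ z, A z ≤ (∫ z, R z) + c * ∫ z, E z := by
  have j1 := i1.const_mul a
  have j2 := i2.const_mul b
  have j3 := iE.const_mul c
  have k1 : Integrable (fun z => R z + a * T1 z) := iR.add j1
  have k2 : Integrable (fun z => R z + a * T1 z + b * T2 z) := k1.add j2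
  have k3 : Integrable (fun z => R z + a * T1 z + b * T2 z + c * E z) := k2.add j3
  have h1 := integral_mono iA k3 hle
  rw [integral_add k2 j3, integral_add k1 j2, integral_add iR j1, integral_const_mul,
    integral_const_mul, integral_const_mul, z1, z2] at h1
  linarith

/-- the second order energy density -/
def e2 (h : ℝ) (u : ℂ → ℝ) (z : ℂ) : ℝ :=
  u z ^ 2 + d h 1 u z ^ 2 + d h I u z ^ 2 + d h 1 (d h 1 u) z ^ 2 + d h I (d h I u) z ^ 2 +
    d h I (d h 1 u) z ^ 2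

/-- solutions of the scaled equation -/
structure Sol (B : Set ℂ) (h : ℝ) (ρ u : ℂ → ℝ) : Prop where
  hp : 0 < h
  su : ContDiffOn ℝ ∞ u B
  eq : ∀ z ∈ B, d h 1 (d h 1 u) z + d h I (d h I u) z = -(ρ z * u z)

lemma e2_co (hB : IsOpen B) {h : ℝ} {u : ℂ → ℝ} (su : ContDiffOn ℝ ∞ u B) :
    ContinuousOn (e2 h u) B := by
  have a := su.continuousOn
  have b := (d_sm hB su h 1)
  have c := (d_sm hB su h I)
  have p := (d_sm hB b h 1)
  have q := (d_sm hB c h I)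
  have r := (d_sm hB b h I)
  exact ((((((a.pow 2).add (b.continuousOn.pow 2)).add (c.continuousOn.pow 2)).add
    (p.continuousOn.pow 2)).add (q.continuousOn.pow 2)).add (r.continuousOn.pow 2))

lemma ind_int {S : Set ℂ} (hS : IsCompact S) {F : ℂ → ℝ} (hF : ContinuousOn F S) :
    Integrable (S.indicator F) ∧ ∫ z, S.indicator F z = ∫ z in S, F z :=
  ⟨(hF.integrableOn_compact hS).integrable_indicator hS.measurableSet,
    integral_indicator hS.measurableSet⟩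

lemma absd {h M : ℝ} {v : ℂ} {f : ℂ → ℝ} {z : ℂ} (hp : 0 < h) (hM : |fderiv ℝ f z v| ≤ M) :
    |d h v f z| ≤ h * M := by
  unfold d
  rw [abs_mul, abs_of_pos hp]
  exact mul_le_mul_of_nonneg_left hM hp.le

/-- the first energy inequality -/
theorem L1 (hB : IsOpen B) {φ ρ : ℂ → ℝ} (hφ : TF B φ) (hφ0 : ∀ z, 0 ≤ φ z)
    (hρ : ContDiffOn ℝ ∞ ρ B) : ∃ K : ℝ, 0 ≤ K ∧ ∀ (h : ℝ) (u : ℂ → ℝ), Sol B h ρ u →
      ∫ z, φ z * (d h 1 u z ^ 2 + d h I u z ^ 2) ≤
        (∫ z, φ z * (ρ z * u z ^ 2)) + h * K * ∫ z in tsupport φ, e2 h u z := by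
  obtain ⟨S, hS⟩ : ∃ S : Set ℂ, S = tsupport φ := ⟨_, rfl⟩
  have hSc : IsCompact S := by rw [hS]; exact hφ.2.1
  have hSB : S ⊆ B := by rw [hS]; exact hφ.2.2
  have z0 : ∀ z, z ∉ S → φ z = 0 := fun z hz => image_eq_zero_of_notMem_tsupport (by rwa [hS] at hz)
  have z1 : ∀ h v z, z ∉ S → d h v φ z = 0 := fun h v z hz => by
    unfold d
    rw [fderiv_of_notMem_tsupport ℝ (by rwa [hS] at hz)]
    simp
  have cφ : Continuous φ := hφ.1.continuous
  have cφ' : ∀ v : ℂ, Continuous (fun z => fderiv ℝ φ z v) := fun v =>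
    ((hφ.1.fderiv_right (m := ∞) le_rfl).clm_apply contDiff_const).continuous
  obtain ⟨M, M1, hM⟩ := bds hSc [fun z => fderiv ℝ φ z 1, fun z => fderiv ℝ φ z I] (by
    simp only [List.mem_cons, List.not_mem_nil, or_false, forall_eq_or_imp, forall_eq]
    exact ⟨(cφ' 1).continuousOn, (cφ' I).continuousOn⟩)
  simp only [List.mem_cons, List.not_mem_nil, or_false, forall_eq_or_imp, forall_eq] at hM
  refine ⟨M, by linarith, fun h u hu => ?_⟩
  have hp := hu.hp
  have s0 := hu.su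
  have s1 : ∀ v, ContDiffOn ℝ ∞ (d h v u) B := fun v => d_sm hB s0 h v
  obtain ⟨t1, t2⟩ := T_int hB hφ (s0.mul (s1 1)) h 1
  obtain ⟨t3, t4⟩ := T_int hB hφ (s0.mul (s1 I)) h I
  obtain ⟨iE, eE⟩ := ind_int hSc ((e2_co (h := h) hB s0).mono hSB)
  have iA : Integrable (fun z => φ z * (d h 1 u z ^ 2 + d h I u z ^ 2)) :=
    rint hSc (cφ.continuousOn.mul ((((s1 1).continuousOn.mono hSB).pow 2).add
      (((s1 I).continuousOn.mono hSB).pow 2))) fun z hz => by rw [z0 z hz, zero_mul]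
  have iR : Integrable (fun z => φ z * (ρ z * u z ^ 2)) :=
    rint hSc (cφ.continuousOn.mul ((hρ.continuousOn.mono hSB).mul
      ((s0.continuousOn.mono hSB).pow 2))) fun z hz => by rw [z0 z hz, zero_mul]
  rw [← hS, ← eE]
  refine mono3 (a := 1) (b := 1) iA iR t1 t3 iE t2 t4 fun z => ?_
  by_cases hzS : z ∈ S
  · have hz := hSB hzS
    obtain ⟨m1, m2⟩ := hM
    have n1 := absd (h := h) hp (m1 z hzS)
    have n2 := absd (h := h) hp (m2 z hzS)
    have f1 := d_mul (rdA hB s0 hz) (rdA hB (s1 1) hz) h 1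
    have f2 := d_mul (rdA hB s0 hz) (rdA hB (s1 I) hz) h I
    have q := hu.eq z hz
    rw [Set.indicator_of_mem hzS]
    unfold T
    rw [f1, f2]
    unfold e2
    beta_reduce
    generalize d h 1 (d h 1 u) z = Y1 at *
    generalize d h I (d h I u) z = Y2 at *
    generalize d h I (d h 1 u) z = Z at *
    generalize d h 1 u z = W1 at *
    generalize d h I u z = W2 at *
    generalize u z = U at *
    generalize d h 1 φ z = a1 at *
    generalize d h I φ z = a2 at *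
    generalize hf : φ z = f at *
    have f0 : 0 ≤ f := by rw [← hf]; exact hφ0 z
    have y2 : Y2 = -(ρ z * U) - Y1 := by linarith
    have A1 : |a1 * (U * W1)| ≤ (h * M) * ((U ^ 2 + W1 ^ 2) / 2) := by
      rw [abs_mul]
      refine mul_le_mul n1 ?_ (abs_nonneg _) (by positivity)
      rw [abs_mul, ← sq_abs U, ← sq_abs W1]
      nlinarith [sq_nonneg (|U| - |W1|)]
    have A2 : |a2 * (U * W2)| ≤ (h * M) * ((U ^ 2 + W2 ^ 2) / 2) := by
      rw [abs_mul]
      refine mul_le_mul n2 ?_ (abs_nonneg _) (by positivity)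
      rw [abs_mul, ← sq_abs U, ← sq_abs W2]
      nlinarith [sq_nonneg (|U| - |W2|)]
    have A3 := neg_abs_le (a1 * (U * W1))
    have A4 := neg_abs_le (a2 * (U * W2))
    have hM0 : 0 ≤ h * M := by positivity
    have A5 : 0 ≤ (h * M) * (W1 ^ 2 / 2 + W2 ^ 2 / 2 + Y1 ^ 2 + Y2 ^ 2 + Z ^ 2) := by positivity
    have e1 : f * (W1 ^ 2 + W2 ^ 2) = f * (ρ z * U ^ 2) +
        1 * (f * (W1 * W1 + U * Y1) + a1 * (U * W1)) +
        1 * (f * (W2 * W2 + U * Y2) + a2 * (U * W2)) - a1 * (U * W1) - a2 * (U * W2) := by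
      rw [y2]; ring
    rw [e1]
    have e3 : h * M * (U ^ 2 + W1 ^ 2 + W2 ^ 2 + Y1 ^ 2 + Y2 ^ 2 + Z ^ 2) =
        (h * M) * ((U ^ 2 + W1 ^ 2) / 2) + (h * M) * ((U ^ 2 + W2 ^ 2) / 2) +
        (h * M) * (W1 ^ 2 / 2 + W2 ^ 2 / 2 + Y1 ^ 2 + Y2 ^ 2 + Z ^ 2) := by ring
    rw [e3]
    linarith
  · unfold T
    rw [z0 z hzS, z1 h 1 z hzS, z1 h I z hzS, Set.indicator_of_notMem hzS]
    simp

/-- the second energy inequality -/
theorem L2 (hB : IsOpen B) {φ ρ : ℂ → ℝ} (hφ : TF B φ) (hφ0 : ∀ z, 0 ≤ φ z)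
    (hρ : ContDiffOn ℝ ∞ ρ B) (ρ0 : ∀ z ∈ B, 0 < ρ z) :
    ∃ K : ℝ, 0 ≤ K ∧ ∀ (h : ℝ) (u : ℂ → ℝ), Sol B h ρ u →
      ∫ z, φ z * ((ρ z)⁻¹ * (d h 1 (d h 1 u) z ^ 2 + d h I (d h I u) z ^ 2)) ≤
        (∫ z, φ z * (ρ z * u z ^ 2)) + h * K * ∫ z in tsupport φ, e2 h u z := by
  obtain ⟨S, hS⟩ : ∃ S : Set ℂ, S = tsupport φ := ⟨_, rfl⟩
  have hSc : IsCompact S := by rw [hS]; exact hφ.2.1
  have hSB : S ⊆ B := by rw [hS]; exact hφ.2.2
  have z0 : ∀ z, z ∉ S → φ z = 0 := fun z hz => image_eq_zero_of_notMem_tsupport (by rwa [hS] at hz)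
  have z1 : ∀ h v z, z ∉ S → d h v φ z = 0 := fun h v z hz => by
    unfold d
    rw [fderiv_of_notMem_tsupport ℝ (by rwa [hS] at hz)]
    simp
  have cφ : Continuous φ := hφ.1.continuous
  have cφ' : ∀ v : ℂ, Continuous (fun z => fderiv ℝ φ z v) := fun v =>
    ((hφ.1.fderiv_right (m := ∞) le_rfl).clm_apply contDiff_const).continuous
  obtain ⟨R, hR⟩ : ∃ R : ℂ → ℝ, R = fun z => (ρ z)⁻¹ := ⟨_, rfl⟩
  have sR : ContDiffOn ℝ ∞ R B := by rw [hR]; exact hρ.inv fun z hz => (ρ0 z hz).ne'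
  have Rρ : ∀ z ∈ B, R z * ρ z = 1 := fun z hz => by
    rw [hR]; exact inv_mul_cancel₀ (ρ0 z hz).ne'
  have R0 : ∀ z ∈ B, 0 < R z := fun z hz => by rw [hR]; exact inv_pos.2 (ρ0 z hz)
  obtain ⟨M, M1, hM⟩ := bds hSc [fun z => fderiv ℝ φ z 1, fun z => fderiv ℝ φ z I, φ, R,
    fun z => fderiv ℝ R z 1, fun z => fderiv ℝ R z I] (by
    simp only [List.mem_cons, List.not_mem_nil, or_false, forall_eq_or_imp, forall_eq]
    exact ⟨(cφ' 1).continuousOn, (cφ' I).continuousOn, cφ.continuousOn, sR.continuousOn.mono hSB,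
      (rsd hB sR 1).continuousOn.mono hSB, (rsd hB sR I).continuousOn.mono hSB⟩)
  simp only [List.mem_cons, List.not_mem_nil, or_false, forall_eq_or_imp, forall_eq] at hM
  refine ⟨4 * M ^ 2, by positivity, fun h u hu => ?_⟩
  have hp := hu.hp
  have s0 := hu.su
  have s1 : ∀ v, ContDiffOn ℝ ∞ (d h v u) B := fun v => d_sm hB s0 h v
  have s2 : ∀ v w, ContDiffOn ℝ ∞ (d h w (d h v u)) B := fun v w => d_sm hB (s1 v) h w
  obtain ⟨t1, t2⟩ := T_int hB hφ (sR.mul ((s1 1).mul (s2 I I))) h 1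
  obtain ⟨t3, t4⟩ := T_int hB hφ (sR.mul ((s1 1).mul (s2 1 I))) h I
  obtain ⟨iE, eE⟩ := ind_int hSc ((e2_co (h := h) hB s0).mono hSB)
  have iA : Integrable (fun z => φ z * (R z * (d h 1 (d h 1 u) z ^ 2 +
      d h I (d h I u) z ^ 2))) :=
    rint hSc (cφ.continuousOn.mul ((sR.continuousOn.mono hSB).mul
      ((((s2 1 1).continuousOn.mono hSB).pow 2).add
      (((s2 I I).continuousOn.mono hSB).pow 2)))) fun z hz => by rw [z0 z hz, zero_mul]
  have iR : Integrable (fun z => φ z * (ρ z * u z ^ 2)) :=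
    rint hSc (cφ.continuousOn.mul ((hρ.continuousOn.mono hSB).mul
      ((s0.continuousOn.mono hSB).pow 2))) fun z hz => by rw [z0 z hz, zero_mul]
  have eA : (fun z => φ z * ((ρ z)⁻¹ * (d h 1 (d h 1 u) z ^ 2 + d h I (d h I u) z ^ 2))) =
      fun z => φ z * (R z * (d h 1 (d h 1 u) z ^ 2 + d h I (d h I u) z ^ 2)) := by rw [hR]
  rw [eA, ← hS, ← eE]
  refine mono3 (a := -2) (b := 2) iA iR t1 t3 iE t2 t4 fun z => ?_
  by_cases hzS : z ∈ S
  · have hz := hSB hzS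
    obtain ⟨m1, m2, m3, m4, m5, m6⟩ := hM
    have n1 := absd (h := h) hp (m1 z hzS)
    have n2 := absd (h := h) hp (m2 z hzS)
    have n5 := absd (h := h) hp (m5 z hzS)
    have n6 := absd (h := h) hp (m6 z hzS)
    have n3 := m3 z hzS
    have n4 := m4 z hzS
    have f1 := d_mul (rdA hB sR hz) (rdA hB ((s1 1).mul (s2 I I)) hz) h 1
    have f2 := d_mul (rdA hB sR hz) (rdA hB ((s1 1).mul (s2 1 I)) hz) h I
    have f3 := d_mul (rdA hB (s1 1) hz) (rdA hB (s2 I I) hz) h 1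
    have f4 := d_mul (rdA hB (s1 1) hz) (rdA hB (s2 1 I) hz) h I
    have cm : d h 1 (d h I (d h I u)) z = d h I (d h I (d h 1 u)) z := by
      rw [d_comm hB (s1 I) hz h]
      have e1 : d h 1 (d h I u) =ᶠ[𝓝 z] d h I (d h 1 u) := by
        filter_upwards [hB.mem_nhds hz] with w hw
        exact d_comm hB s0 hw h
      show h * fderiv ℝ (d h 1 (d h I u)) z I = h * fderiv ℝ (d h I (d h 1 u)) z I
      rw [e1.fderiv_eq]
    have q := hu.eq z hz
    have Rz := Rρ z hz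
    have R0z := R0 z hz
    rw [Set.indicator_of_mem hzS]
    unfold T
    rw [f1, f2, f3, f4, cm]
    unfold e2
    beta_reduce
    generalize d h I (d h I (d h 1 u)) z = X at *
    generalize d h 1 (d h 1 u) z = Y1 at *
    generalize d h I (d h I u) z = Y2 at *
    generalize d h I (d h 1 u) z = Z at *
    generalize d h 1 u z = W1 at *
    generalize d h I u z = W2 at *
    generalize u z = U at *
    generalize d h 1 φ z = a1 at *
    generalize d h I φ z = a2 at *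
    generalize d h 1 R z = b1 at *
    generalize d h I R z = b2 at *
    generalize R z = r at *
    generalize hf : φ z = f at *
    have f0 : 0 ≤ f := by rw [← hf]; exact hφ0 z
    have br1 : |f * b1 + a1 * r| ≤ 2 * (h * M ^ 2) := by
      refine (abs_add_le _ _).trans ?_
      rw [abs_mul, abs_mul]
      have := mul_le_mul n3 n5 (abs_nonneg _) (by positivity)
      have := mul_le_mul n1 n4 (abs_nonneg _) (by positivity)
      nlinarith
    have br2 : |f * b2 + a2 * r| ≤ 2 * (h * M ^ 2) := by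
      refine (abs_add_le _ _).trans ?_
      rw [abs_mul, abs_mul]
      have := mul_le_mul n3 n6 (abs_nonneg _) (by positivity)
      have := mul_le_mul n2 n4 (abs_nonneg _) (by positivity)
      nlinarith
    have hM0 : 0 ≤ h * M ^ 2 := by positivity
    have A1 : |(f * b1 + a1 * r) * (W1 * Y2)| ≤ (2 * (h * M ^ 2)) * ((W1 ^ 2 + Y2 ^ 2) / 2) := by
      rw [abs_mul]
      refine mul_le_mul br1 ?_ (abs_nonneg _) (by positivity)
      rw [abs_mul, ← sq_abs Y2, ← sq_abs W1]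
      nlinarith [sq_nonneg (|W1| - |Y2|)]
    have A2 : |(f * b2 + a2 * r) * (W1 * Z)| ≤ (2 * (h * M ^ 2)) * ((W1 ^ 2 + Z ^ 2) / 2) := by
      rw [abs_mul]
      refine mul_le_mul br2 ?_ (abs_nonneg _) (by positivity)
      rw [abs_mul, ← sq_abs Z, ← sq_abs W1]
      nlinarith [sq_nonneg (|W1| - |Z|)]
    have A3 := le_abs_self ((f * b1 + a1 * r) * (W1 * Y2))
    have A4 := neg_abs_le ((f * b2 + a2 * r) * (W1 * Z))
    have A5 : 0 ≤ (h * M ^ 2) * (4 * U ^ 2 + 4 * W2 ^ 2 + 4 * Y1 ^ 2 + 2 * Y2 ^ 2 + 2 * Z ^ 2) := by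
      positivity
    have A6 : 0 ≤ 2 * (f * (r * Z ^ 2)) := by positivity
    have e1 : f * (r * (Y1 ^ 2 + Y2 ^ 2)) = f * (ρ z * U ^ 2) - 2 * (f * (r * (Y1 * Y2))) := by
      have s : (Y1 + Y2) ^ 2 = (ρ z * U) ^ 2 := by rw [q]; ring
      have : f * (r * (Y1 ^ 2 + Y2 ^ 2)) = f * (r * ((Y1 + Y2) ^ 2)) -
        2 * (f * (r * (Y1 * Y2))) := by ring
      rw [this, s]
      have : f * (r * (ρ z * U) ^ 2) = f * ((r * ρ z) * (ρ z * U ^ 2)) := by ring
      rw [this, Rz, one_mul]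
    rw [e1]
    have e3 : f * (ρ z * U ^ 2) + -2 * (f * (b1 * (W1 * Y2) + r * (Y1 * Y2 + W1 * X)) +
        a1 * (r * (W1 * Y2))) + 2 * (f * (b2 * (W1 * Z) + r * (Z * Z + W1 * X)) +
        a2 * (r * (W1 * Z))) + h * (4 * M ^ 2) * (U ^ 2 + W1 ^ 2 + W2 ^ 2 + Y1 ^ 2 + Y2 ^ 2 +
        Z ^ 2) = f * (ρ z * U ^ 2) - 2 * (f * (r * (Y1 * Y2))) + 2 * (f * (r * Z ^ 2)) -
        2 * ((f * b1 + a1 * r) * (W1 * Y2)) + 2 * ((f * b2 + a2 * r) * (W1 * Z)) +
        2 * ((2 * (h * M ^ 2)) * ((W1 ^ 2 + Y2 ^ 2) / 2)) +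
        2 * ((2 * (h * M ^ 2)) * ((W1 ^ 2 + Z ^ 2) / 2)) +
        (h * M ^ 2) * (4 * U ^ 2 + 4 * W2 ^ 2 + 4 * Y1 ^ 2 + 2 * Y2 ^ 2 + 2 * Z ^ 2) := by ring
    rw [e3]
    linarith
  · unfold T
    rw [z0 z hzS, z1 h 1 z hzS, z1 h I z hzS, Set.indicator_of_notMem hzS]
    simp

end

end Pool.Agent.Y139.PD
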