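import Pool.Agent.Y139.PD.B

/-!
Project PD (helper139): the main inequality for one solution.
-/

set_option autoImplicit false
open MeasureTheory Filter Topology Complex
open scoped ContDiff ENNReal

namespace Pool.Agent.Y139.PD

open Pool.Agent.W745.RW Pool.Agent.TH294.RS Pool.Agent.TH294.RG Pool.Agent.TH421.DF
open Pool.Agent.TH421.AC

noncomputable section

variable {B : Set ℂ}

/-- the pointwise estimate in one direction -/
lemma pt1 {f ψ J C r h M s sv ι W Y kt kd a g ρ : ℝ} (f0 : 0 ≤ f) (fM : |f| ≤ M) (hs : 0 < s)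
    (hι : ι * s = 1) (ρ0 : 0 < ρ) (ρs : s ^ 2 = ρ * r ^ 2) (r0 : 0 < r) (ψ0 : 0 ≤ ψ) (ψJ : ψ ≤ J)
    (g0 : 0 ≤ g) (C0 : 0 < C) (hsv : |sv| ≤ h * M * r) (ha : |a| ≤ h * M) (sM : s ≤ M * r)
    (k4 : (W * ι) * kt ≤ 4) (k2 : |kt| ≤ 2) (k1 : |1 - kd| ≤ C * |W * ι|)
    (k3 : |kt - (W * ι) * kd| ≤ C) (h0 : 0 < h) (M1 : 1 ≤ M) :
    -(f * (ψ * Y)) ≤ -(f * (g * W * (s * kt) + ψ * (sv * kt + s * (kd * (Y * ι +
      W * (-sv * ι ^ 2))))) + a * (ψ * (s * kt))) + 4 * r ^ 2 * (f * (ρ * g)) +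
      J * C / (2 * r) * (f * W ^ 2 + f * (ρ⁻¹ * Y ^ 2)) + h * J * r * (M ^ 2 * C + 2 * M ^ 2) := by
  have J0 : 0 ≤ J := ψ0.trans ψJ
  have ι0 : 0 < ι := by
    by_contra hh
    have := not_lt.1 hh
    nlinarith
  obtain ⟨t, ht⟩ : ∃ t : ℝ, t = W * ι := ⟨_, rfl⟩
  have hW : W = t * s := by rw [ht, mul_assoc, hι, mul_one]
  rw [← ht] at k4 k1 k3
  have fM' : f ≤ M := (le_abs_self f).trans fM
  -- the identity
  have id1 : -(f * (ψ * Y)) = -(f * (g * W * (s * kt) + ψ * (sv * kt + s * (kd * (Y * ι +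
      W * (-sv * ι ^ 2))))) + a * (ψ * (s * kt))) + f * g * s ^ 2 * (t * kt) +
      (f * ψ) * (sv * (kt - t * kd)) - (f * ψ) * ((1 - kd) * Y) + a * (ψ * (s * kt)) := by
    have e1 : s * (kd * (Y * ι + W * (-sv * ι ^ 2))) = kd * Y - kd * sv * t := by
      have : s * (kd * (Y * ι + W * (-sv * ι ^ 2))) =
        kd * (Y * (ι * s)) - kd * sv * ((W * ι) * (ι * s)) := by ring
      rw [this, hι, ← ht]; ring
    rw [e1, hW]; ring
  have b1 : f * g * s ^ 2 * (t * kt) ≤ 4 * r ^ 2 * (f * (ρ * g)) := by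
    have : f * g * s ^ 2 * (t * kt) ≤ f * g * s ^ 2 * 4 :=
      mul_le_mul_of_nonneg_left k4 (by positivity)
    rw [ρs] at this ⊢
    linarith
  have b2 : (f * ψ) * (sv * (kt - t * kd)) ≤ h * J * r * (M ^ 2 * C) := by
    have e1 : f * ψ ≤ M * J := mul_le_mul fM' ψJ ψ0 (by linarith)
    have e2 : |sv * (kt - t * kd)| ≤ h * M * r * C := by
      rw [abs_mul]
      exact mul_le_mul hsv k3 (abs_nonneg _) (by positivity)
    have e3 := le_abs_self (sv * (kt - t * kd))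
    have e4 : (f * ψ) * (sv * (kt - t * kd)) ≤ (f * ψ) * (h * M * r * C) :=
      mul_le_mul_of_nonneg_left (e3.trans e2) (by positivity)
    have e5 : (f * ψ) * (h * M * r * C) ≤ (M * J) * (h * M * r * C) :=
      mul_le_mul_of_nonneg_right e1 (by positivity)
    have e6 : (M * J) * (h * M * r * C) = h * J * r * (M ^ 2 * C) := by ring
    linarith
  have b3 : -((f * ψ) * ((1 - kd) * Y)) ≤ J * C / (2 * r) * (f * W ^ 2 + f * (ρ⁻¹ * Y ^ 2)) := by
    have e1 : -((1 - kd) * Y) ≤ C * |t| * |Y| := by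
      refine (neg_le_abs _).trans ?_
      rw [abs_mul]
      exact mul_le_mul_of_nonneg_right k1 (abs_nonneg _)
    have e2 : |t| = |W| * ι := by rw [ht, abs_mul, abs_of_pos ι0]
    have e3 : (r * ι) ^ 2 = ρ⁻¹ := by
      have : ρ * (r * ι) ^ 2 = 1 := by
        have : ρ * (r * ι) ^ 2 = (ρ * r ^ 2) * ι ^ 2 := by ring
        rw [this, ← ρs]
        have : s ^ 2 * ι ^ 2 = (ι * s) ^ 2 := by ring
        rw [this, hι]; norm_num
      exact eq_inv_of_mul_eq_one_right this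
    have e4 : |W| * ι * |Y| ≤ 1 / (2 * r) * (W ^ 2 + ρ⁻¹ * Y ^ 2) := by
      have p := sq_nonneg (|W| - (r * ι) * |Y|)
      have p2 : (|W| - (r * ι) * |Y|) ^ 2 = W ^ 2 + ρ⁻¹ * Y ^ 2 - 2 * r * (|W| * ι * |Y|) := by
        rw [← e3, ← sq_abs W, ← sq_abs Y]; ring
      rw [p2] at p
      have p3 : |W| * ι * |Y| = 1 / (2 * r) * (2 * r * (|W| * ι * |Y|)) := by
        field_simp
      rw [p3]
      exact mul_le_mul_of_nonneg_left (by linarith) (by positivity)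
    have e5 : C * |t| * |Y| ≤ C * (1 / (2 * r) * (W ^ 2 + ρ⁻¹ * Y ^ 2)) := by
      rw [e2]
      have : C * (|W| * ι) * |Y| = C * (|W| * ι * |Y|) := by ring
      rw [this]
      exact mul_le_mul_of_nonneg_left e4 C0.le
    have e6 : f * ψ * (-((1 - kd) * Y)) ≤ f * ψ * (C * (1 / (2 * r) * (W ^ 2 + ρ⁻¹ * Y ^ 2))) :=
      mul_le_mul_of_nonneg_left (e1.trans e5) (by positivity)
    have q0 : 0 ≤ C * (1 / (2 * r) * (W ^ 2 + ρ⁻¹ * Y ^ 2)) := by positivity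
    have e7 : f * ψ * (C * (1 / (2 * r) * (W ^ 2 + ρ⁻¹ * Y ^ 2))) ≤
        f * J * (C * (1 / (2 * r) * (W ^ 2 + ρ⁻¹ * Y ^ 2))) :=
      mul_le_mul_of_nonneg_right (mul_le_mul_of_nonneg_left ψJ f0) q0
    have e8 : f * J * (C * (1 / (2 * r) * (W ^ 2 + ρ⁻¹ * Y ^ 2))) =
        J * C / (2 * r) * (f * W ^ 2 + f * (ρ⁻¹ * Y ^ 2)) := by field_simp
    rw [← e8]
    linarith
  have b4 : a * (ψ * (s * kt)) ≤ h * J * r * (2 * M ^ 2) := by
    refine (le_abs_self _).trans ?_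
    rw [abs_mul, abs_mul, abs_mul, abs_of_nonneg ψ0, abs_of_pos hs]
    have e1 : s * |kt| ≤ (M * r) * 2 := mul_le_mul sM k2 (abs_nonneg _) (by positivity)
    have e2 : ψ * (s * |kt|) ≤ J * ((M * r) * 2) :=
      mul_le_mul ψJ e1 (by positivity) J0
    have e3 : |a| * (ψ * (s * |kt|)) ≤ (h * M) * (J * ((M * r) * 2)) :=
      mul_le_mul ha e2 (by positivity) (by positivity)
    have e4 : (h * M) * (J * ((M * r) * 2)) = h * J * r * (2 * M ^ 2) := by ring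
    linarith
  have e9 : h * J * r * (M ^ 2 * C + 2 * M ^ 2) = h * J * r * (M ^ 2 * C) +
    h * J * r * (2 * M ^ 2) := by ring
  rw [id1, e9]
  linarith

/-- **The main inequality.** -/
theorem L3 (hB : IsOpen B) {φ ρ : ℂ → ℝ} (hφ : TF B φ) (hφ0 : ∀ z, 0 ≤ φ z)
    (hρ : ContDiffOn ℝ ∞ ρ B) (ρ0 : ∀ z ∈ B, 0 < ρ z) {k : ℝ → ℝ} {C : ℝ} (C0 : 0 < C)
    (sk : ContDiff ℝ ∞ k) (k4 : ∀ t, t * k t ≤ 4) (k2 : ∀ t, |k t| ≤ 2)
    (k1 : ∀ t, |1 - deriv k t| ≤ C * |t|) (k3 : ∀ t, |k t - t * deriv k t| ≤ C) :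
    ∃ K : ℝ, 0 ≤ K ∧ ∀ (h : ℝ) (u : ℂ → ℝ), Sol B h ρ u → ∀ (g : ℝ → ℝ) (J r : ℝ),
      ContDiff ℝ ∞ g → (∀ x, 0 ≤ g x) → (∀ x, 0 ≤ Pr g x) → (∀ x, Pr g x ≤ J) → 0 < r →
      ∫ z, φ z * (ρ z * (Pr g (u z) * u z)) ≤ 8 * r ^ 2 * (∫ z, φ z * (ρ z * g (u z))) +
        J * C / r * ((∫ z, φ z * (ρ z * u z ^ 2)) + h * K * ∫ z in tsupport φ, e2 h u z) +
        h * J * r * K := by
  obtain ⟨K1, K10, hK1⟩ := L1 hB hφ hφ0 hρ
  obtain ⟨K2, K20, hK2⟩ := L2 hB hφ hφ0 hρ ρ0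
  obtain ⟨S, hS⟩ : ∃ S : Set ℂ, S = tsupport φ := ⟨_, rfl⟩
  have hSc : IsCompact S := by rw [hS]; exact hφ.2.1
  have hSB : S ⊆ B := by rw [hS]; exact hφ.2.2
  have z0 : ∀ z, z ∉ S → φ z = 0 := fun z hz => image_eq_zero_of_notMem_tsupport (by rwa [hS] at hz)
  have z1 : ∀ h v z, z ∉ S → d h v φ z = 0 := fun h v z hz => by
    unfold d
    rw [fderiv_of_notMem_tsupport ℝ (by rwa [hS] at hz)]
    simp
  have cφ : Continuous φ := hφ.1.continuous
  have cφ' : ∀ v : ℂ, Continuous (fun z => fderiv ℝ φ z v) := fun v =>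
    ((hφ.1.fderiv_right (m := ∞) le_rfl).clm_apply contDiff_const).continuous
  obtain ⟨κ, hκ⟩ : ∃ κ : ℂ → ℝ, κ = fun z => √(ρ z) := ⟨_, rfl⟩
  have sκ : ContDiffOn ℝ ∞ κ B := by rw [hκ]; exact hρ.sqrt fun z hz => (ρ0 z hz).ne'
  have κ0 : ∀ z ∈ B, 0 < κ z := fun z hz => by rw [hκ]; exact Real.sqrt_pos.2 (ρ0 z hz)
  have κ2 : ∀ z ∈ B, κ z ^ 2 = ρ z := fun z hz => by rw [hκ]; exact Real.sq_sqrt (ρ0 z hz).le
  obtain ⟨M, M1, hM⟩ := bds hSc [fun z => fderiv ℝ φ z 1, fun z => fderiv ℝ φ z I, φ, κ,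
    fun z => fderiv ℝ κ z 1, fun z => fderiv ℝ κ z I] (by
    simp only [List.mem_cons, List.not_mem_nil, or_false, forall_eq_or_imp, forall_eq]
    exact ⟨(cφ' 1).continuousOn, (cφ' I).continuousOn, cφ.continuousOn, sκ.continuousOn.mono hSB,
      (rsd hB sκ 1).continuousOn.mono hSB, (rsd hB sκ I).continuousOn.mono hSB⟩)
  simp only [List.mem_cons, List.not_mem_nil, or_false, forall_eq_or_imp, forall_eq] at hM
  obtain ⟨V, hV⟩ : ∃ V : ℝ, V = ∫ z in S, (1 : ℝ) := ⟨_, rfl⟩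
  have V0 : 0 ≤ V := by rw [hV]; exact integral_nonneg fun z => zero_le_one
  obtain ⟨N, hN⟩ : ∃ N : ℝ, N = M ^ 2 * C + 2 * M ^ 2 := ⟨_, rfl⟩
  have N0 : 0 ≤ N := by rw [hN]; positivity
  refine ⟨K1 + K2 + 2 * N * V, by positivity, fun h u hu g J r sg g0 P0 PJ r0 => ?_⟩
  have hp := hu.hp
  have J0 : 0 ≤ J := (P0 0).trans (PJ 0)
  have s0 := hu.su
  have s1 : ∀ v, ContDiffOn ℝ ∞ (d h v u) B := fun v => d_sm hB s0 h v
  have s2 : ∀ v w, ContDiffOn ℝ ∞ (d h w (d h v u)) B := fun v w => d_sm hB (s1 v) h w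
  obtain ⟨s, hs⟩ : ∃ s : ℂ → ℝ, s = fun z => κ z * r := ⟨_, rfl⟩
  have ss : ContDiffOn ℝ ∞ s B := by rw [hs]; exact sκ.mul contDiffOn_const
  have sp : ∀ z ∈ B, 0 < s z := fun z hz => by rw [hs]; exact mul_pos (κ0 z hz) r0
  have si : ContDiffOn ℝ ∞ (fun z => (s z)⁻¹) B := ss.inv fun z hz => (sp z hz).ne'
  have sP : ContDiffOn ℝ ∞ (fun z => Pr g (u z)) B := (Pr_sm sg).comp_contDiffOn s0
  have st : ∀ v, ContDiffOn ℝ ∞ (fun z => d h v u z * (s z)⁻¹) B := fun v => (s1 v).mul si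
  have sK : ∀ v, ContDiffOn ℝ ∞ (fun z => k (d h v u z * (s z)⁻¹)) B := fun v =>
    sk.comp_contDiffOn (st v)
  have sG : ∀ v, ContDiffOn ℝ ∞ (fun z => s z * k (d h v u z * (s z)⁻¹)) B := fun v =>
    ss.mul (sK v)
  have sF : ∀ v, ContDiffOn ℝ ∞ (fun z => Pr g (u z) * (s z * k (d h v u z * (s z)⁻¹))) B :=
    fun v => sP.mul (sG v)
  obtain ⟨t1, t2⟩ := T_int hB hφ (sF 1) h 1
  obtain ⟨t3, t4⟩ := T_int hB hφ (sF I) h I
  obtain ⟨iE, eE⟩ := ind_int hSc (F := fun _ => (1 : ℝ)) continuousOn_const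
  have cu := s0.continuousOn.mono hSB
  have cρ := hρ.continuousOn.mono hSB
  have iA : Integrable (fun z => φ z * (ρ z * (Pr g (u z) * u z))) :=
    rint hSc (cφ.continuousOn.mul (cρ.mul ((sP.continuousOn.mono hSB).mul cu)))
      fun z hz => by rw [z0 z hz, zero_mul]
  have ig : Integrable (fun z => φ z * (ρ z * g (u z))) :=
    rint hSc (cφ.continuousOn.mul (cρ.mul (sg.continuous.comp_continuousOn cu)))
      fun z hz => by rw [z0 z hz, zero_mul]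
  have iW : Integrable (fun z => φ z * (d h 1 u z ^ 2 + d h I u z ^ 2)) :=
    rint hSc (cφ.continuousOn.mul ((((s1 1).continuousOn.mono hSB).pow 2).add
      (((s1 I).continuousOn.mono hSB).pow 2))) fun z hz => by rw [z0 z hz, zero_mul]
  have iY : Integrable (fun z => φ z * ((ρ z)⁻¹ * (d h 1 (d h 1 u) z ^ 2 +
      d h I (d h I u) z ^ 2))) :=
    rint hSc (cφ.continuousOn.mul ((cρ.inv₀ fun z hz => (ρ0 z (hSB hz)).ne').mul
      ((((s2 1 1).continuousOn.mono hSB).pow 2).add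
      (((s2 I I).continuousOn.mono hSB).pow 2)))) fun z hz => by rw [z0 z hz, zero_mul]
  have j1 : Integrable (fun z => 8 * r ^ 2 * (φ z * (ρ z * g (u z)))) := ig.const_mul (8 * r ^ 2)
  have j2 : Integrable (fun z => J * C / (2 * r) * (φ z * (d h 1 u z ^ 2 + d h I u z ^ 2) +
      φ z * ((ρ z)⁻¹ * (d h 1 (d h 1 u) z ^ 2 + d h I (d h I u) z ^ 2)))) :=
    (iW.add iY).const_mul (J * C / (2 * r))
  have iR : Integrable (fun z => 8 * r ^ 2 * (φ z * (ρ z * g (u z))) +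
      J * C / (2 * r) * (φ z * (d h 1 u z ^ 2 + d h I u z ^ 2) +
      φ z * ((ρ z)⁻¹ * (d h 1 (d h 1 u) z ^ 2 + d h I (d h I u) z ^ 2)))) := j1.add j2
  have big := mono3 (a := -1) (b := -1) (c := h * J * r * (2 * N)) iA iR t1 t3 iE t2 t4 (by
    intro z
    by_cases hzS : z ∈ S
    · have hz := hSB hzS
      obtain ⟨m1, m2, m3, m4, m5, m6⟩ := hM
      have n1 := absd (h := h) hp (m1 z hzS)
      have n2 := absd (h := h) hp (m2 z hzS)
      have n3 := m3 z hzS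
      have n4 := m4 z hzS
      have sd : ∀ v, d h v s z = d h v κ z * r := fun v => by
        rw [hs, d_mul (g := fun _ => r) (rdA hB sκ hz) (differentiableAt_const _)]
        unfold d
        simp
      have n5 : |d h 1 s z| ≤ h * M * r := by
        rw [sd, abs_mul, abs_of_pos r0]
        exact mul_le_mul_of_nonneg_right (absd (h := h) hp (m5 z hzS)) r0.le
      have n6 : |d h I s z| ≤ h * M * r := by
        rw [sd, abs_mul, abs_of_pos r0]
        exact mul_le_mul_of_nonneg_right (absd (h := h) hp (m6 z hzS)) r0.le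
      have n7 : s z ≤ M * r := by
        rw [hs]
        exact mul_le_mul_of_nonneg_right ((le_abs_self _).trans n4) r0.le
      have q := hu.eq z hz
      have ρs : s z ^ 2 = ρ z * r ^ 2 := by
        rw [hs]; show (κ z * r) ^ 2 = _; rw [mul_pow, κ2 z hz]
      have dF : ∀ v, d h v (fun z => Pr g (u z) * (s z * k (d h v u z * (s z)⁻¹))) z =
          g (u z) * d h v u z * (s z * k (d h v u z * (s z)⁻¹)) + Pr g (u z) *
          (d h v s z * k (d h v u z * (s z)⁻¹) + s z * (deriv k (d h v u z * (s z)⁻¹) *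
          (d h v (d h v u) z * (s z)⁻¹ + d h v u z * (-(d h v s z) * ((s z)⁻¹) ^ 2)))) := by
        intro v
        rw [d_mul (rdA hB sP hz) (rdA hB (sG v) hz),
          d_mul (rdA hB ss hz) (rdA hB (sK v) hz),
          d_comp (k := Pr g) (rdA hB s0 hz) (Pr_d sg _).differentiableAt,
          d_comp (k := k) (rdA hB (st v) hz) (sk.differentiable (by simp) _),
          d_mul (rdA hB (s1 v) hz) (rdA hB si hz),
          d_inv (rdA hB ss hz) (sp z hz).ne', (Pr_d sg _).deriv]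
      have p1 := pt1 (f := φ z) (ψ := Pr g (u z)) (J := J) (C := C) (r := r) (h := h) (M := M)
        (s := s z) (sv := d h 1 s z) (ι := (s z)⁻¹) (W := d h 1 u z) (Y := d h 1 (d h 1 u) z)
        (kt := k (d h 1 u z * (s z)⁻¹)) (kd := deriv k (d h 1 u z * (s z)⁻¹)) (a := d h 1 φ z)
        (g := g (u z)) (ρ := ρ z) (hφ0 z) n3 (sp z hz) (inv_mul_cancel₀ (sp z hz).ne') (ρ0 z hz)
        ρs r0 (P0 _) (PJ _) (g0 _) C0 n5 n1 n7 (k4 _) (k2 _) (k1 _) (k3 _) hp M1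
      have p2 := pt1 (f := φ z) (ψ := Pr g (u z)) (J := J) (C := C) (r := r) (h := h) (M := M)
        (s := s z) (sv := d h I s z) (ι := (s z)⁻¹) (W := d h I u z) (Y := d h I (d h I u) z)
        (kt := k (d h I u z * (s z)⁻¹)) (kd := deriv k (d h I u z * (s z)⁻¹)) (a := d h I φ z)
        (g := g (u z)) (ρ := ρ z) (hφ0 z) n3 (sp z hz) (inv_mul_cancel₀ (sp z hz).ne') (ρ0 z hz)
        ρs r0 (P0 _) (PJ _) (g0 _) C0 n6 n2 n7 (k4 _) (k2 _) (k1 _) (k3 _) hp M1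
      rw [Set.indicator_of_mem hzS]
      unfold T
      rw [dF 1, dF I]
      have e1 : φ z * (ρ z * (Pr g (u z) * u z)) = -(φ z * (Pr g (u z) * d h 1 (d h 1 u) z)) +
          -(φ z * (Pr g (u z) * d h I (d h I u) z)) := by
        have : ρ z * u z = -(d h 1 (d h 1 u) z + d h I (d h I u) z) := by rw [q]; ring
        have e : φ z * (ρ z * (Pr g (u z) * u z)) = φ z * (Pr g (u z) * (ρ z * u z)) := by ring
        rw [e, this]; ring
      rw [e1, hN]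
      linear_combination p1 + p2
    · unfold T
      rw [z0 z hzS, z1 h 1 z hzS, z1 h I z hzS, Set.indicator_of_notMem hzS]
      simp)
  rw [eE, ← hV] at big
  have eR : ∫ z, (8 * r ^ 2 * (φ z * (ρ z * g (u z))) +
      J * C / (2 * r) * (φ z * (d h 1 u z ^ 2 + d h I u z ^ 2) +
      φ z * ((ρ z)⁻¹ * (d h 1 (d h 1 u) z ^ 2 + d h I (d h I u) z ^ 2)))) =
      8 * r ^ 2 * (∫ z, φ z * (ρ z * g (u z))) + J * C / (2 * r) *
      ((∫ z, φ z * (d h 1 u z ^ 2 + d h I u z ^ 2)) + ∫ z, φ z * ((ρ z)⁻¹ *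
      (d h 1 (d h 1 u) z ^ 2 + d h I (d h I u) z ^ 2))) := by
    rw [integral_add j1 j2, integral_const_mul, integral_const_mul, integral_add iW iY]
  have b1 := hK1 h u hu
  have b2 := hK2 h u hu
  obtain ⟨Q, hQ⟩ : ∃ Q : ℝ, Q = ∫ z in tsupport φ, e2 h u z := ⟨_, rfl⟩
  have Q0 : 0 ≤ Q := by
    rw [hQ]
    refine integral_nonneg fun z => ?_
    unfold e2
    positivity
  rw [← hQ] at b1 b2 ⊢
  rw [eR] at big
  generalize (∫ z, φ z * (ρ z * (Pr g (u z) * u z))) = A at *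
  generalize (∫ z, φ z * (ρ z * g (u z))) = G at *
  generalize (∫ z, φ z * (d h 1 u z ^ 2 + d h I u z ^ 2)) = A1 at *
  generalize (∫ z, φ z * ((ρ z)⁻¹ * (d h 1 (d h 1 u) z ^ 2 + d h I (d h I u) z ^ 2))) = A2 at *
  generalize (∫ z, φ z * (ρ z * u z ^ 2)) = m at *
  have c1 : J * C / (2 * r) * (A1 + A2) ≤ J * C / (2 * r) * ((m + h * K1 * Q) +
      (m + h * K2 * Q)) := mul_le_mul_of_nonneg_left (add_le_add b1 b2) (by positivity)
  have c2 : J * C / (2 * r) * ((m + h * K1 * Q) + (m + h * K2 * Q)) ≤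
      J * C / r * (m + h * (K1 + K2 + 2 * N * V) * Q) := by
    have e1 : J * C / (2 * r) * ((m + h * K1 * Q) + (m + h * K2 * Q)) =
      J * C / r * (m + h * Q * ((K1 + K2) / 2)) := by field_simp; ring
    rw [e1]
    refine mul_le_mul_of_nonneg_left ?_ (by positivity)
    have hQ0 : 0 ≤ h * Q := by positivity
    have : h * Q * ((K1 + K2) / 2) ≤ h * Q * (K1 + K2 + 2 * N * V) :=
      mul_le_mul_of_nonneg_left (by nlinarith [mul_nonneg N0 V0]) hQ0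
    nlinarith
  have c3 : h * J * r * (2 * N) * V ≤ h * J * r * (K1 + K2 + 2 * N * V) := by
    have : 0 ≤ h * J * r := by positivity
    nlinarith
  linarith

end

end Pool.Agent.Y139.PD
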