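import Pool.Agent.Y139.PD.C
import Pool.Agent.Results.MP_a52643_an.AbsoluteContinuity

/-!
Project PD (helper139): sequences of solutions.
-/

set_option autoImplicit false
open MeasureTheory Filter Topology Complex
open scoped ContDiff ENNReal

namespace Pool.Agent.Y139.PD

open Pool.Agent.W745.RW Pool.Agent.TH294.RS Pool.Agent.TH294.RG Pool.Agent.TH421.DF
open Pool.Agent.TH421.AC Pool.Agent.Results.MP_a52643_an.AbsoluteContinuity

noncomputable section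

variable {B : Set ℂ}

/-- the mean against a test function is small -/
theorem L4 (hB : IsOpen B) {φ ρ : ℂ → ℝ} (hφ : TF B φ) (hρ : ContDiffOn ℝ ∞ ρ B) :
    ∃ K : ℝ, 0 ≤ K ∧ ∀ (h : ℝ) (u : ℂ → ℝ), Sol B h ρ u →
      |∫ z, φ z * (ρ z * u z)| ≤ h * K * ((∫ z in tsupport φ, (1 : ℝ)) +
        ∫ z in tsupport φ, e2 h u z) := by
  obtain ⟨S, hS⟩ : ∃ S : Set ℂ, S = tsupport φ := ⟨_, rfl⟩
  have hSc : IsCompact S := by rw [hS]; exact hφ.2.1
  have hSB : S ⊆ B := by rw [hS]; exact hφ.2.2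
  have z0 : ∀ z, z ∉ S → φ z = 0 := fun z hz => image_eq_zero_of_notMem_tsupport (by rwa [hS] at hz)
  have z1 : ∀ h v z, z ∉ S → d h v φ z = 0 := fun h v z hz => by
    unfold d
    rw [fderiv_of_notMem_tsupport ℝ (by rwa [hS] at hz)]
    simp
  have cφ : Continuous φ := hφ.1.continuous
  have cφ' : ∀ v : ℂ, Continuous (fun z => fderiv ℝ φ z v) := fun v =>
    ((hφ.1.fderiv_right (m := ∞) le_rfl).clm_apply contDiff_const).continuous
  obtain ⟨M, M1, hM⟩ := bds hSc [fun z => fderiv ℝ φ z 1, fun z => fderiv ℝ φ z I] (by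
    simp only [List.mem_cons, List.not_mem_nil, or_false, forall_eq_or_imp, forall_eq]
    exact ⟨(cφ' 1).continuousOn, (cφ' I).continuousOn⟩)
  simp only [List.mem_cons, List.not_mem_nil, or_false, forall_eq_or_imp, forall_eq] at hM
  refine ⟨M, by linarith, fun h u hu => ?_⟩
  have hp := hu.hp
  have s0 := hu.su
  have s1 : ∀ v, ContDiffOn ℝ ∞ (d h v u) B := fun v => d_sm hB s0 h v
  obtain ⟨t1, t2⟩ := T_int hB hφ (s1 1) h 1
  obtain ⟨t3, t4⟩ := T_int hB hφ (s1 I) h I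
  have ce := (e2_co (h := h) hB s0).mono hSB
  obtain ⟨iE, eE⟩ := ind_int hSc (F := fun z => 1 + e2 h u z) (continuousOn_const.add ce)
  have eS : ∫ z in S, ((1 : ℝ) + e2 h u z) = (∫ z in S, (1 : ℝ)) + ∫ z in S, e2 h u z :=
    integral_add (continuousOn_const.integrableOn_compact hSc) (ce.integrableOn_compact hSc)
  have iA : Integrable (fun z => φ z * (ρ z * u z)) :=
    rint hSc (cφ.continuousOn.mul ((hρ.continuousOn.mono hSB).mul
      (s0.continuousOn.mono hSB))) fun z hz => by rw [z0 z hz, zero_mul]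
  have iZ : Integrable (fun _ : ℂ => (0 : ℝ)) := integrable_zero _ _ _
  have pt : ∀ z, |φ z * (ρ z * u z) + T h 1 φ (d h 1 u) z + T h I φ (d h I u) z| ≤
      h * M * S.indicator (fun z => 1 + e2 h u z) z := by
    intro z
    by_cases hzS : z ∈ S
    · have hz := hSB hzS
      obtain ⟨m1, m2⟩ := hM
      have n1 := absd (h := h) hp (m1 z hzS)
      have n2 := absd (h := h) hp (m2 z hzS)
      have q := hu.eq z hz
      rw [Set.indicator_of_mem hzS]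
      unfold T
      have e1 : φ z * (ρ z * u z) + (φ z * d h 1 (d h 1 u) z + d h 1 φ z * d h 1 u z) +
          (φ z * d h I (d h I u) z + d h I φ z * d h I u z) =
          d h 1 φ z * d h 1 u z + d h I φ z * d h I u z := by
        linear_combination (φ z) * q
      rw [e1]
      unfold e2
      generalize d h 1 (d h 1 u) z = Y1 at *
      generalize d h I (d h I u) z = Y2 at *
      generalize d h I (d h 1 u) z = Z at *
      generalize d h 1 u z = W1 at *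
      generalize d h I u z = W2 at *
      generalize u z = U at *
      generalize d h 1 φ z = a1 at *
      generalize d h I φ z = a2 at *
      refine (abs_add_le _ _).trans ?_
      rw [abs_mul, abs_mul]
      have hM0 : 0 ≤ h * M := by positivity
      have b1 : |a1| * |W1| ≤ (h * M) * ((1 + W1 ^ 2) / 2) := by
        refine mul_le_mul n1 ?_ (abs_nonneg _) hM0
        rw [← sq_abs W1]; nlinarith [sq_nonneg (|W1| - 1)]
      have b2 : |a2| * |W2| ≤ (h * M) * ((1 + W2 ^ 2) / 2) := by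
        refine mul_le_mul n2 ?_ (abs_nonneg _) hM0
        rw [← sq_abs W2]; nlinarith [sq_nonneg (|W2| - 1)]
      have b3 : 0 ≤ (h * M) * (U ^ 2 + W1 ^ 2 / 2 + W2 ^ 2 / 2 + Y1 ^ 2 + Y2 ^ 2 + Z ^ 2) := by
        positivity
      nlinarith
    · unfold T
      rw [z0 z hzS, z1 h 1 z hzS, z1 h I z hzS, Set.indicator_of_notMem hzS]
      simp
  rw [← hS, ← eS, ← eE, abs_le]
  have u1 := mono3 (a := -1) (b := -1) (c := h * M) iA iZ t1 t3 iE t2 t4 fun z => by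
    have := (abs_le.1 (pt z)).2
    linarith
  have u2 := mono3 (a := 1) (b := 1) (c := h * M) iA.neg iZ t1 t3 iE t2 t4 fun z => by
    have := (abs_le.1 (pt z)).1
    simp only [Pi.neg_apply]
    linarith
  simp only [Pi.neg_apply] at u2
  rw [integral_neg] at u2
  rw [integral_zero, zero_add] at u1 u2
  constructor <;> linarith

/-- the hypotheses on the sequence -/
structure Hyp (Ω : Set ℂ) (ρ : ℂ → ℝ) (lam : ℕ → ℝ) (u : ℕ → ℂ → ℝ) : Prop where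
  oΩ : IsOpen Ω
  sρ : ContDiffOn ℝ ∞ ρ Ω
  pρ : ∀ z ∈ Ω, 0 < ρ z
  ll : Tendsto lam atTop atTop
  su : ∀ n, ContDiffOn ℝ ∞ (u n) Ω
  eq : ∀ n, ∀ z ∈ Ω, lapl (u n) z + lam n * (ρ z * u n z) = 0
  bd : LocL2 Ω u

lemma lapl_neg (u : ℂ → ℝ) (z : ℂ) : lapl (fun w => -u w) z = -lapl u z := by
  unfold lapl
  have e : ∀ v : ℂ, (fun w => fderiv ℝ (fun w => -u w) w v) = fun w => -(fderiv ℝ u w v) := by
    intro v; funext w; rw [fderiv_fun_neg]; simp
  rw [e, e, fderiv_fun_neg, fderiv_fun_neg]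
  simp only [neg_apply]; ring

lemma Hyp.neg {Ω : Set ℂ} {ρ : ℂ → ℝ} {lam : ℕ → ℝ} {u : ℕ → ℂ → ℝ} (H : Hyp Ω ρ lam u) :
    Hyp Ω ρ lam (fun n z => -u n z) := by
  refine ⟨H.oΩ, H.sρ, H.pρ, H.ll, fun n => (H.su n).neg, fun n z hz => ?_, fun K hK hKΩ => ?_⟩
  · rw [lapl_neg]
    linear_combination -(H.eq n z hz)
  · obtain ⟨C, hC⟩ := H.bd K hK hKΩ
    refine ⟨C, hC.mono fun n hn => ?_⟩
    simp only [neg_sq]; exact hn

/-- eventually, `u n` solves the scaled equation with a bounded energy -/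
theorem seq_bd {Ω : Set ℂ} {ρ : ℂ → ℝ} {lam : ℕ → ℝ} {u : ℕ → ℂ → ℝ} (H : Hyp Ω ρ lam u)
    {S : Set ℂ} (hSc : IsCompact S) (hSB : S ⊆ Ω) : ∃ (h : ℕ → ℝ) (Q : ℝ), 0 ≤ Q ∧
      Tendsto h atTop (𝓝 0) ∧ ∀ᶠ n in atTop, Sol Ω (h n) ρ (u n) ∧
        ∫ z in S, e2 (h n) (u n) z ≤ Q := by
  obtain ⟨hΩ, hρ, hρ0, hlam, hu, he, hL⟩ := H
  obtain ⟨N0, hN0⟩ := (eventually_atTop.1 (hlam.eventually_ge_atTop 1))
  obtain ⟨l, hl⟩ : ∃ l : ℕ → ℝ, ∀ n, l n = lam (n + N0) := ⟨_, fun _ => rfl⟩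
  have l1 : ∀ n, 1 ≤ l n := fun n => by rw [hl]; exact hN0 _ (Nat.le_add_left _ _)
  have ll : Tendsto l atTop atTop :=
    (hlam.comp (tendsto_add_atTop_nat N0)).congr fun n => (hl n).symm
  obtain ⟨h, hh⟩ : ∃ h : ℕ → ℝ, ∀ n, h n = (√(l n))⁻¹ := ⟨_, fun _ => rfl⟩
  have hp : ∀ n, 0 < h n := fun n => by
    rw [hh]; exact inv_pos.2 (Real.sqrt_pos.2 (lt_of_lt_of_le one_pos (l1 n)))
  have h0 : Tendsto h atTop (𝓝 0) :=
    (tendsto_inv_atTop_zero.comp (Real.tendsto_sqrt_atTop.comp ll)).congr fun n => (hh n).symm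
  have h2 : ∀ n, h n ^ 2 * l n = 1 := fun n => by
    have p : 0 < l n := lt_of_lt_of_le one_pos (l1 n)
    rw [hh, inv_pow, Real.sq_sqrt p.le, inv_mul_cancel₀ p.ne']
  obtain ⟨w, hw⟩ : ∃ w : ℕ → ℂ → ℝ, w = fun n => u (n + N0) := ⟨_, rfl⟩
  have sw : ∀ n, ContDiffOn ℝ ∞ (w n) Ω := fun n => by rw [hw]; exact hu _
  have ew : ∀ n, ∀ z ∈ Ω, h n ^ 2 * lapl (w n) z = -(ρ z * w n z) := by
    intro n z hz
    have e1 := he (n + N0) z hz
    rw [← hl] at e1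
    have e2 : lapl (w n) z = - (l n * (ρ z * w n z)) := by
      rw [hw]; show lapl (u (n + N0)) z = - (l n * (ρ z * u (n + N0) z)); linarith
    rw [e2]
    have := h2 n
    linear_combination (-(ρ z * w n z)) * this
  have lbw : LB Ω 2 (cx w) := by
    refine ⟨fun n => Complex.ofRealCLM.contDiff.comp_contDiffOn (sw n), fun K hK hKB => ?_⟩
    obtain ⟨C, hC⟩ := hL K hK hKB
    refine ⟨C, ?_⟩
    have h3 := (tendsto_add_atTop_nat N0).eventually hC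
    refine h3.mono fun n hn => ?_
    simp only [cx, Complex.norm_real, Real.norm_eq_abs, sq_abs, hw]
    exact hn
  have MKw : MK2 Ω h 3 (cx w) := by
    refine mk_sol hΩ hp h0 lbw (ρ := fun z => (ρ z : ℂ))
      (Complex.ofRealCLM.contDiff.comp_contDiffOn hρ) (c := fun _ => 1) (M := 1)
      (Eventually.of_forall fun n => by norm_num) ?_ 3
    intro n z hz
    have e1 : lap (cx w n) z = ((lapl (w n) z : ℝ) : ℂ) := lap_re hΩ (sw n) hz
    simp only [Pool.Agent.TH294.RS.hL]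
    rw [e1]
    have e2 := ew n z hz
    have e3 : ((h n ^ 2 * lapl (w n) z : ℝ) : ℂ) = ((-(ρ z * w n z) : ℝ) : ℂ) := by rw [e2]
    push_cast at e3
    simp only [cx]
    push_cast
    rw [e3]; ring
  have q1 := mk_rd hΩ sw MKw
  have sm1 : ∀ v n, ContDiffOn ℝ ∞ (rd h v w n) Ω := fun v n => rd_sm hΩ sw v n
  have q2 := mk_rd hΩ (sm1 1) q1.1
  have q3 := mk_rd hΩ (sm1 I) q1.2
  obtain ⟨A1, A10, b1⟩ := lb_re MKw.lb hSc hSB
  obtain ⟨A2, A20, b2⟩ := lb_re q1.1.lb hSc hSB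
  obtain ⟨A3, A30, b3⟩ := lb_re q1.2.lb hSc hSB
  obtain ⟨A4, A40, b4⟩ := lb_re q2.1.lb hSc hSB
  obtain ⟨A5, A50, b5⟩ := lb_re q3.2.lb hSc hSB
  obtain ⟨A6, A60, b6⟩ := lb_re q2.2.lb hSc hSB
  have fin : ∀ᶠ n in atTop, Sol Ω (h n) ρ (w n) ∧
      ∫ z in S, e2 (h n) (w n) z ≤ A1 + A2 + A3 + A4 + A5 + A6 := by
    filter_upwards [b1, b2, b3, b4, b5, b6] with n b1 b2 b3 b4 b5 b6
    refine ⟨⟨hp n, sw n, fun z hz => ?_⟩, ?_⟩
    · have e1 := rdd hΩ (h := h) sw 1 n hz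
      have e2 := rdd hΩ (h := h) sw I n hz
      have e3 := ew n z hz
      have e4 : d (h n) 1 (d (h n) 1 (w n)) z + d (h n) I (d (h n) I (w n)) z =
        h n ^ 2 * lapl (w n) z := by
        show rd h 1 (rd h 1 w) n z + rd h I (rd h I w) n z = _
        rw [e1, e2]; unfold lapl; ring
      rw [e4, e3]
    · have c0 : ∀ {F : ℂ → ℝ}, ContDiffOn ℝ ∞ F Ω → IntegrableOn (fun z => F z ^ 2) S volume :=
        fun hF => ((hF.continuousOn.mono hSB).pow 2).integrableOn_compact hSc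
      have i1 := c0 (sw n)
      have i2 := c0 (sm1 1 n)
      have i3 := c0 (sm1 I n)
      have i4 := c0 (rd_sm (h := h) hΩ (sm1 1) 1 n)
      have i5 := c0 (rd_sm (h := h) hΩ (sm1 I) I n)
      have i6 := c0 (rd_sm (h := h) hΩ (sm1 1) I n)
      have j2 : IntegrableOn (fun z => w n z ^ 2 + rd h 1 w n z ^ 2) S volume := i1.add i2
      have j3 : IntegrableOn (fun z => w n z ^ 2 + rd h 1 w n z ^ 2 + rd h I w n z ^ 2) S
        volume := j2.add i3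
      have j4 : IntegrableOn (fun z => w n z ^ 2 + rd h 1 w n z ^ 2 + rd h I w n z ^ 2 +
        rd h 1 (rd h 1 w) n z ^ 2) S volume := j3.add i4
      have j5 : IntegrableOn (fun z => w n z ^ 2 + rd h 1 w n z ^ 2 + rd h I w n z ^ 2 +
        rd h 1 (rd h 1 w) n z ^ 2 + rd h I (rd h I w) n z ^ 2) S volume := j4.add i5
      have e : ∫ z in S, e2 (h n) (w n) z = ∫ z in S, (w n z ^ 2 + rd h 1 w n z ^ 2 +
        rd h I w n z ^ 2 + rd h 1 (rd h 1 w) n z ^ 2 + rd h I (rd h I w) n z ^ 2 +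
        rd h I (rd h 1 w) n z ^ 2) := rfl
      rw [e, integral_add j5 i6, integral_add j4 i5, integral_add j3 i4, integral_add j2 i3,
        integral_add i1 i2]
      linarith
  refine ⟨fun n => h (n - N0), A1 + A2 + A3 + A4 + A5 + A6, by positivity, ?_, ?_⟩
  · exact h0.comp (tendsto_sub_atTop_nat N0)
  · rw [← Filter.map_add_atTop_eq_nat N0, eventually_map]
    refine fin.mono fun n hn => ?_
    beta_reduce
    rw [Nat.add_sub_cancel]
    rw [hw] at hn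
    exact hn

lemma arith {a G J C m h K ε m' Q' : ℝ} (J0 : 0 < J) (C0 : 0 < C) (m0 : 0 < m) (K0 : 0 ≤ K)
    (h0 : 0 < h) (ε0 : 0 < ε) (ha : ε * J ≤ a) (h1 : m' + h * K * Q' ≤ 2 * m)
    (h2 : 32 * h * K * C * m ≤ ε ^ 2)
    (hL : ∀ r : ℝ, 0 < r → a ≤ 8 * r ^ 2 * G + J * C / r * (m' + h * K * Q') + h * J * r * K) :
    a ^ 3 ≤ 1024 * C ^ 2 * m ^ 2 * J ^ 2 * G := by
  have a0 : 0 < a := lt_of_lt_of_le (by positivity) ha
  have r0 : 0 < 8 * C * m * J / a := by positivity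
  have := hL _ r0
  have t1 : J * C / (8 * C * m * J / a) * (m' + h * K * Q') ≤ a / 4 := by
    have e : J * C / (8 * C * m * J / a) = a / (8 * m) := by field_simp
    rw [e]
    have : a / (8 * m) * (m' + h * K * Q') ≤ a / (8 * m) * (2 * m) :=
      mul_le_mul_of_nonneg_left h1 (by positivity)
    have e2 : a / (8 * m) * (2 * m) = a / 4 := by field_simp; ring
    linarith
  have t2 : h * J * (8 * C * m * J / a) * K ≤ a / 4 := by
    have e : h * J * (8 * C * m * J / a) * K = (32 * h * K * C * m) * J ^ 2 / (4 * a) := by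
      field_simp; ring
    rw [e, div_le_iff₀ (by positivity)]
    have e1 : (32 * h * K * C * m) * J ^ 2 ≤ ε ^ 2 * J ^ 2 :=
      mul_le_mul_of_nonneg_right h2 (by positivity)
    have e2 : (ε * J) ^ 2 ≤ a ^ 2 := pow_le_pow_left₀ (by positivity) ha 2
    nlinarith
  have t3 : a / 2 ≤ 8 * (8 * C * m * J / a) ^ 2 * G := by linarith
  have e3 : 8 * (8 * C * m * J / a) ^ 2 * G = 512 * C ^ 2 * m ^ 2 * J ^ 2 * G / a ^ 2 := by
    field_simp; ring
  rw [e3, le_div_iff₀ (by positivity)] at t3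
  nlinarith

/-- **The cubic inequality along a sequence.** -/
theorem S1 {Ω : Set ℂ} {ρ : ℂ → ℝ} {lam : ℕ → ℝ} {u : ℕ → ℂ → ℝ} (H : Hyp Ω ρ lam u)
    {φ : ℂ → ℝ} (hφ : Test Ω φ) {m : ℝ} (m0 : 0 < m)
    (hm : ∀ᶠ n in atTop, ∫ z, φ z * (ρ z * u n z ^ 2) ≤ m)
    {k : ℝ → ℝ} {C : ℝ} (C0 : 0 < C)
    (sk : ContDiff ℝ ∞ k) (k4 : ∀ t, t * k t ≤ 4) (k2 : ∀ t, |k t| ≤ 2)
    (k1 : ∀ t, |1 - deriv k t| ≤ C * |t|) (k3 : ∀ t, |k t - t * deriv k t| ≤ C)
    {ε : ℝ} (ε0 : 0 < ε) :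
    ∀ᶠ n in atTop, ∀ (g : ℝ → ℝ) (J : ℝ), ContDiff ℝ ∞ g → (∀ x, 0 ≤ g x) →
      (∀ x, 0 ≤ Pr g x) → (∀ x, Pr g x ≤ J) → 0 < J →
      ε * J ≤ ∫ z, φ z * (ρ z * (Pr g (u n z) * u n z)) →
      (∫ z, φ z * (ρ z * (Pr g (u n z) * u n z))) ^ 3 ≤
        1024 * C ^ 2 * m ^ 2 * J ^ 2 * ∫ z, φ z * (ρ z * g (u n z)) := by
  have tf : TF Ω φ := ⟨hφ.1, hφ.2.1, hφ.2.2.1⟩
  obtain ⟨K, K0, hK⟩ := L3 H.oΩ tf hφ.2.2.2 H.sρ H.pρ C0 sk k4 k2 k1 k3
  obtain ⟨h, Q, Q0, h0, ev⟩ := seq_bd H hφ.2.1 hφ.2.2.1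
  have l1 : Tendsto (fun n => h n * (K * Q)) atTop (𝓝 0) := by
    have := h0.mul_const (K * Q); rwa [zero_mul] at this
  have l2 : Tendsto (fun n => h n * (32 * K * C * m)) atTop (𝓝 0) := by
    have := h0.mul_const (32 * K * C * m); rwa [zero_mul] at this
  filter_upwards [ev, hm, l1.eventually (gt_mem_nhds m0),
    l2.eventually (gt_mem_nhds (by positivity : (0 : ℝ) < ε ^ 2))] with n ev hm a1 a2 g J sg g0
    P0 PJ J0 ha
  obtain ⟨sol, eQ⟩ := ev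
  refine arith (m' := ∫ z, φ z * (ρ z * u n z ^ 2)) (Q' := ∫ z in tsupport φ, e2 (h n) (u n) z)
    J0 C0 m0 K0 sol.hp ε0 ha ?_ (by linarith) (fun r r0 => ?_)
  · have := mul_le_mul_of_nonneg_left eQ (mul_nonneg sol.hp.le K0)
    nlinarith
  · exact hK (h n) (u n) sol g J r sg g0 P0 PJ r0

/-- the means tend to zero -/
theorem S2 {Ω : Set ℂ} {ρ : ℂ → ℝ} {lam : ℕ → ℝ} {u : ℕ → ℂ → ℝ} (H : Hyp Ω ρ lam u)
    {φ : ℂ → ℝ} (hφ : Test Ω φ) :
    Tendsto (fun n => ∫ z, φ z * (ρ z * u n z)) atTop (𝓝 0) := by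
  have tf : TF Ω φ := ⟨hφ.1, hφ.2.1, hφ.2.2.1⟩
  obtain ⟨K, K0, hK⟩ := L4 H.oΩ tf H.sρ
  obtain ⟨h, Q, Q0, h0, ev⟩ := seq_bd H hφ.2.1 hφ.2.2.1
  have l1 : Tendsto (fun n => h n * (K * ((∫ z in tsupport φ, (1 : ℝ)) + Q))) atTop (𝓝 0) := by
    have := h0.mul_const (K * ((∫ z in tsupport φ, (1 : ℝ)) + Q)); rwa [zero_mul] at this
  refine squeeze_zero_norm' ?_ l1
  filter_upwards [ev] with n ev
  obtain ⟨sol, eQ⟩ := ev
  rw [Real.norm_eq_abs]
  refine (hK (h n) (u n) sol).trans ?_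
  have := mul_le_mul_of_nonneg_left eQ (mul_nonneg sol.hp.le K0)
  nlinarith

end

end Pool.Agent.Y139.PD
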