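import Pool.Agent.Y139.PD.D

/-!
Project PD (helper139): laws and limit laws.
-/

set_option autoImplicit false
open MeasureTheory Filter Topology Complex
open scoped ContDiff ENNReal

namespace Pool.Agent.Y139.PD

open Pool.Agent.W745.RW Pool.Agent.TH294.RS Pool.Agent.TH294.RG Pool.Agent.TH421.DF
open Pool.Agent.TH421.AC Pool.Agent.Results.MP_a52643_an.AbsoluteContinuity

noncomputable section

/-- primitives of functions supported in `(0, b)` -/
lemma Pr_facts {g : ℝ → ℝ} {b : ℝ} (sg : ContDiff ℝ ∞ g) (g0 : ∀ x, 0 ≤ g x)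
    (tg : tsupport g ⊆ Set.Ioo 0 b) (cg : HasCompactSupport g) :
    (∀ x, 0 ≤ Pr g x) ∧ (∀ x, Pr g x ≤ ∫ t, g t) ∧ (∀ x, x ≤ 0 → Pr g x = 0) ∧
      ∀ x, 0 < b → b ≤ x → Pr g x = ∫ t, g t := by
  have ig : Integrable g := sg.continuous.integrable_of_hasCompactSupport cg
  have z : ∀ x, x ∉ Set.Ioo 0 b → g x = 0 := fun x hx =>
    image_eq_zero_of_notMem_tsupport fun h => hx (tg h)
  have neg : ∀ x, x ≤ 0 → Pr g x = 0 := by
    intro x hx
    unfold Pr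
    rw [intervalIntegral.integral_symm]
    have : ∫ t in x..0, g t = ∫ t in x..0, (0 : ℝ) := by
      refine intervalIntegral.integral_congr fun t ht => ?_
      rw [Set.uIcc_of_le hx] at ht
      exact z t fun h => absurd h.1 (not_lt.2 ht.2)
    rw [this]; simp
  have pos : ∀ x, 0 ≤ x → Pr g x = ∫ t in Set.Ioc 0 x, g t := fun x hx =>
    intervalIntegral.integral_of_le hx
  refine ⟨fun x => ?_, fun x => ?_, neg, fun x hb hx => ?_⟩
  · rcases le_total x 0 with h | h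
    · rw [neg x h]
    · rw [pos x h]; exact integral_nonneg g0
  · rcases le_total x 0 with h | h
    · rw [neg x h]; exact integral_nonneg g0
    · rw [pos x h]; exact setIntegral_le_integral ig (ae_of_all _ g0)
  · rw [pos x (hb.le.trans hx)]
    exact setIntegral_eq_integral_of_forall_compl_eq_zero fun t ht => z t fun h =>
      ht ⟨h.1, (h.2.le).trans hx⟩

/-- from test functions to sets -/
theorem M1 (μ : Measure ℝ) [IsFiniteMeasure μ] {U : Set ℝ} (hU : IsOpen U) {c : ℝ} (c0 : 0 ≤ c)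
    (hg : ∀ g : ℝ → ℝ, ContDiff ℝ ∞ g → HasCompactSupport g → tsupport g ⊆ U → (∀ x, 0 ≤ g x) →
      c * ∫ x, g x ≤ ∫ x, g x ∂μ) (A : Set ℝ) (hA : A ⊆ U) :
    ENNReal.ofReal c * volume A ≤ μ A := by
  have open_case : ∀ V : Set ℝ, IsOpen V → V ⊆ U → ENNReal.ofReal c * volume V ≤ μ V := by
    intro V hV hVU
    rw [hV.measure_eq_iSup_isCompact]
    simp only [ENNReal.mul_iSup]
    refine iSup_le fun K => iSup_le fun hKV => iSup_le fun hK => ?_
    obtain ⟨g, sg, cg, tg, gK, g0, g1⟩ := exists_cutR hV hK hKV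
    have h1 := hg g sg cg (tg.trans hVU) g0
    have ig : Integrable g := sg.continuous.integrable_of_hasCompactSupport cg
    have ig' : Integrable g μ := sg.continuous.integrable_of_hasCompactSupport cg
    have h2 : (volume K).toReal ≤ ∫ x, g x := by
      have e : (volume K).toReal = ∫ x in K, g x := by
        have : ∫ x in K, g x = ∫ x in K, (1 : ℝ) :=
          setIntegral_congr_fun hK.measurableSet fun x hx => gK x hx
        rw [this, setIntegral_const, smul_eq_mul, mul_one]; rfl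
      rw [e]
      exact setIntegral_le_integral ig (ae_of_all _ g0)
    have h3 : ∫ x, g x ∂μ ≤ (μ V).toReal := by
      have e1 : ∫ x, g x ∂μ = ∫ x in V, g x ∂μ :=
        (setIntegral_eq_integral_of_forall_compl_eq_zero fun x hx =>
          image_eq_zero_of_notMem_tsupport fun h => hx (tg h)).symm
      rw [e1]
      have e2 : ∫ x in V, g x ∂μ ≤ ∫ x in V, (1 : ℝ) ∂μ :=
        setIntegral_mono_on ig'.integrableOn (integrableOn_const (measure_ne_top μ V))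
          hV.measurableSet fun x _ => g1 x
      refine e2.trans (le_of_eq ?_)
      rw [setIntegral_const, smul_eq_mul, mul_one]; rfl
    have h4 : c * (volume K).toReal ≤ (μ V).toReal :=
      (mul_le_mul_of_nonneg_left h2 c0).trans (h1.trans h3)
    have h5 := ENNReal.ofReal_le_ofReal h4
    rw [ENNReal.ofReal_mul c0, ENNReal.ofReal_toReal hK.measure_lt_top.ne,
      ENNReal.ofReal_toReal (measure_ne_top μ V)] at h5
    exact h5
  rw [A.measure_eq_iInf_isOpen μ]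
  refine le_iInf fun V => le_iInf fun hAV => le_iInf fun hV => ?_
  have h1 := open_case (V ∩ U) (hV.inter hU) Set.inter_subset_right
  refine le_trans ?_ (h1.trans (measure_mono Set.inter_subset_left))
  exact mul_le_mul_right (measure_mono (Set.subset_inter hAV hA)) _

/-- the law of `f` under the measure `φ ρ dz` on `Ω` -/
def law (Ω : Set ℂ) (φ ρ f : ℂ → ℝ) (A : Set ℝ) : ℝ :=
  ∫ z in {z | z ∈ Ω ∧ f z ∈ A}, φ z * ρ z

/-- the same as a measure -/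
def mu (Ω : Set ℂ) (φ ρ f : ℂ → ℝ) : Measure ℝ :=
  ((volume.restrict Ω).withDensity (fun z => ENNReal.ofReal (φ z * ρ z))).map f

section law

variable {Ω : Set ℂ} {φ ρ f : ℂ → ℝ}

lemma q_int (hφ : Test Ω φ) (hρ : ContDiffOn ℝ ∞ ρ Ω) : Integrable (fun z => φ z * ρ z) :=
  rint (S := tsupport φ) hφ.2.1 (hφ.1.continuous.continuousOn.mul
    (hρ.continuousOn.mono hφ.2.2.1)) fun z hz => by
      rw [image_eq_zero_of_notMem_tsupport hz, zero_mul]

lemma meas_pre (hΩ : IsOpen Ω) (hf : ContinuousOn f Ω) {A : Set ℝ} (hA : MeasurableSet A) :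
    MeasurableSet {z | z ∈ Ω ∧ f z ∈ A} := by
  classical
  have h1 : Measurable (Ω.piecewise f (fun _ => 0)) :=
    hf.measurable_piecewise continuousOn_const hΩ.measurableSet
  have h2 : {z | z ∈ Ω ∧ f z ∈ A} = Ω ∩ (Ω.piecewise f (fun _ => 0)) ⁻¹' A := by
    ext z
    constructor
    · rintro ⟨h, h'⟩
      exact ⟨h, by rw [Set.mem_preimage, Set.piecewise_eq_of_mem _ _ _ h]; exact h'⟩
    · rintro ⟨h, h'⟩
      rw [Set.mem_preimage, Set.piecewise_eq_of_mem _ _ _ h] at h'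
      exact ⟨h, h'⟩
  rw [h2]
  exact hΩ.measurableSet.inter (h1 hA)

lemma mu_ae (hΩ : IsOpen Ω) (hf : ContinuousOn f Ω) :
    AEMeasurable f ((volume.restrict Ω).withDensity (fun z => ENNReal.ofReal (φ z * ρ z))) :=
  (hf.aemeasurable hΩ.measurableSet).mono_ac (withDensity_absolutelyContinuous _ _)

lemma qn (hφ : Test Ω φ) (ρ0 : ∀ z ∈ Ω, 0 < ρ z) (z : ℂ) (hz : z ∈ Ω) : 0 ≤ φ z * ρ z :=
  mul_nonneg (hφ.2.2.2 z) (ρ0 z hz).le

lemma mu_law (hΩ : IsOpen Ω) (hf : ContinuousOn f Ω) (hφ : Test Ω φ) (hρ : ContDiffOn ℝ ∞ ρ Ω)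
    (ρ0 : ∀ z ∈ Ω, 0 < ρ z) {A : Set ℝ} (hA : MeasurableSet A) :
    mu Ω φ ρ f A = ENNReal.ofReal (law Ω φ ρ f A) := by
  unfold mu law
  rw [Measure.map_apply_of_aemeasurable (mu_ae hΩ hf) hA, withDensity_apply',
    Measure.restrict_restrict' hΩ.measurableSet,
    ofReal_integral_eq_lintegral_ofReal (q_int hφ hρ).integrableOn]
  · have : f ⁻¹' A ∩ Ω = {z | z ∈ Ω ∧ f z ∈ A} := by
      ext z; constructor
      · rintro ⟨h, h'⟩; exact ⟨h', h⟩
      · rintro ⟨h, h'⟩; exact ⟨h', h⟩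
    rw [this]
  · refine (ae_restrict_iff' (meas_pre hΩ hf hA)).2 (ae_of_all _ fun z hz => qn hφ ρ0 z hz.1)

lemma law_nonneg (hΩ : IsOpen Ω) (hf : ContinuousOn f Ω) (hφ : Test Ω φ)
    (ρ0 : ∀ z ∈ Ω, 0 < ρ z) {A : Set ℝ} (hA : MeasurableSet A) : 0 ≤ law Ω φ ρ f A :=
  setIntegral_nonneg (meas_pre hΩ hf hA) fun z hz => qn hφ ρ0 z hz.1

lemma mu_fin (hΩ : IsOpen Ω) (hf : ContinuousOn f Ω) (hφ : Test Ω φ) (hρ : ContDiffOn ℝ ∞ ρ Ω)
    (ρ0 : ∀ z ∈ Ω, 0 < ρ z) : IsFiniteMeasure (mu Ω φ ρ f) := by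
  refine ⟨?_⟩
  rw [mu_law hΩ hf hφ hρ ρ0 MeasurableSet.univ]
  exact ENNReal.ofReal_lt_top

lemma mu_int (hΩ : IsOpen Ω) (hf : ContinuousOn f Ω) (hφ : Test Ω φ) (hρ : ContDiffOn ℝ ∞ ρ Ω)
    (ρ0 : ∀ z ∈ Ω, 0 < ρ z) {g : ℝ → ℝ} (hg : Continuous g) :
    ∫ x, g x ∂(mu Ω φ ρ f) = ∫ z, φ z * (ρ z * g (f z)) := by
  unfold mu
  rw [integral_map (mu_ae hΩ hf) hg.aestronglyMeasurable]
  have cq : ContinuousOn (fun z => φ z * ρ z) Ω :=
    hφ.1.continuous.continuousOn.mul hρ.continuousOn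
  rw [integral_withDensity_eq_integral_toReal_smul₀
    ((cq.aemeasurable hΩ.measurableSet).ennreal_ofReal) (ae_of_all _ fun _ => ENNReal.ofReal_lt_top)]
  have e1 : ∫ z, φ z * (ρ z * g (f z)) = ∫ z in Ω, φ z * (ρ z * g (f z)) :=
    (setIntegral_eq_integral_of_forall_compl_eq_zero fun z hz => by
      rw [image_eq_zero_of_notMem_tsupport fun h => hz (hφ.2.2.1 h), zero_mul]).symm
  rw [e1]
  refine setIntegral_congr_fun hΩ.measurableSet fun z hz => ?_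
  show (ENNReal.ofReal (φ z * ρ z)).toReal • g (f z) = φ z * (ρ z * g (f z))
  rw [ENNReal.toReal_ofReal (qn hφ ρ0 z hz), smul_eq_mul]; ring

/-- the lower bound for the left hand side of the cubic inequality -/
lemma low (hΩ : IsOpen Ω) (hf : ContDiffOn ℝ ∞ f Ω) (hφ : Test Ω φ) (hρ : ContDiffOn ℝ ∞ ρ Ω)
    (ρ0 : ∀ z ∈ Ω, 0 < ρ z) {g : ℝ → ℝ} {b : ℝ} (sg : ContDiff ℝ ∞ g) (g0 : ∀ x, 0 ≤ g x)
    (tg : tsupport g ⊆ Set.Ioo 0 b) (cg : HasCompactSupport g) (b0 : 0 < b) :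
    (∫ x, g x) * (b * law Ω φ ρ f (Set.Ici b)) ≤ ∫ z, φ z * (ρ z * (Pr g (f z) * f z)) := by
  obtain ⟨P0, P1, Pn, Pb⟩ := Pr_facts sg g0 tg cg
  have mE := meas_pre hΩ hf.continuousOn (measurableSet_Ici (a := b))
  have iq := (q_int hφ hρ).integrableOn (s := {z | z ∈ Ω ∧ f z ∈ Set.Ici b})
  have ia : Integrable (fun z => φ z * (ρ z * (Pr g (f z) * f z))) :=
    rint (S := tsupport φ) hφ.2.1 (hφ.1.continuous.continuousOn.mul
      ((hρ.continuousOn.mono hφ.2.2.1).mul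
        ((((Pr_sm sg).comp_contDiffOn hf).continuousOn.mono hφ.2.2.1).mul
          (hf.continuousOn.mono hφ.2.2.1)))) fun z hz => by
      rw [image_eq_zero_of_notMem_tsupport hz, zero_mul]
  have e1 : (∫ x, g x) * (b * law Ω φ ρ f (Set.Ici b)) =
      ∫ z in {z | z ∈ Ω ∧ f z ∈ Set.Ici b}, ((∫ x, g x) * b) * (φ z * ρ z) := by
    rw [integral_const_mul]; unfold law; ring
  rw [e1]
  have h1 : ∫ z in {z | z ∈ Ω ∧ f z ∈ Set.Ici b}, ((∫ x, g x) * b) * (φ z * ρ z) ≤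
      ∫ z in {z | z ∈ Ω ∧ f z ∈ Set.Ici b}, φ z * (ρ z * (Pr g (f z) * f z)) := by
    refine setIntegral_mono_on (iq.const_mul _) ia.integrableOn mE fun z hz => ?_
    rw [Pb (f z) b0 hz.2]
    have q := qn hφ ρ0 z hz.1
    have J0 : 0 ≤ ∫ x, g x := integral_nonneg g0
    have : (∫ x, g x) * b ≤ (∫ x, g x) * f z := mul_le_mul_of_nonneg_left hz.2 J0
    nlinarith [mul_le_mul_of_nonneg_right this q]
  refine h1.trans (setIntegral_le_integral ia (ae_of_all _ fun z => ?_))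
  show 0 ≤ φ z * (ρ z * (Pr g (f z) * f z))
  by_cases hz : z ∈ Ω
  · have : 0 ≤ Pr g (f z) * f z := by
      rcases le_total (f z) 0 with h | h
      · rw [Pn _ h, zero_mul]
      · exact mul_nonneg (P0 _) h
    exact mul_nonneg (hφ.2.2.2 z) (mul_nonneg (ρ0 z hz).le this)
  · rw [image_eq_zero_of_notMem_tsupport fun h => hz (hφ.2.2.1 h), zero_mul]

end law

/-- **Part (a), positive side.** -/
theorem halfA {Ω : Set ℂ} {ρ : ℂ → ℝ} {lam : ℕ → ℝ} {u : ℕ → ℂ → ℝ} (H : Hyp Ω ρ lam u)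
    {φ : ℂ → ℝ} (hφ : Test Ω φ) {m : ℝ} (m0 : 0 < m)
    (hm : ∀ᶠ n in atTop, ∫ z, φ z * (ρ z * u n z ^ 2) ≤ m)
    {k : ℝ → ℝ} {C : ℝ} (C0 : 0 < C)
    (sk : ContDiff ℝ ∞ k) (k4 : ∀ t, t * k t ≤ 4) (k2 : ∀ t, |k t| ≤ 2)
    (k1 : ∀ t, |1 - deriv k t| ≤ C * |t|) (k3 : ∀ t, |k t - t * deriv k t| ≤ C)
    {ε : ℝ} (ε0 : 0 < ε) :
    ∀ᶠ n in atTop, ∀ b : ℝ, 0 < b → ε ≤ b * law Ω φ ρ (u n) (Set.Ici b) → ∀ A : Set ℝ,
      MeasurableSet A → A ⊆ Set.Ioo 0 b →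
      (volume A).toReal * (b * law Ω φ ρ (u n) (Set.Ici b)) ^ 3 ≤
        1024 * C ^ 2 * m ^ 2 * law Ω φ ρ (u n) A := by
  filter_upwards [S1 H hφ m0 hm C0 sk k4 k2 k1 k3 ε0] with n hn b b0 hb A mA hA
  have cf := (H.su n).continuousOn
  have := mu_fin H.oΩ cf hφ H.sρ H.pρ
  obtain ⟨x, hx⟩ : ∃ x : ℝ, x = b * law Ω φ ρ (u n) (Set.Ici b) := ⟨_, rfl⟩
  rw [← hx] at hb ⊢
  have x0 : 0 < x := lt_of_lt_of_le ε0 hb
  have D0 : 0 < 1024 * C ^ 2 * m ^ 2 := by positivity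
  have key := M1 (mu Ω φ ρ (u n)) (isOpen_Ioo (a := (0 : ℝ)) (b := b))
    (c := x ^ 3 / (1024 * C ^ 2 * m ^ 2)) (by positivity) (fun g sg cg tg g0 => by
      obtain ⟨P0, P1, Pn, Pb⟩ := Pr_facts sg g0 tg cg
      rw [mu_int H.oΩ cf hφ H.sρ H.pρ sg.continuous]
      obtain ⟨J, hJ⟩ : ∃ J : ℝ, J = ∫ x, g x := ⟨_, rfl⟩
      have J0 : 0 ≤ J := by rw [hJ]; exact integral_nonneg g0
      rw [← hJ]
      rcases J0.eq_or_lt with h | Jp
      · rw [← h, mul_zero]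
        refine integral_nonneg fun z => ?_
        show 0 ≤ φ z * (ρ z * g (u n z))
        by_cases hz : z ∈ Ω
        · exact mul_nonneg (hφ.2.2.2 z) (mul_nonneg (H.pρ z hz).le (g0 _))
        · rw [image_eq_zero_of_notMem_tsupport fun h => hz (hφ.2.2.1 h), zero_mul]
      · have lo := low H.oΩ (H.su n) hφ H.sρ H.pρ sg g0 tg cg b0
        rw [← hJ, ← hx] at lo
        have h1 := hn g J sg g0 P0 (fun x => by rw [hJ]; exact P1 x) Jp
          ((by nlinarith : ε * J ≤ J * x).trans lo)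
        have h2 : (J * x) ^ 3 ≤ (∫ z, φ z * (ρ z * (Pr g (u n z) * u n z))) ^ 3 :=
          pow_le_pow_left₀ (by positivity) lo 3
        have h3 := h2.trans h1
        rw [div_mul_eq_mul_div, div_le_iff₀ D0]
        have e : (J * x) ^ 3 = J ^ 2 * (x ^ 3 * J) := by ring
        rw [e] at h3
        have e' : 1024 * C ^ 2 * m ^ 2 * J ^ 2 * (∫ z, φ z * (ρ z * g (u n z))) =
          J ^ 2 * ((∫ z, φ z * (ρ z * g (u n z))) * (1024 * C ^ 2 * m ^ 2)) := by ring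
        rw [e'] at h3
        exact le_of_mul_le_mul_left h3 (by positivity)) A hA
  rw [mu_law H.oΩ cf hφ H.sρ H.pρ mA] at key
  have vA : volume A ≠ ⊤ := ne_top_of_le_ne_top (by simp) (measure_mono hA)
  have k5 := ENNReal.toReal_mono ENNReal.ofReal_ne_top key
  rw [ENNReal.toReal_mul, ENNReal.toReal_ofReal (by positivity),
    ENNReal.toReal_ofReal (law_nonneg H.oΩ cf hφ H.pρ mA), div_mul_eq_mul_div,
    div_le_iff₀ D0] at k5
  linarith

end

end Pool.Agent.Y139.PD
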