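import Pool.Agent.Y139.PD.E

/-!
Project PD (helper139): limit laws.
-/

set_option autoImplicit false
open MeasureTheory Filter Topology Complex
open scoped ContDiff ENNReal

namespace Pool.Agent.Y139.PD

open Pool.Agent.W745.RW Pool.Agent.TH294.RS Pool.Agent.TH294.RG Pool.Agent.TH421.DF
open Pool.Agent.TH421.AC Pool.Agent.Results.MP_a52643_an.AbsoluteContinuity

noncomputable section

/-- cut-off functions -/
def cut (N : ℕ) (t : ℝ) : ℝ := max 0 (min 1 ((N : ℝ) + 1 - |t|))

lemma cut_co (N : ℕ) : Continuous (cut N) :=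
  continuous_const.max (continuous_const.min (continuous_const.sub continuous_abs))

lemma cut_0 (N : ℕ) (t : ℝ) : 0 ≤ cut N t := le_max_left _ _

lemma cut_1 (N : ℕ) (t : ℝ) : cut N t ≤ 1 := max_le zero_le_one (min_le_left _ _)

lemma cut_e {N : ℕ} {t : ℝ} (h : |t| ≤ N) : cut N t = 1 := by
  unfold cut
  rw [min_eq_left (by linarith), max_eq_right zero_le_one]

lemma cut_s (N : ℕ) : HasCompactSupport (cut N) :=
  HasCompactSupport.intro (isCompact_closedBall (0 : ℝ) ((N : ℝ) + 1)) fun t ht => by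
    rw [mem_closedBall_zero_iff, Real.norm_eq_abs, not_le] at ht
    unfold cut
    rw [min_eq_right (by linarith), max_eq_left (by linarith)]

/-- the approximate function of the limit law -/
lemma lim' {φ ρ : ℂ → ℝ} {u : ℕ → ℂ → ℝ} {σ : ℕ → ℕ} {ν : Measure ℝ}
    (hg : ∀ g : ℝ → ℝ, Continuous g → HasCompactSupport g →
      Tendsto (fun n => ∫ z, φ z * (g (u (σ n) z) * ρ z)) atTop (𝓝 (∫ x, g x ∂ν)))
    {g : ℝ → ℝ} (cg : Continuous g) (sg : HasCompactSupport g) :
    Tendsto (fun n => ∫ z, φ z * (ρ z * g (u (σ n) z))) atTop (𝓝 (∫ x, g x ∂ν)) := by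
  refine (hg g cg sg).congr fun n => ?_
  congr 1; funext z; ring

section

variable {Ω : Set ℂ} {ρ : ℂ → ℝ} {lam : ℕ → ℝ} {u : ℕ → ℂ → ℝ} {φ : ℂ → ℝ}

lemma int_co (H : Hyp Ω ρ lam u) (hφ : Test Ω φ) {g : ℝ → ℝ} (cg : Continuous g) (n : ℕ) :
    Integrable (fun z => φ z * (ρ z * g (u n z))) :=
  rint (S := tsupport φ) hφ.2.1 (hφ.1.continuous.continuousOn.mul
    ((H.sρ.continuousOn.mono hφ.2.2.1).mul
      (cg.comp_continuousOn ((H.su n).continuousOn.mono hφ.2.2.1)))) fun z hz => by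
    rw [image_eq_zero_of_notMem_tsupport hz, zero_mul]

lemma mono_co (H : Hyp Ω ρ lam u) (hφ : Test Ω φ) {g f : ℝ → ℝ} (cg : Continuous g)
    (cf : Continuous f) (h : ∀ x, g x ≤ f x) (n : ℕ) :
    ∫ z, φ z * (ρ z * g (u n z)) ≤ ∫ z, φ z * (ρ z * f (u n z)) := by
  refine integral_mono (int_co H hφ cg n) (int_co H hφ cf n) fun z => ?_
  show φ z * (ρ z * g (u n z)) ≤ φ z * (ρ z * f (u n z))
  by_cases hz : z ∈ Ω
  · exact mul_le_mul_of_nonneg_left (mul_le_mul_of_nonneg_left (h _) (H.pρ z hz).le)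
      (hφ.2.2.2 z)
  · rw [image_eq_zero_of_notMem_tsupport fun h => hz (hφ.2.2.1 h), zero_mul, zero_mul]

/-- **Part (b), positive side.** -/
theorem halfB (H : Hyp Ω ρ lam u) (hφ : Test Ω φ) {m : ℝ} (m0 : 0 < m)
    (hm : ∀ᶠ n in atTop, ∫ z, φ z * (ρ z * u n z ^ 2) ≤ m)
    {k : ℝ → ℝ} {C : ℝ} (C0 : 0 < C)
    (sk : ContDiff ℝ ∞ k) (k4 : ∀ t, t * k t ≤ 4) (k2 : ∀ t, |k t| ≤ 2)
    (k1 : ∀ t, |1 - deriv k t| ≤ C * |t|) (k3 : ∀ t, |k t - t * deriv k t| ≤ C)
    (ν : Measure ℝ) [IsFiniteMeasure ν] (hν : IsLimitLaw φ ρ u ν) {b : ℝ} (b0 : 0 < b)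
    (A : Set ℝ) (hA : A ⊆ Set.Ioo 0 b) :
    (volume A).toReal * (b * (ν (Set.Ici b)).toReal) ^ 3 ≤
      1024 * C ^ 2 * m ^ 2 * (ν A).toReal := by
  obtain ⟨σ, hσ, hg⟩ := hν
  have D0 : 0 < 1024 * C ^ 2 * m ^ 2 := by positivity
  obtain ⟨D, hD⟩ : ∃ D : ℝ, D = 1024 * C ^ 2 * m ^ 2 := ⟨_, rfl⟩
  rw [← hD] at D0 ⊢
  obtain ⟨y, hy⟩ : ∃ y : ℝ, y = b * (ν (Set.Ici b)).toReal := ⟨_, rfl⟩
  rw [← hy]
  have y0 : 0 ≤ y := by rw [hy]; exact mul_nonneg b0.le ENNReal.toReal_nonneg
  have key := M1 ν (isOpen_Ioo (a := (0 : ℝ)) (b := b)) (c := y ^ 3 / D) (by positivity)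
    (fun g sg cg tg g0 => by
      obtain ⟨P0, P1, Pn, Pb⟩ := Pr_facts sg g0 tg cg
      obtain ⟨J, hJ⟩ : ∃ J : ℝ, J = ∫ x, g x := ⟨_, rfl⟩
      have J0 : 0 ≤ J := by rw [hJ]; exact integral_nonneg g0
      rw [← hJ]
      rcases J0.eq_or_lt with h | Jp
      · rw [← h, mul_zero]; exact integral_nonneg g0
      have cP : Continuous (Pr g) := (Pr_sm sg).continuous
      have PJ : ∀ x, Pr g x ≤ J := fun x => by rw [hJ]; exact P1 x
      have Px : ∀ x, 0 ≤ Pr g x * x := fun x => by
        rcases le_total x 0 with h | h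
        · rw [Pn _ h, zero_mul]
        · exact mul_nonneg (P0 _) h
      have G0 : 0 ≤ ∫ x, g x ∂ν := integral_nonneg g0
      have step : ∀ N : ℕ, (J * (b * (ν (Set.Icc b N)).toReal)) ^ 3 ≤ D * J ^ 2 * ∫ x, g x ∂ν := by
        intro N
        obtain ⟨F, hF⟩ : ∃ F : ℝ → ℝ, F = fun t => Pr g t * t * cut N t := ⟨_, rfl⟩
        have cF : Continuous F := by rw [hF]; exact (cP.mul continuous_id).mul (cut_co N)
        have sF : HasCompactSupport F := by rw [hF]; exact (cut_s N).mul_left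
        have F0 : ∀ x, 0 ≤ F x := fun x => by rw [hF]; exact mul_nonneg (Px x) (cut_0 N x)
        have F1 : ∀ x, F x ≤ Pr g x * x := fun x => by
          rw [hF]; show Pr g x * x * cut N x ≤ Pr g x * x
          have := mul_le_mul_of_nonneg_left (cut_1 N x) (Px x)
          linarith
        have lF := lim' hg cF sF
        have lg := lim' hg sg.continuous cg
        have a0 : 0 ≤ ∫ x, F x ∂ν := integral_nonneg F0
        have lowN : J * (b * (ν (Set.Icc b N)).toReal) ≤ ∫ x, F x ∂ν := by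
          have iF : Integrable F ν := cF.integrable_of_hasCompactSupport sF
          have e1 : ∫ _ in Set.Icc b (N : ℝ), (J * b) ∂ν = J * (b * (ν (Set.Icc b N)).toReal) := by
            rw [setIntegral_const, smul_eq_mul]
            show (ν (Set.Icc b (N : ℝ))).toReal * (J * b) = _
            ring
          rw [← e1]
          refine le_trans (setIntegral_mono_on (integrableOn_const (measure_ne_top ν _))
            iF.integrableOn measurableSet_Icc fun x hx => ?_)
            (setIntegral_le_integral iF (ae_of_all _ F0))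
          rw [hF]
          show J * b ≤ Pr g x * x * cut N x
          have xb : b ≤ x := hx.1
          have ax : |x| ≤ N := by rw [abs_of_pos (b0.trans_le xb)]; exact hx.2
          rw [cut_e ax, mul_one, Pb x b0 xb, ← hJ]
          exact mul_le_mul_of_nonneg_left xb J0
        rcases a0.eq_or_lt with h | ap
        · have : J * (b * (ν (Set.Icc b N)).toReal) ≤ 0 := by rw [h]; exact lowN
          have h2 : 0 ≤ J * (b * (ν (Set.Icc b N)).toReal) :=
            mul_nonneg J0 (mul_nonneg b0.le ENNReal.toReal_nonneg)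
          have h3 : J * (b * (ν (Set.Icc b N)).toReal) = 0 := le_antisymm this h2
          rw [h3]
          have : 0 ≤ D * J ^ 2 * ∫ x, g x ∂ν := by positivity
          simpa using this
        · have hε : 0 < (∫ x, F x ∂ν) / (2 * J) := by positivity
          have ev1 := hσ.tendsto_atTop.eventually (S1 H hφ m0 hm C0 sk k4 k2 k1 k3 hε)
          have ev2 := lF.eventually (lt_mem_nhds (by linarith : (∫ x, F x ∂ν) / 2 < ∫ x, F x ∂ν))
          have ev : ∀ᶠ n in atTop, (∫ z, φ z * (ρ z * F (u (σ n) z))) ^ 3 ≤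
              D * J ^ 2 * ∫ z, φ z * (ρ z * g (u (σ n) z)) := by
            filter_upwards [ev1, ev2] with n e1 e2
            have c1 := mono_co H hφ cF (cP.mul continuous_id) F1 (σ n)
            have e3 := e1 g J sg g0 P0 PJ Jp (by
              refine le_trans ?_ (e2.le.trans c1)
              exact le_of_eq (by field_simp))
            rw [hD]
            refine le_trans (pow_le_pow_left₀ ?_ c1 3) e3
            exact le_trans (by positivity) e2.le
          have l3 := le_of_tendsto_of_tendsto (lF.pow 3) (lg.const_mul (D * J ^ 2)) ev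
          exact (pow_le_pow_left₀ (mul_nonneg J0 (mul_nonneg b0.le ENNReal.toReal_nonneg))
            lowN 3).trans l3
      have step2 : (J * y) ^ 3 ≤ D * J ^ 2 * ∫ x, g x ∂ν := by
        have mon : Monotone (fun N : ℕ => Set.Icc b (N : ℝ)) := fun N M h =>
          Set.Icc_subset_Icc_right (by exact_mod_cast h)
        have un : ⋃ N : ℕ, Set.Icc b (N : ℝ) = Set.Ici b := by
          ext x; simp only [Set.mem_iUnion, Set.mem_Icc, Set.mem_Ici]
          constructor
          · rintro ⟨N, h, _⟩; exact h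
          · intro h
            obtain ⟨N, hN⟩ := exists_nat_ge x
            exact ⟨N, h, hN⟩
        have t1 := tendsto_measure_iUnion_atTop (μ := ν) mon
        rw [un] at t1
        have t2 := (ENNReal.tendsto_toReal (measure_ne_top ν (Set.Ici b))).comp t1
        have t3 := ((t2.const_mul b).const_mul J).pow 3
        rw [hy]
        exact le_of_tendsto' t3 fun N => step N
      rw [div_mul_eq_mul_div, div_le_iff₀ D0]
      have e : (J * y) ^ 3 = J ^ 2 * (y ^ 3 * J) := by ring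
      rw [e] at step2
      have e' : D * J ^ 2 * (∫ x, g x ∂ν) = J ^ 2 * ((∫ x, g x ∂ν) * D) := by ring
      rw [e'] at step2
      exact le_of_mul_le_mul_left step2 (by positivity)) A hA
  have k5 := ENNReal.toReal_mono (measure_ne_top ν A) key
  rw [ENNReal.toReal_mul, ENNReal.toReal_ofReal (by positivity), div_mul_eq_mul_div,
    div_le_iff₀ D0] at k5
  linarith

/-- limit laws have mean zero -/
theorem mean (H : Hyp Ω ρ lam u) (hφ : Test Ω φ) {m : ℝ} (m0 : 0 < m)
    (hm : ∀ᶠ n in atTop, ∫ z, φ z * (ρ z * u n z ^ 2) ≤ m)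
    (ν : Measure ℝ) [IsFiniteMeasure ν] (hν : IsLimitLaw φ ρ u ν) :
    Integrable (fun x => x) ν ∧ ∫ x, x ∂ν = 0 := by
  obtain ⟨σ, hσ, hg⟩ := hν
  have hm' := hσ.tendsto_atTop.eventually hm
  have c2 : ∀ N : ℕ, Continuous (fun x : ℝ => x ^ 2 * cut N x) := fun N =>
    (continuous_pow 2).mul (cut_co N)
  have s2 : ∀ N : ℕ, HasCompactSupport (fun x : ℝ => x ^ 2 * cut N x) := fun N =>
    (cut_s N).mul_left
  have c1 : ∀ N : ℕ, Continuous (fun x : ℝ => x * cut N x) := fun N =>
    continuous_id.mul (cut_co N)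
  have s1 : ∀ N : ℕ, HasCompactSupport (fun x : ℝ => x * cut N x) := fun N =>
    (cut_s N).mul_left
  have b2 : ∀ N : ℕ, ∫ x, x ^ 2 * cut N x ∂ν ≤ m := by
    intro N
    refine le_of_tendsto (lim' hg (c2 N) (s2 N)) (hm'.mono fun n hn => ?_)
    refine le_trans (mono_co H hφ (c2 N) (continuous_pow 2) (fun x => ?_) (σ n)) hn
    have := mul_le_mul_of_nonneg_left (cut_1 N x) (sq_nonneg x)
    linarith
  have ptl : ∀ x : ℝ, ∀ᶠ N : ℕ in atTop, cut N x = 1 := fun x => by
    obtain ⟨N, hN⟩ := exists_nat_ge |x|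
    filter_upwards [eventually_ge_atTop N] with M hM
    exact cut_e (hN.trans (by exact_mod_cast hM))
  have fat : ∫⁻ x, ENNReal.ofReal (x ^ 2) ∂ν ≤ ENNReal.ofReal m := by
    have e1 : ∀ x : ℝ, ENNReal.ofReal (x ^ 2) =
        liminf (fun N : ℕ => ENNReal.ofReal (x ^ 2 * cut N x)) atTop := fun x => by
      have : Tendsto (fun N : ℕ => ENNReal.ofReal (x ^ 2 * cut N x)) atTop
          (𝓝 (ENNReal.ofReal (x ^ 2))) :=
        tendsto_const_nhds.congr' ((ptl x).mono fun N hN => by
          show ENNReal.ofReal (x ^ 2) = ENNReal.ofReal (x ^ 2 * cut N x)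
          rw [hN, mul_one])
      exact this.liminf_eq.symm
    have e2 : ∫⁻ x, ENNReal.ofReal (x ^ 2) ∂ν =
        ∫⁻ x, liminf (fun N : ℕ => ENNReal.ofReal (x ^ 2 * cut N x)) atTop ∂ν :=
      lintegral_congr e1
    rw [e2]
    refine (lintegral_liminf_le fun N => (c2 N).measurable.ennreal_ofReal).trans ?_
    have e3 : ∀ N : ℕ, ∫⁻ x, ENNReal.ofReal (x ^ 2 * cut N x) ∂ν ≤ ENNReal.ofReal m := by
      intro N
      rw [← ofReal_integral_eq_lintegral_ofReal ((c2 N).integrable_of_hasCompactSupport (s2 N))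
        (ae_of_all _ fun x => mul_nonneg (sq_nonneg x) (cut_0 N x))]
      exact ENNReal.ofReal_le_ofReal (b2 N)
    exact (liminf_le_liminf (Eventually.of_forall e3)).trans (liminf_const _).le
  have i2 : Integrable (fun x : ℝ => x ^ 2) ν := by
    refine ⟨(continuous_pow 2).aestronglyMeasurable, ?_⟩
    rw [hasFiniteIntegral_iff_ofReal (ae_of_all _ fun x => sq_nonneg x)]
    exact lt_of_le_of_lt fat ENNReal.ofReal_lt_top
  have i1 : Integrable (fun x : ℝ => x) ν := by
    refine Integrable.mono' ((integrable_const (1 : ℝ)).add i2)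
      continuous_id.aestronglyMeasurable (ae_of_all _ fun x => ?_)
    show ‖x‖ ≤ 1 + x ^ 2
    rw [Real.norm_eq_abs, ← sq_abs x]
    nlinarith [sq_nonneg (|x| - 1), abs_nonneg x]
  refine ⟨i1, ?_⟩
  have l1 : Tendsto (fun N : ℕ => ∫ x, x * cut N x ∂ν) atTop (𝓝 (∫ x, x ∂ν)) := by
    refine tendsto_integral_of_dominated_convergence (fun x => |x|)
      (fun N => (c1 N).aestronglyMeasurable) i1.abs (fun N => ae_of_all _ fun x => ?_)
      (ae_of_all _ fun x => ?_)
    · rw [Real.norm_eq_abs, abs_mul, abs_of_nonneg (cut_0 N x)]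
      have := mul_le_mul_of_nonneg_left (cut_1 N x) (abs_nonneg x)
      linarith
    · exact tendsto_const_nhds.congr' ((ptl x).mono fun N hN => by
        show x = x * cut N x
        rw [hN, mul_one])
  have l2 : ∀ N : ℕ, |∫ x, x * cut (N + 1) x ∂ν| ≤ m / ((N : ℝ) + 1) := by
    intro N
    have t1 := (lim' hg (c1 (N + 1)) (s1 (N + 1))).abs
    have t2 := ((S2 H hφ).comp hσ.tendsto_atTop).abs
    rw [abs_zero] at t2
    have t3 := t2.add_const (m / ((N : ℝ) + 1))
    rw [zero_add] at t3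
    refine le_of_tendsto_of_tendsto t1 t3 (hm'.mono fun n hn => ?_)
    show |∫ z, φ z * (ρ z * (u (σ n) z * cut (N + 1) (u (σ n) z)))| ≤
      |∫ z, φ z * (ρ z * u (σ n) z)| + m / ((N : ℝ) + 1)
    have q0 : (0 : ℝ) < (N : ℝ) + 1 := by positivity
    have pw : ∀ x : ℝ, |x - x * cut (N + 1) x| ≤ x ^ 2 / ((N : ℝ) + 1) := by
      intro x
      by_cases hx : |x| ≤ ((N + 1 : ℕ) : ℝ)
      · rw [cut_e hx, mul_one, sub_self, abs_zero]; positivity
      · have hx' := not_le.1 hx
        push_cast at hx'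
        have e1 : x - x * cut (N + 1) x = x * (1 - cut (N + 1) x) := by ring
        rw [e1, abs_mul, abs_of_nonneg (by linarith [cut_1 (N + 1) x] : 0 ≤ 1 - cut (N + 1) x)]
        have e2 : |x| * (1 - cut (N + 1) x) ≤ |x| := by
          have := mul_nonneg (abs_nonneg x) (cut_0 (N + 1) x)
          linarith
        refine e2.trans ?_
        rw [le_div_iff₀ q0, ← sq_abs x]
        nlinarith [abs_nonneg x]
    have cc : Continuous (fun x : ℝ => x - x * cut (N + 1) x) :=
      continuous_id.sub (c1 (N + 1))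
    have sub : (∫ z, φ z * (ρ z * (u (σ n) z * cut (N + 1) (u (σ n) z)))) =
        (∫ z, φ z * (ρ z * u (σ n) z)) -
        ∫ z, φ z * (ρ z * (u (σ n) z - u (σ n) z * cut (N + 1) (u (σ n) z))) := by
      have j1 := int_co H hφ (g := fun x => x) continuous_id (σ n)
      have j2 := int_co H hφ cc (σ n)
      rw [← integral_sub j1 j2]
      congr 1; funext z; ring
    have cq : Continuous (fun x : ℝ => x ^ 2 / ((N : ℝ) + 1)) := (continuous_pow 2).div_const _
    have up := mono_co H hφ cc cq (fun x => (le_abs_self _).trans (pw x)) (σ n)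
    have dn := mono_co H hφ (g := fun x => -(x - x * cut (N + 1) x)) cc.neg cq
      (fun x => (neg_le_abs _).trans (pw x)) (σ n)
    have eq2 : ∫ z, φ z * (ρ z * (u (σ n) z ^ 2 / ((N : ℝ) + 1))) =
        (∫ z, φ z * (ρ z * u (σ n) z ^ 2)) / ((N : ℝ) + 1) := by
      rw [← integral_div]
      congr 1; funext z; ring
    have eq3 : ∫ z, φ z * (ρ z * -(u (σ n) z - u (σ n) z * cut (N + 1) (u (σ n) z))) =
        -∫ z, φ z * (ρ z * (u (σ n) z - u (σ n) z * cut (N + 1) (u (σ n) z))) := by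
      rw [← integral_neg]
      congr 1; funext z; ring
    rw [eq2] at up dn
    rw [eq3] at dn
    have md := div_le_div_of_nonneg_right hn q0.le
    rw [sub]
    refine (abs_sub _ _).trans ?_
    have : |∫ z, φ z * (ρ z * (u (σ n) z - u (σ n) z * cut (N + 1) (u (σ n) z)))| ≤
        m / ((N : ℝ) + 1) := abs_le.2 ⟨by linarith, by linarith⟩
    linarith
  have l3 : Tendsto (fun N : ℕ => m / ((N : ℝ) + 1)) atTop (𝓝 0) := by
    have := (tendsto_one_div_add_atTop_nhds_zero_nat (𝕜 := ℝ)).const_mul m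
    rw [mul_zero] at this
    refine this.congr fun N => by ring
  have l4 : Tendsto (fun N : ℕ => ∫ x, x * cut (N + 1) x ∂ν) atTop (𝓝 0) :=
    squeeze_zero_norm (fun N => by rw [Real.norm_eq_abs]; exact l2 N) l3
  exact tendsto_nhds_unique (l1.comp (tendsto_add_atTop_nat 1)) l4

end

end

end Pool.Agent.Y139.PD
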