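import Pool.Agent.Y139.PD.F

/-!
Project PD (helper139): the shape of the limit laws.
-/

set_option autoImplicit false
open MeasureTheory Filter Topology Complex
open scoped ContDiff ENNReal

namespace Pool.Agent.Y139.PD

open Pool.Agent.W745.RW Pool.Agent.TH294.RS Pool.Agent.TH294.RG Pool.Agent.TH421.DF
open Pool.Agent.TH421.AC Pool.Agent.Results.MP_a52643_an.AbsoluteContinuity

noncomputable section

lemma Ici_of_Ioi {ν : Measure ℝ} {t : ℝ} (h : 0 < ν (Set.Ioi t)) : ∃ s, t < s ∧ 0 < ν (Set.Ici s) := by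
  by_contra hc
  push Not at hc
  have e : Set.Ioi t = ⋃ k : ℕ, Set.Ici (t + 1 / ((k : ℝ) + 1)) := by
    ext x; simp only [Set.mem_Ioi, Set.mem_iUnion, Set.mem_Ici]
    constructor
    · intro hx
      obtain ⟨k, hk⟩ := exists_nat_one_div_lt (sub_pos.2 hx)
      exact ⟨k, by linarith⟩
    · rintro ⟨k, hk⟩
      have : (0 : ℝ) < 1 / ((k : ℝ) + 1) := by positivity
      linarith
  rw [e] at h
  refine h.ne' (measure_iUnion_null fun k => ?_)
  have := hc (t + 1 / ((k : ℝ) + 1)) (by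
    have : (0 : ℝ) < 1 / ((k : ℝ) + 1) := by positivity
    linarith)
  exact le_antisymm this zero_le

/-- the positive side of the shape -/
lemma sideP {ν : Measure ℝ} [IsFiniteMeasure ν] (ac : ν.restrict {0}ᶜ ≪ volume)
    (h : ∃ s, 0 < s ∧ 0 < ν (Set.Ici s)) :
    ν {t | ¬ ∃ s, t < s ∧ 0 < s ∧ 0 < ν (Set.Ici s)} = 0 := by
  obtain ⟨P, hP⟩ : ∃ P : Set ℝ, P = {t | ¬ ∃ s, t < s ∧ 0 < s ∧ 0 < ν (Set.Ici s)} := ⟨_, rfl⟩
  rw [← hP]
  obtain ⟨s0, s0p, s0n⟩ := h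
  have lb : ∀ t ∈ P, s0 ≤ t := fun t ht => by
    by_contra hc
    rw [hP] at ht
    exact ht ⟨s0, not_le.1 hc, s0p, s0n⟩
  rcases P.eq_empty_or_nonempty with he | hne
  · rw [he]; simp
  have bb : BddBelow P := ⟨s0, lb⟩
  obtain ⟨p, hp⟩ : ∃ p : ℝ, p = sInf P := ⟨_, rfl⟩
  have ps : s0 ≤ p := by rw [hp]; exact le_csInf hne lb
  have sub : P ⊆ {p} ∪ Set.Ioi p := fun t ht => by
    have : p ≤ t := by rw [hp]; exact csInf_le bb ht
    rcases this.eq_or_lt with h | h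
    · exact Or.inl h.symm
    · exact Or.inr h
  have n1 : ν {p} = 0 := by
    have h1 : (ν.restrict {0}ᶜ) {p} = 0 := ac (by simp)
    rw [Measure.restrict_apply (measurableSet_singleton p)] at h1
    have : {p} ∩ ({0}ᶜ : Set ℝ) = {p} := Set.inter_eq_left.2 fun x hx => by
      rw [Set.mem_singleton_iff] at hx
      rw [hx, Set.mem_compl_iff, Set.mem_singleton_iff]
      linarith
    rwa [this] at h1
  have n2 : ν (Set.Ioi p) = 0 := by
    by_contra hc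
    obtain ⟨s, hs, hs'⟩ := Ici_of_Ioi (pos_iff_ne_zero.2 hc)
    rw [hp] at hs
    obtain ⟨t, ht, hts⟩ := exists_lt_of_csInf_lt hne hs
    have hp0 : 0 < s := by
      have := lb t ht
      linarith
    rw [hP] at ht
    exact ht ⟨s, hts, hp0, hs'⟩
  exact measure_mono_null sub (measure_union_null n1 n2)

/-- null sets on the positive side -/
lemma nullP {ν : Measure ℝ} [IsFiniteMeasure ν] {D : ℝ}
    (pos : ∀ b, 0 < b → ∀ A, A ⊆ Set.Ioo 0 b →
      (volume A).toReal * (b * (ν (Set.Ici b)).toReal) ^ 3 ≤ D * (ν A).toReal)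
    {A : Set ℝ} (hA : ν (A ∩ {0}ᶜ) = 0) :
    volume (A ∩ {t | 0 < t ∧ ∃ s, t < s ∧ 0 < s ∧ 0 < ν (Set.Ici s)}) = 0 := by
  have sub : A ∩ {t | 0 < t ∧ ∃ s, t < s ∧ 0 < s ∧ 0 < ν (Set.Ici s)} ⊆
      ⋃ q : {q : ℚ // (0 : ℝ) < q ∧ 0 < ν (Set.Ici (q : ℝ))}, A ∩ Set.Ioo 0 (q.1 : ℝ) := by
    rintro t ⟨hA, ht, s, hts, hs, hs'⟩
    obtain ⟨q, hq1, hq2⟩ := exists_rat_btwn hts
    refine Set.mem_iUnion.2 ⟨⟨q, ht.trans hq1, ?_⟩, hA, ht, hq1⟩
    exact lt_of_lt_of_le hs' (measure_mono (Set.Ici_subset_Ici.2 hq2.le))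
  refine measure_mono_null sub (measure_iUnion_null fun q => ?_)
  obtain ⟨q, q0, q1⟩ := q
  have h1 := pos q q0 (A ∩ Set.Ioo 0 (q : ℝ)) Set.inter_subset_right
  have h2s : A ∩ Set.Ioo 0 (q : ℝ) ⊆ A ∩ {0}ᶜ := by
    intro t ht
    refine ⟨ht.1, ?_⟩
    rw [Set.mem_compl_iff, Set.mem_singleton_iff]
    exact ne_of_gt ht.2.1
  have h2 : ν (A ∩ Set.Ioo 0 (q : ℝ)) = 0 := measure_mono_null h2s hA
  rw [h2, ENNReal.toReal_zero, mul_zero] at h1
  have h3 : 0 < (q : ℝ) * (ν (Set.Ici (q : ℝ))).toReal :=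
    mul_pos q0 (ENNReal.toReal_pos q1.ne' (measure_ne_top ν _))
  have h4 : (volume (A ∩ Set.Ioo 0 (q : ℝ))).toReal = 0 := by
    by_contra hc
    have : 0 < (volume (A ∩ Set.Ioo 0 (q : ℝ))).toReal :=
      lt_of_le_of_ne ENNReal.toReal_nonneg (Ne.symm hc)
    have := mul_pos this (pow_pos h3 3)
    linarith
  have fin : volume (A ∩ Set.Ioo 0 (q : ℝ)) ≠ ⊤ :=
    ne_top_of_le_ne_top (by simp) (measure_mono (Set.inter_subset_right (t := Set.Ioo 0 (q : ℝ))))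
  exact ((ENNReal.toReal_eq_zero_iff _).1 h4).resolve_right fin

/-- the reflection of a measure -/
def refl (ν : Measure ℝ) : Measure ℝ := ν.map (MeasurableEquiv.neg ℝ)

lemma refl_ap (ν : Measure ℝ) (A : Set ℝ) : refl ν A = ν {t | -t ∈ A} :=
  (MeasurableEquiv.neg ℝ).map_apply A

lemma refl_Ici (ν : Measure ℝ) (s : ℝ) : refl ν (Set.Ici s) = ν (Set.Iic (-s)) := by
  rw [refl_ap]; congr 1; ext t; simp only [Set.mem_ofPred_eq, Set.mem_Ici, Set.mem_Iic]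
  constructor <;> intro h <;> linarith

instance (ν : Measure ℝ) [IsFiniteMeasure ν] : IsFiniteMeasure (refl ν) :=
  ⟨by rw [refl_ap]; exact measure_lt_top ν _⟩

lemma vol_neg (A : Set ℝ) : volume {t : ℝ | -t ∈ A} = volume A := by
  have := Measure.measure_neg (volume : Measure ℝ) A
  exact this

lemma refl_ac {ν : Measure ℝ} (ac : ν.restrict {0}ᶜ ≪ volume) :
    (refl ν).restrict {0}ᶜ ≪ volume := by
  refine Measure.AbsolutelyContinuous.mk fun A mA hA => ?_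
  rw [Measure.restrict_apply mA, refl_ap]
  have mA' : MeasurableSet {t : ℝ | -t ∈ A} := measurable_neg mA
  have h1 : (ν.restrict {0}ᶜ) {t | -t ∈ A} = 0 := ac (by rw [vol_neg]; exact hA)
  rw [Measure.restrict_apply mA'] at h1
  have sub : {t : ℝ | -t ∈ A ∩ {0}ᶜ} ⊆ {t : ℝ | -t ∈ A} ∩ {0}ᶜ := by
    intro t ht
    refine ⟨ht.1, ?_⟩
    intro h0
    rw [Set.mem_singleton_iff] at h0
    exact ht.2 (by rw [h0, neg_zero]; rfl)
  exact measure_mono_null sub h1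

/-- the set of values between two values of positive mass -/
def Jset (ν : Measure ℝ) : Set ℝ := {t | (∃ s, t < s ∧ 0 < s ∧ 0 < ν (Set.Ici s)) ∧
  ∃ s, -t < s ∧ 0 < s ∧ 0 < (refl ν) (Set.Ici s)}

/-- **The shape of the limit laws.** -/
theorem shape {ν : Measure ℝ} [IsFiniteMeasure ν] (ac : ν.restrict {0}ᶜ ≪ volume)
    (i1 : Integrable (fun x => x) ν) (i0 : ∫ x, x ∂ν = 0) {D : ℝ}
    (pos : ∀ b, 0 < b → ∀ A, A ⊆ Set.Ioo 0 b →
      (volume A).toReal * (b * (ν (Set.Ici b)).toReal) ^ 3 ≤ D * (ν A).toReal)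
    (neg : ∀ b, 0 < b → ∀ A, A ⊆ Set.Ioo 0 b →
      (volume A).toReal * (b * (refl ν (Set.Ici b)).toReal) ^ 3 ≤ D * (refl ν A).toReal) :
    ν {0}ᶜ = 0 ∨ ∃ J : Set ℝ, IsOpen J ∧ J.OrdConnected ∧ (0 : ℝ) ∈ J ∧
      ν.restrict {0}ᶜ ≪ volume.restrict J ∧ volume.restrict J ≪ ν.restrict {0}ᶜ := by
  by_cases z : ν {0}ᶜ = 0
  · exact Or.inl z
  right
  -- both sides have positive mass
  have hp : 0 < ν (Set.Ioi 0) := by
    by_contra hc
    have h0 : ν (Set.Ioi 0) = 0 := le_antisymm (not_lt.1 hc) zero_le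
    have ae1 : ∀ᵐ x ∂ν, x ≤ 0 := by
      rw [ae_iff]
      have : {a : ℝ | ¬ a ≤ 0} = Set.Ioi 0 := by ext a; simp
      rw [this]; exact h0
    have e1 : ∫ x, -x ∂ν = 0 := by rw [integral_neg, i0, neg_zero]
    have e2 := (integral_eq_zero_iff_of_nonneg_ae (ae1.mono fun x hx => by
      show (0 : ℝ) ≤ -x
      linarith) i1.neg).1 e1
    refine z ?_
    have : ∀ᵐ x ∂ν, x = 0 := e2.mono fun x hx => by
      have : -x = 0 := hx
      linarith
    rw [ae_iff] at this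
    exact this
  have hn : 0 < refl ν (Set.Ioi 0) := by
    by_contra hc
    have h0 : refl ν (Set.Ioi 0) = 0 := le_antisymm (not_lt.1 hc) zero_le
    rw [refl_ap] at h0
    have ae1 : ∀ᵐ x ∂ν, 0 ≤ x := by
      rw [ae_iff]
      have : {a : ℝ | ¬ 0 ≤ a} = {t : ℝ | -t ∈ Set.Ioi (0 : ℝ)} := by ext a; simp
      rw [this]; exact h0
    have e2 := (integral_eq_zero_iff_of_nonneg_ae ae1 i1).1 i0
    refine z ?_
    have : ∀ᵐ x ∂ν, x = 0 := e2.mono fun x hx => hx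
    rw [ae_iff] at this
    exact this
  obtain ⟨sp, sp0, sp1⟩ := Ici_of_Ioi hp
  obtain ⟨sn, sn0, sn1⟩ := Ici_of_Ioi hn
  have oU : IsOpen {t : ℝ | ∃ s, t < s ∧ 0 < s ∧ 0 < ν (Set.Ici s)} := by
    have : {t : ℝ | ∃ s, t < s ∧ 0 < s ∧ 0 < ν (Set.Ici s)} =
        ⋃ s ∈ {s : ℝ | 0 < s ∧ 0 < ν (Set.Ici s)}, Set.Iio s := by
      ext t; simp only [Set.mem_ofPred_eq, Set.mem_iUnion, Set.mem_Iio, exists_prop]
      constructor
      · rintro ⟨s, a, b, c⟩; exact ⟨s, ⟨b, c⟩, a⟩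
      · rintro ⟨s, ⟨b, c⟩, a⟩; exact ⟨s, a, b, c⟩
    rw [this]
    exact isOpen_biUnion fun s _ => isOpen_Iio
  have oL : IsOpen {t : ℝ | ∃ s, -t < s ∧ 0 < s ∧ 0 < (refl ν) (Set.Ici s)} := by
    have : {t : ℝ | ∃ s, -t < s ∧ 0 < s ∧ 0 < (refl ν) (Set.Ici s)} =
        ⋃ s ∈ {s : ℝ | 0 < s ∧ 0 < (refl ν) (Set.Ici s)}, Set.Ioi (-s) := by
      ext t; simp only [Set.mem_ofPred_eq, Set.mem_iUnion, Set.mem_Ioi, exists_prop]
      constructor
      · rintro ⟨s, a, b, c⟩; exact ⟨s, ⟨b, c⟩, by linarith⟩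
      · rintro ⟨s, ⟨b, c⟩, a⟩; exact ⟨s, by linarith, b, c⟩
    rw [this]
    exact isOpen_biUnion fun s _ => isOpen_Ioi
  have oJ : IsOpen (Jset ν) := oU.inter oL
  refine ⟨Jset ν, oJ, ⟨fun a ha b hb t ht => ⟨?_, ?_⟩⟩, ⟨⟨sp, sp0, sp0, sp1⟩,
    ⟨sn, by rw [neg_zero]; exact sn0, sn0, sn1⟩⟩, ?_, ?_⟩
  · obtain ⟨s, h1, h2, h3⟩ := hb.1
    exact ⟨s, lt_of_le_of_lt ht.2 h1, h2, h3⟩
  · obtain ⟨s, h1, h2, h3⟩ := ha.2
    exact ⟨s, lt_of_le_of_lt (neg_le_neg ht.1) h1, h2, h3⟩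
  · refine Measure.AbsolutelyContinuous.mk fun A mA hA => ?_
    rw [Measure.restrict_apply mA] at hA
    have h1 : (ν.restrict {0}ᶜ) (A ∩ Jset ν) = 0 := ac hA
    have h2 : ν (Jset ν)ᶜ = 0 := by
      have n1 := sideP ac ⟨sp, sp0, sp1⟩
      have n2 := sideP (refl_ac ac) ⟨sn, sn0, sn1⟩
      rw [refl_ap] at n2
      refine measure_mono_null (fun t ht => ?_) (measure_union_null n1 n2)
      by_cases hU : ∃ s, t < s ∧ 0 < s ∧ 0 < ν (Set.Ici s)
      · right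
        intro hL
        exact ht ⟨hU, hL⟩
      · exact Or.inl hU
    have h3 : A ⊆ (A ∩ Jset ν) ∪ (Jset ν)ᶜ := fun t ht => by
      by_cases hJ : t ∈ Jset ν
      · exact Or.inl ⟨ht, hJ⟩
      · exact Or.inr hJ
    refine measure_mono_null h3 (measure_union_null h1 ?_)
    exact le_antisymm ((Measure.restrict_apply_le _ _).trans h2.le) zero_le
  · refine Measure.AbsolutelyContinuous.mk fun A mA hA => ?_
    rw [Measure.restrict_apply mA] at hA ⊢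
    have p1 := nullP pos hA
    have hA' : refl ν ({t | -t ∈ A} ∩ {0}ᶜ) = 0 := by
      rw [refl_ap]
      have sub : {t : ℝ | -t ∈ {t | -t ∈ A} ∩ {0}ᶜ} ⊆ A ∩ {0}ᶜ := by
        intro t ht
        refine ⟨?_, ?_⟩
        · have h5 : - -t ∈ A := ht.1
          rwa [neg_neg] at h5
        · intro h0
          rw [Set.mem_singleton_iff] at h0
          exact ht.2 (by rw [h0, neg_zero]; rfl)
      exact measure_mono_null sub hA
    have p2 := nullP neg hA'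
    rw [← vol_neg] at p2
    refine measure_mono_null (t := (A ∩ {t | 0 < t ∧ ∃ s, t < s ∧ 0 < s ∧ 0 < ν (Set.Ici s)}) ∪
      (({t | -t ∈ {t | -t ∈ A} ∩ {t | 0 < t ∧ ∃ s, t < s ∧ 0 < s ∧ 0 < refl ν (Set.Ici s)}}) ∪
      {0})) (fun t ht => ?_)
      (measure_union_null p1 (measure_union_null p2 (by simp)))
    rcases lt_trichotomy t 0 with h | h | h
    · right; left
      refine ⟨?_, by linarith, ht.2.2⟩
      show - -t ∈ A
      rw [neg_neg]; exact ht.1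
    · right; right; exact h
    · left
      exact ⟨ht.1, h, ht.2.1⟩

end

end Pool.Agent.Y139.PD
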