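import Pool.Agent.Y139.PD.G

/-!
Project PD (helper139): passing to weak limits of probability measures.
-/

set_option autoImplicit false
open MeasureTheory Filter Topology Complex
open scoped ContDiff ENNReal BoundedContinuousFunction

namespace Pool.Agent.Y139.PD

noncomputable section

/-- the cubic inequality passes to the limit, compact sets -/
theorem passK {μs : ℕ → ProbabilityMeasure ℝ} {ν : ProbabilityMeasure ℝ}
    (h : Tendsto μs atTop (𝓝 ν)) {D : ℝ}
    (hA : ∀ ε : ℝ, 0 < ε → ∀ᶠ n in atTop, ∀ b : ℝ, 0 < b →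
      ε ≤ b * ((μs n : Measure ℝ) (Set.Ici b)).toReal → ∀ A : Set ℝ, MeasurableSet A →
      A ⊆ Set.Ioo 0 b → (volume A).toReal * (b * ((μs n : Measure ℝ) (Set.Ici b)).toReal) ^ 3 ≤
        D * ((μs n : Measure ℝ) A).toReal) (D0 : 0 ≤ D)
    {b : ℝ} (b0 : 0 < b) {K : Set ℝ} (hK : IsCompact K) (hKb : K ⊆ Set.Ioo 0 b) :
    (volume K).toReal * (b * ((ν : Measure ℝ) (Set.Ici b)).toReal) ^ 3 ≤
      D * ((ν : Measure ℝ) K).toReal := by
  obtain ⟨y, hy⟩ : ∃ y : ℝ, y = ((ν : Measure ℝ) (Set.Ici b)).toReal := ⟨_, rfl⟩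
  obtain ⟨k, hk⟩ : ∃ k : ℝ, k = ((ν : Measure ℝ) K).toReal := ⟨_, rfl⟩
  rw [← hy, ← hk]
  have y0 : 0 ≤ y := by rw [hy]; exact ENNReal.toReal_nonneg
  have k0 : 0 ≤ k := by rw [hk]; exact ENNReal.toReal_nonneg
  rcases y0.eq_or_lt with h0 | yp
  · rw [← h0, mul_zero]
    have : 0 ≤ D * k := mul_nonneg D0 k0
    simpa using this
  obtain ⟨b1, b1b, hb1⟩ : ∃ b1, b1 < b ∧ K ⊆ Set.Iic b1 := by
    rcases K.eq_empty_or_nonempty with he | hne
    · exact ⟨b - 1, by linarith, by rw [he]; exact Set.empty_subset _⟩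
    · obtain ⟨x, hx, hx'⟩ := hK.exists_isGreatest hne
      exact ⟨x, (hKb hx).2, fun t ht => hx' ht⟩
  have step : ∀ τ : ℝ, 0 < τ → τ < b - b1 → τ < b → τ < y →
      (volume K).toReal * ((b - τ) * (y - τ)) ^ 3 ≤ D * (k + τ) := by
    intro τ τ0 τ1 τ2 τ3
    have bp : 0 < b - τ := by linarith
    have yp' : 0 < y - τ := by linarith
    have e1 : ∀ᶠ n in atTop, y - τ < ((μs n : Measure ℝ) (Set.Ioi (b - τ))).toReal := by
      have h1 := ProbabilityMeasure.le_liminf_measure_open_of_tendsto h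
        (isOpen_Ioi (a := b - τ))
      have h2 : ENNReal.ofReal (y - τ) <
          liminf (fun n => (μs n : Measure ℝ) (Set.Ioi (b - τ))) atTop := by
        refine lt_of_lt_of_le ?_ h1
        refine lt_of_lt_of_le ?_ (measure_mono (fun t (ht : b ≤ t) => (by
          show b - τ < t; linarith : t ∈ Set.Ioi (b - τ))) :
            (ν : Measure ℝ) (Set.Ici b) ≤ (ν : Measure ℝ) (Set.Ioi (b - τ)))
        rw [← ENNReal.ofReal_toReal (measure_ne_top (ν : Measure ℝ) (Set.Ici b)), ← hy]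
        exact (ENNReal.ofReal_lt_ofReal_iff yp).2 (by linarith)
      refine (eventually_lt_of_lt_liminf h2).mono fun n hn => ?_
      have := (ENNReal.ofReal_lt_iff_lt_toReal yp'.le (measure_ne_top _ _)).1 hn
      exact this
    have e2 : ∀ᶠ n in atTop, ((μs n : Measure ℝ) K).toReal < k + τ := by
      have h1 := ProbabilityMeasure.limsup_measure_closed_le_of_tendsto h hK.isClosed
      have h2 : limsup (fun n => (μs n : Measure ℝ) K) atTop < ENNReal.ofReal (k + τ) := by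
        refine lt_of_le_of_lt h1 ?_
        rw [← ENNReal.ofReal_toReal (measure_ne_top (ν : Measure ℝ) K), ← hk]
        exact (ENNReal.ofReal_lt_ofReal_iff (by linarith)).2 (by linarith)
      refine (eventually_lt_of_limsup_lt h2).mono fun n hn => ?_
      exact (ENNReal.lt_ofReal_iff_toReal_lt (measure_ne_top _ _)).1 hn
    obtain ⟨n, h1, h2, h3⟩ := (e1.and (e2.and (hA _ (mul_pos bp yp')))).exists
    have h4 : ((μs n : Measure ℝ) (Set.Ioi (b - τ))).toReal ≤
        ((μs n : Measure ℝ) (Set.Ici (b - τ))).toReal :=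
      ENNReal.toReal_mono (measure_ne_top _ _) (measure_mono Set.Ioi_subset_Ici_self)
    have h5 : y - τ ≤ ((μs n : Measure ℝ) (Set.Ici (b - τ))).toReal := h1.le.trans h4
    have h6 := h3 (b - τ) bp (mul_le_mul_of_nonneg_left h5 bp.le) K hK.measurableSet
      (fun t ht => ⟨(hKb ht).1, lt_of_le_of_lt (hb1 ht) (by linarith)⟩)
    have h7 : ((b - τ) * (y - τ)) ^ 3 ≤
        ((b - τ) * ((μs n : Measure ℝ) (Set.Ici (b - τ))).toReal) ^ 3 :=
      pow_le_pow_left₀ (by positivity) (mul_le_mul_of_nonneg_left h5 bp.le) 3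
    have h8 : (0 : ℝ) ≤ (volume K).toReal := ENNReal.toReal_nonneg
    calc (volume K).toReal * ((b - τ) * (y - τ)) ^ 3 ≤ (volume K).toReal *
          ((b - τ) * ((μs n : Measure ℝ) (Set.Ici (b - τ))).toReal) ^ 3 :=
            mul_le_mul_of_nonneg_left h7 h8
      _ ≤ D * ((μs n : Measure ℝ) K).toReal := h6
      _ ≤ D * (k + τ) := mul_le_mul_of_nonneg_left h2.le D0
  have l1 : Tendsto (fun τ : ℝ => (volume K).toReal * ((b - τ) * (y - τ)) ^ 3) (𝓝[>] 0)
      (𝓝 ((volume K).toReal * (b * y) ^ 3)) := by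
    have : Tendsto (fun τ : ℝ => (volume K).toReal * ((b - τ) * (y - τ)) ^ 3) (𝓝 0)
        (𝓝 ((volume K).toReal * ((b - 0) * (y - 0)) ^ 3)) := by
      apply Continuous.tendsto
      fun_prop
    rw [sub_zero, sub_zero] at this
    exact this.mono_left nhdsWithin_le_nhds
  have l2 : Tendsto (fun τ : ℝ => D * (k + τ)) (𝓝[>] 0) (𝓝 (D * k)) := by
    have : Tendsto (fun τ : ℝ => D * (k + τ)) (𝓝 0) (𝓝 (D * (k + 0))) := by
      apply Continuous.tendsto
      fun_prop
    rw [add_zero] at this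
    exact this.mono_left nhdsWithin_le_nhds
  refine le_of_tendsto_of_tendsto l1 l2 ?_
  have m1 : (0 : ℝ) < min (b - b1) (min b y) := by
    refine lt_min (by linarith) (lt_min b0 yp)
  filter_upwards [Ioo_mem_nhdsGT m1] with τ hτ
  have h1 := lt_of_lt_of_le hτ.2 (min_le_left _ _)
  have h2 := lt_of_lt_of_le hτ.2 ((min_le_right _ _).trans (min_le_left _ _))
  have h3 := lt_of_lt_of_le hτ.2 ((min_le_right _ _).trans (min_le_right _ _))
  exact step τ hτ.1 h1 h2 h3

/-- the cubic inequality passes to the limit -/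
theorem passA {μs : ℕ → ProbabilityMeasure ℝ} {ν : ProbabilityMeasure ℝ}
    (h : Tendsto μs atTop (𝓝 ν)) {D : ℝ}
    (hA : ∀ ε : ℝ, 0 < ε → ∀ᶠ n in atTop, ∀ b : ℝ, 0 < b →
      ε ≤ b * ((μs n : Measure ℝ) (Set.Ici b)).toReal → ∀ A : Set ℝ, MeasurableSet A →
      A ⊆ Set.Ioo 0 b → (volume A).toReal * (b * ((μs n : Measure ℝ) (Set.Ici b)).toReal) ^ 3 ≤
        D * ((μs n : Measure ℝ) A).toReal) (D0 : 0 ≤ D)
    {b : ℝ} (b0 : 0 < b) {A : Set ℝ} (mA : MeasurableSet A) (hAb : A ⊆ Set.Ioo 0 b) :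
    (volume A).toReal * (b * ((ν : Measure ℝ) (Set.Ici b)).toReal) ^ 3 ≤
      D * ((ν : Measure ℝ) A).toReal := by
  have vA : volume A ≠ ⊤ := ne_top_of_le_ne_top (by simp) (measure_mono hAb)
  obtain ⟨y, hy⟩ : ∃ y : ℝ, y = (b * ((ν : Measure ℝ) (Set.Ici b)).toReal) ^ 3 := ⟨_, rfl⟩
  have y0 : 0 ≤ y := by
    rw [hy]; exact pow_nonneg (mul_nonneg b0.le ENNReal.toReal_nonneg) 3
  rw [← hy]
  refine le_of_forall_pos_le_add fun ε ε0 => ?_
  obtain ⟨δ, δ0, hδ⟩ : ∃ δ : ℝ, 0 < δ ∧ δ * y ≤ ε := by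
    refine ⟨ε / (y + 1), by positivity, ?_⟩
    rw [div_mul_eq_mul_div, div_le_iff₀ (by positivity)]
    nlinarith
  obtain ⟨K, hKA, hK, hlt⟩ := mA.exists_isCompact_lt_add vA
    (ε := ENNReal.ofReal δ) (by simpa using δ0)
  have h1 := passK h hA D0 b0 hK (hKA.trans hAb)
  rw [← hy] at h1
  have h2 : (volume A).toReal ≤ (volume K).toReal + δ := by
    have := ENNReal.toReal_mono (by
      refine ENNReal.add_ne_top.2 ⟨hK.measure_lt_top.ne, ENNReal.ofReal_ne_top⟩) hlt.le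
    rwa [ENNReal.toReal_add hK.measure_lt_top.ne ENNReal.ofReal_ne_top,
      ENNReal.toReal_ofReal δ0.le] at this
  have h3 : ((ν : Measure ℝ) K).toReal ≤ ((ν : Measure ℝ) A).toReal :=
    ENNReal.toReal_mono (measure_ne_top _ _) (measure_mono hKA)
  have h4 := mul_le_mul_of_nonneg_left h3 D0
  nlinarith [mul_le_mul_of_nonneg_right h2 y0]

/-- bounded continuous functions -/
lemma lim_bc {μs : ℕ → ProbabilityMeasure ℝ} {ν : ProbabilityMeasure ℝ}
    (h : Tendsto μs atTop (𝓝 ν)) {g : ℝ → ℝ} (cg : Continuous g) (sg : HasCompactSupport g) :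
    Tendsto (fun n => ∫ x, g x ∂(μs n : Measure ℝ)) atTop (𝓝 (∫ x, g x ∂(ν : Measure ℝ))) := by
  obtain ⟨C, hC⟩ := sg.exists_bound_of_continuous cg
  exact (ProbabilityMeasure.tendsto_iff_forall_integral_tendsto.1 h)
    (BoundedContinuousFunction.ofNormedAddCommGroup g cg C hC)

/-- means and second moments of weak limits -/
theorem mean' {μs : ℕ → ProbabilityMeasure ℝ} {ν : ProbabilityMeasure ℝ}
    (h : Tendsto μs atTop (𝓝 ν)) {m : ℝ}
    (i2 : ∀ n, Integrable (fun x : ℝ => x ^ 2) (μs n : Measure ℝ))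
    (hm : ∀ n, ∫ x, x ^ 2 ∂(μs n : Measure ℝ) ≤ m)
    (h0 : Tendsto (fun n => ∫ x, x ∂(μs n : Measure ℝ)) atTop (𝓝 0)) :
    Integrable (fun x : ℝ => x ^ 2) (ν : Measure ℝ) ∧ ∫ x, x ^ 2 ∂(ν : Measure ℝ) ≤ m ∧
      Integrable (fun x : ℝ => x) (ν : Measure ℝ) ∧ ∫ x, x ∂(ν : Measure ℝ) = 0 := by
  have m0 : 0 ≤ m := (integral_nonneg fun x => sq_nonneg x).trans (hm 0)
  have c2 : ∀ N : ℕ, Continuous (fun x : ℝ => x ^ 2 * cut N x) := fun N =>
    (continuous_pow 2).mul (cut_co N)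
  have s2 : ∀ N : ℕ, HasCompactSupport (fun x : ℝ => x ^ 2 * cut N x) := fun N =>
    (cut_s N).mul_left
  have c1 : ∀ N : ℕ, Continuous (fun x : ℝ => x * cut N x) := fun N =>
    continuous_id.mul (cut_co N)
  have s1 : ∀ N : ℕ, HasCompactSupport (fun x : ℝ => x * cut N x) := fun N =>
    (cut_s N).mul_left
  have i1n : ∀ n, Integrable (fun x : ℝ => x) (μs n : Measure ℝ) := fun n => by
    refine Integrable.mono' ((integrable_const (1 : ℝ)).add (i2 n))
      continuous_id.aestronglyMeasurable (ae_of_all _ fun x => ?_)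
    show ‖x‖ ≤ 1 + x ^ 2
    rw [Real.norm_eq_abs, ← sq_abs x]
    nlinarith [sq_nonneg (|x| - 1), abs_nonneg x]
  have b2 : ∀ N : ℕ, ∫ x, x ^ 2 * cut N x ∂(ν : Measure ℝ) ≤ m := by
    intro N
    refine le_of_tendsto' (lim_bc h (c2 N) (s2 N)) fun n => ?_
    refine le_trans (integral_mono ((c2 N).integrable_of_hasCompactSupport (s2 N)) (i2 n)
      fun x => ?_) (hm n)
    have := mul_le_mul_of_nonneg_left (cut_1 N x) (sq_nonneg x)
    show x ^ 2 * cut N x ≤ x ^ 2
    linarith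
  have ptl : ∀ x : ℝ, ∀ᶠ N : ℕ in atTop, cut N x = 1 := fun x => by
    obtain ⟨N, hN⟩ := exists_nat_ge |x|
    filter_upwards [eventually_ge_atTop N] with M hM
    exact cut_e (hN.trans (by exact_mod_cast hM))
  have fat : ∫⁻ x, ENNReal.ofReal (x ^ 2) ∂(ν : Measure ℝ) ≤ ENNReal.ofReal m := by
    have e1 : ∀ x : ℝ, ENNReal.ofReal (x ^ 2) =
        liminf (fun N : ℕ => ENNReal.ofReal (x ^ 2 * cut N x)) atTop := fun x => by
      have : Tendsto (fun N : ℕ => ENNReal.ofReal (x ^ 2 * cut N x)) atTop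
          (𝓝 (ENNReal.ofReal (x ^ 2))) :=
        tendsto_const_nhds.congr' ((ptl x).mono fun N hN => by
          show ENNReal.ofReal (x ^ 2) = ENNReal.ofReal (x ^ 2 * cut N x)
          rw [hN, mul_one])
      exact this.liminf_eq.symm
    rw [lintegral_congr e1]
    refine (lintegral_liminf_le fun N => (c2 N).measurable.ennreal_ofReal).trans ?_
    have e3 : ∀ N : ℕ, ∫⁻ x, ENNReal.ofReal (x ^ 2 * cut N x) ∂(ν : Measure ℝ) ≤
        ENNReal.ofReal m := by
      intro N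
      rw [← ofReal_integral_eq_lintegral_ofReal ((c2 N).integrable_of_hasCompactSupport (s2 N))
        (ae_of_all _ fun x => mul_nonneg (sq_nonneg x) (cut_0 N x))]
      exact ENNReal.ofReal_le_ofReal (b2 N)
    exact (liminf_le_liminf (Eventually.of_forall e3)).trans (liminf_const _).le
  have i2ν : Integrable (fun x : ℝ => x ^ 2) (ν : Measure ℝ) := by
    refine ⟨(continuous_pow 2).aestronglyMeasurable, ?_⟩
    rw [hasFiniteIntegral_iff_ofReal (ae_of_all _ fun x => sq_nonneg x)]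
    exact lt_of_le_of_lt fat ENNReal.ofReal_lt_top
  have i1 : Integrable (fun x : ℝ => x) (ν : Measure ℝ) := by
    refine Integrable.mono' ((integrable_const (1 : ℝ)).add i2ν)
      continuous_id.aestronglyMeasurable (ae_of_all _ fun x => ?_)
    show ‖x‖ ≤ 1 + x ^ 2
    rw [Real.norm_eq_abs, ← sq_abs x]
    nlinarith [sq_nonneg (|x| - 1), abs_nonneg x]
  refine ⟨i2ν, ?_, i1, ?_⟩
  · have e := ofReal_integral_eq_lintegral_ofReal i2ν (ae_of_all _ fun x => sq_nonneg x)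
    rw [← e] at fat
    exact (ENNReal.ofReal_le_ofReal_iff m0).1 fat
  have l1 : Tendsto (fun N : ℕ => ∫ x, x * cut N x ∂(ν : Measure ℝ)) atTop
      (𝓝 (∫ x, x ∂(ν : Measure ℝ))) := by
    refine tendsto_integral_of_dominated_convergence (fun x => |x|)
      (fun N => (c1 N).aestronglyMeasurable) i1.abs (fun N => ae_of_all _ fun x => ?_)
      (ae_of_all _ fun x => ?_)
    · rw [Real.norm_eq_abs, abs_mul, abs_of_nonneg (cut_0 N x)]
      have := mul_le_mul_of_nonneg_left (cut_1 N x) (abs_nonneg x)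
      linarith
    · exact tendsto_const_nhds.congr' ((ptl x).mono fun N hN => by
        show x = x * cut N x
        rw [hN, mul_one])
  have l2 : ∀ N : ℕ, |∫ x, x * cut (N + 1) x ∂(ν : Measure ℝ)| ≤ m / ((N : ℝ) + 1) := by
    intro N
    have t1 := (lim_bc h (c1 (N + 1)) (s1 (N + 1))).abs
    have t2 := h0.abs
    rw [abs_zero] at t2
    have t3 := t2.add_const (m / ((N : ℝ) + 1))
    rw [zero_add] at t3
    refine le_of_tendsto_of_tendsto' t1 t3 fun n => ?_
    have q0 : (0 : ℝ) < (N : ℝ) + 1 := by positivity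
    have pw : ∀ x : ℝ, |x - x * cut (N + 1) x| ≤ x ^ 2 / ((N : ℝ) + 1) := by
      intro x
      by_cases hx : |x| ≤ ((N + 1 : ℕ) : ℝ)
      · rw [cut_e hx, mul_one, sub_self, abs_zero]; positivity
      · have hx' := not_le.1 hx
        push_cast at hx'
        have e1 : x - x * cut (N + 1) x = x * (1 - cut (N + 1) x) := by ring
        rw [e1, abs_mul, abs_of_nonneg (by linarith [cut_1 (N + 1) x] : 0 ≤ 1 - cut (N + 1) x)]
        have e2 : |x| * (1 - cut (N + 1) x) ≤ |x| := by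
          have := mul_nonneg (abs_nonneg x) (cut_0 (N + 1) x)
          linarith
        refine e2.trans ?_
        rw [le_div_iff₀ q0, ← sq_abs x]
        nlinarith [abs_nonneg x]
    have j1 := i1n n
    have j2 : Integrable (fun x : ℝ => x * cut (N + 1) x) (μs n : Measure ℝ) :=
      (c1 (N + 1)).integrable_of_hasCompactSupport (s1 (N + 1))
    have sub : ∫ x, x * cut (N + 1) x ∂(μs n : Measure ℝ) = (∫ x, x ∂(μs n : Measure ℝ)) -
        ∫ x, (x - x * cut (N + 1) x) ∂(μs n : Measure ℝ) := by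
      rw [integral_sub j1 j2]; ring
    have bd : |∫ x, (x - x * cut (N + 1) x) ∂(μs n : Measure ℝ)| ≤ m / ((N : ℝ) + 1) := by
      have e1 := abs_integral_le_integral_abs (f := fun x : ℝ => x - x * cut (N + 1) x)
        (μ := (μs n : Measure ℝ))
      refine e1.trans ?_
      have e2 : ∫ x, |x - x * cut (N + 1) x| ∂(μs n : Measure ℝ) ≤
          ∫ x, x ^ 2 / ((N : ℝ) + 1) ∂(μs n : Measure ℝ) :=
        integral_mono (j1.sub j2).abs ((i2 n).div_const _) pw
      refine e2.trans ?_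
      rw [integral_div]
      exact div_le_div_of_nonneg_right (hm n) q0.le
    rw [sub]
    refine (abs_sub _ _).trans ?_
    show |∫ x, x ∂(μs n : Measure ℝ)| + |∫ x, (x - x * cut (N + 1) x) ∂(μs n : Measure ℝ)| ≤
      |∫ x, x ∂(μs n : Measure ℝ)| + m / ((N : ℝ) + 1)
    linarith
  have l3 : Tendsto (fun N : ℕ => m / ((N : ℝ) + 1)) atTop (𝓝 0) := by
    have := (tendsto_one_div_add_atTop_nhds_zero_nat (𝕜 := ℝ)).const_mul m
    rw [mul_zero] at this
    refine this.congr fun N => by ring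
  have l4 : Tendsto (fun N : ℕ => ∫ x, x * cut (N + 1) x ∂(ν : Measure ℝ)) atTop (𝓝 0) :=
    squeeze_zero_norm (fun N => by rw [Real.norm_eq_abs]; exact l2 N) l3
  exact tendsto_nhds_unique (l1.comp (tendsto_add_atTop_nat 1)) l4

end

end Pool.Agent.Y139.PD
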