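import Pool.Agent.Y139.PD.H

/-!
Project PD (helper139): laws of solutions on a whole planar domain.
-/

set_option autoImplicit false
open MeasureTheory Filter Topology Complex
open scoped ContDiff ENNReal Manifold

namespace Pool.Agent.Y139.PD

open Pool.Agent.W745.RW Pool.Agent.TH294.RS Pool.Agent.TH294.RG Pool.Agent.TH421.DF
open Pool.Agent.TH421.AC Pool.Agent.Results.MP_a52643_an.AbsoluteContinuity

noncomputable section

lemma exists_cutC {U K : Set ℂ} (hU : IsOpen U) (hK : IsCompact K) (hKU : K ⊆ U) :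
    ∃ g : ℂ → ℝ, Test U g ∧ (∀ x ∈ K, g x = 1) ∧ (∀ x, g x ≤ 1) := by
  obtain ⟨δ, hδ, hδB⟩ := hK.exists_cthickening_subset_open hU hKU
  obtain ⟨f, hf1, hf2, hf3⟩ := exists_contMDiff_support_eq_eq_one_iff (𝓘(ℝ, ℂ))
    (Metric.isOpen_thickening (δ := δ) (E := K)) hK.isClosed
    (Metric.self_subset_thickening hδ K)
  have hs : tsupport f ⊆ Metric.cthickening δ K := by
    apply closure_minimal _ Metric.isClosed_cthickening
    rw [hf3.1]
    exact Metric.thickening_subset_cthickening _ _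
  refine ⟨f, ⟨hf1.contDiff, ?_, hs.trans hδB, fun x => ?_⟩, fun x hx => ?_, fun x => ?_⟩
  · exact (hK.cthickening (r := δ)).of_isClosed_subset (isClosed_tsupport f) hs
  · exact (hf2 ⟨x, rfl⟩).1
  · exact (hf3.2 x).1 hx
  · exact (hf2 ⟨x, rfl⟩).2

/-- the hypotheses for a planar domain of finite area -/
structure GHyp (Ω : Set ℂ) (lam : ℕ → ℝ) (u : ℕ → ℂ → ℝ) : Prop where
  oΩ : IsOpen Ω
  ne : Ω.Nonempty
  fin : volume Ω ≠ ⊤
  ll : Tendsto lam atTop atTop
  su : ∀ n, ContDiffOn ℝ ∞ (u n) Ω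
  eq : ∀ n, ∀ z ∈ Ω, lapl (u n) z + lam n * u n z = 0
  l2 : ∀ n, IntegrableOn (fun z => u n z ^ 2) Ω volume
  bd : ∀ n, ∫ z in Ω, u n z ^ 2 ≤ (volume Ω).toReal

section

variable {Ω : Set ℂ} {lam : ℕ → ℝ} {u : ℕ → ℂ → ℝ}

lemma GHyp.toHyp (G : GHyp Ω lam u) : Hyp Ω (fun _ => 1) lam u := by
  refine ⟨G.oΩ, contDiffOn_const, fun z _ => one_pos, G.ll, G.su, fun n z hz => ?_,
    fun K hK hKΩ => ?_⟩
  · rw [one_mul]; exact G.eq n z hz
  · refine ⟨(volume Ω).toReal, Eventually.of_forall fun n => le_trans ?_ (G.bd n)⟩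
    exact setIntegral_mono_set (G.l2 n) (ae_of_all _ fun z => sq_nonneg _)
      (ae_of_all _ hKΩ)

lemma GHyp.neg (G : GHyp Ω lam u) : GHyp Ω lam (fun n z => -u n z) := by
  refine ⟨G.oΩ, G.ne, G.fin, G.ll, fun n => (G.su n).neg, fun n z hz => ?_, fun n => ?_,
    fun n => ?_⟩
  · rw [lapl_neg]; linear_combination -(G.eq n z hz)
  · simp only [neg_sq]; exact G.l2 n
  · simp only [neg_sq]; exact G.bd n

lemma GHyp.pos (G : GHyp Ω lam u) : 0 < (volume Ω).toReal :=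
  ENNReal.toReal_pos (G.oΩ.measure_pos volume G.ne).ne' G.fin

/-- the fraction of the area of `Ω` where `f` takes a value in `A` -/
def frac (Ω : Set ℂ) (f : ℂ → ℝ) (A : Set ℝ) : ℝ :=
  (volume {z | z ∈ Ω ∧ f z ∈ A}).toReal / (volume Ω).toReal

lemma int1 (G : GHyp Ω lam u) (n : ℕ) : IntegrableOn (fun z => |u n z|) Ω volume := by
  have hc : AEStronglyMeasurable (u n) (volume.restrict Ω) :=
    (G.su n).continuousOn.aestronglyMeasurable G.oΩ.measurableSet
  have h1 : IntegrableOn (fun _ : ℂ => (1 : ℝ)) Ω volume := integrableOn_const G.fin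
  refine Integrable.mono' (h1.add (G.l2 n)) hc.norm (ae_of_all _ fun z => ?_)
  show ‖|u n z|‖ ≤ 1 + u n z ^ 2
  rw [Real.norm_eq_abs, abs_abs, ← sq_abs (u n z)]
  nlinarith [sq_nonneg (|u n z| - 1), abs_nonneg (u n z)]

/-- a compact set and a test function for a given precision -/
lemma layer (G : GHyp Ω lam u) {η : ℝ} (η0 : 0 < η) : ∃ (K : Set ℂ) (φ : ℂ → ℝ), IsCompact K ∧
    K ⊆ Ω ∧ Test Ω φ ∧ (∀ z ∈ K, φ z = 1) ∧ (∀ z, φ z ≤ 1) ∧
    ∀ n, ∫ z in Ω \ K, |u n z| ≤ η * (volume Ω).toReal := by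
  obtain ⟨V, hV⟩ : ∃ V : ℝ, V = (volume Ω).toReal := ⟨_, rfl⟩
  have V0 : 0 < V := by rw [hV]; exact G.pos
  obtain ⟨K, hKΩ, hK, hlt⟩ := G.oΩ.measurableSet.exists_isCompact_sdiff_lt G.fin
    (ε := ENNReal.ofReal (η ^ 2 * V)) (by
      rw [Ne, ENNReal.ofReal_eq_zero, not_le]; positivity)
  obtain ⟨φ, hφ, φ1, φ2⟩ := exists_cutC G.oΩ hK hKΩ
  refine ⟨K, φ, hK, hKΩ, hφ, φ1, φ2, fun n => ?_⟩
  have fin' : volume (Ω \ K) ≠ ⊤ := ne_top_of_le_ne_top G.fin (measure_mono Set.sdiff_subset)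
  have vK : (volume (Ω \ K)).toReal ≤ η ^ 2 * V :=
    ENNReal.toReal_le_of_le_ofReal (by positivity) hlt.le
  have i1 : IntegrableOn (fun z => |u n z|) (Ω \ K) volume := (int1 G n).mono_set Set.sdiff_subset
  have i2 : IntegrableOn (fun z => u n z ^ 2) (Ω \ K) volume := (G.l2 n).mono_set Set.sdiff_subset
  have i3 : IntegrableOn (fun _ : ℂ => (1 : ℝ) / (2 * η)) (Ω \ K) volume := integrableOn_const fin'
  have h1 : ∫ z in Ω \ K, |u n z| ≤ ∫ z in Ω \ K, (1 / (2 * η) + (η / 2) * u n z ^ 2) := by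
    refine integral_mono i1 (i3.add (i2.const_mul _)) fun z => ?_
    show |u n z| ≤ 1 / (2 * η) + (η / 2) * u n z ^ 2
    have h2 : 0 ≤ 1 / (2 * η) * (1 - η * |u n z|) ^ 2 := by positivity
    have h3 : 1 / (2 * η) * (1 - η * |u n z|) ^ 2 = 1 / (2 * η) + (η / 2) * u n z ^ 2 -
        |u n z| := by
      rw [← sq_abs (u n z)]; field_simp; ring
    linarith
  refine h1.trans ?_
  rw [integral_add i3 (i2.const_mul _), integral_const_mul, setIntegral_const, smul_eq_mul]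
  have h4 : ∫ z in Ω \ K, u n z ^ 2 ≤ V := by
    refine le_trans (setIntegral_mono_set (G.l2 n) (ae_of_all _ fun z => sq_nonneg _)
      (ae_of_all _ Set.sdiff_subset)) ?_
    rw [hV]; exact G.bd n
  have h5 : volume.real (Ω \ K) * (1 / (2 * η)) ≤ η ^ 2 * V * (1 / (2 * η)) :=
    mul_le_mul_of_nonneg_right vK (by positivity)
  have h6 : η ^ 2 * V * (1 / (2 * η)) = η / 2 * V := by field_simp
  have h7 : η / 2 * ∫ z in Ω \ K, u n z ^ 2 ≤ η / 2 * V :=
    mul_le_mul_of_nonneg_left h4 (by positivity)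
  rw [← hV]
  linarith

lemma mass1 (G : GHyp Ω lam u) {φ : ℂ → ℝ} (hφ : Test Ω φ) (φ1 : ∀ z, φ z ≤ 1) (n : ℕ) :
    ∫ z, φ z * ((fun _ => (1 : ℝ)) z * u n z ^ 2) ≤ (volume Ω).toReal := by
  refine le_trans ?_ (G.bd n)
  have i1 := int_co G.toHyp hφ (g := fun x => x ^ 2) (continuous_pow 2) n
  have e1 : ∫ z, φ z * ((fun _ => (1 : ℝ)) z * u n z ^ 2) =
      ∫ z in Ω, φ z * ((fun _ => (1 : ℝ)) z * u n z ^ 2) :=
    (setIntegral_eq_integral_of_forall_compl_eq_zero fun z hz => by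
      rw [image_eq_zero_of_notMem_tsupport fun h => hz (hφ.2.2.1 h), zero_mul]).symm
  rw [e1]
  refine integral_mono i1.integrableOn (G.l2 n) fun z => ?_
  show φ z * (1 * u n z ^ 2) ≤ u n z ^ 2
  rw [one_mul]
  nlinarith [sq_nonneg (u n z), φ1 z]

lemma law_le (G : GHyp Ω lam u) {φ : ℂ → ℝ} (hφ : Test Ω φ) (φ1 : ∀ z, φ z ≤ 1) (n : ℕ)
    {A : Set ℝ} (mA : MeasurableSet A) :
    law Ω φ (fun _ => 1) (u n) A ≤ (volume Ω).toReal * frac Ω (u n) A := by
  have V0 := G.pos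
  have mE := meas_pre G.oΩ (G.su n).continuousOn mA
  have fin' : volume {z | z ∈ Ω ∧ u n z ∈ A} ≠ ⊤ :=
    ne_top_of_le_ne_top G.fin (measure_mono fun z hz => hz.1)
  have e1 : (volume Ω).toReal * frac Ω (u n) A = ∫ z in {z | z ∈ Ω ∧ u n z ∈ A}, (1 : ℝ) := by
    rw [setIntegral_const, smul_eq_mul, mul_one]
    unfold frac
    rw [mul_div_cancel₀ _ V0.ne']; rfl
  rw [e1]
  unfold law
  have hρ : ContDiffOn ℝ ∞ (fun _ : ℂ => (1 : ℝ)) Ω := contDiffOn_const
  refine setIntegral_mono_on (q_int hφ hρ).integrableOn (integrableOn_const fin') mE fun z _ => ?_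
  show φ z * 1 ≤ 1
  rw [mul_one]; exact φ1 z

/-- **Part (a) for a planar domain.** -/
theorem gA (G : GHyp Ω lam u) {k : ℝ → ℝ} {C : ℝ} (C0 : 0 < C)
    (sk : ContDiff ℝ ∞ k) (k4 : ∀ t, t * k t ≤ 4) (k2 : ∀ t, |k t| ≤ 2)
    (k1 : ∀ t, |1 - deriv k t| ≤ C * |t|) (k3 : ∀ t, |k t - t * deriv k t| ≤ C)
    {ε : ℝ} (ε0 : 0 < ε) :
    ∀ᶠ n in atTop, ∀ b : ℝ, 0 < b → ε ≤ b * frac Ω (u n) (Set.Ici b) → ∀ A : Set ℝ,
      MeasurableSet A → A ⊆ Set.Ioo 0 b →
      (volume A).toReal * (b * frac Ω (u n) (Set.Ici b)) ^ 3 ≤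
        8192 * C ^ 2 * frac Ω (u n) A := by
  obtain ⟨V, hV⟩ : ∃ V : ℝ, V = (volume Ω).toReal := ⟨_, rfl⟩
  have V0 : 0 < V := by rw [hV]; exact G.pos
  obtain ⟨K, φ, hK, hKΩ, hφ, φ1, φ2, tail⟩ := layer G (η := ε / 2) (by positivity)
  have key := halfA G.toHyp hφ (m := V) V0 (Eventually.of_forall fun n => by
    rw [hV]; exact mass1 G hφ φ2 n) C0 sk k4 k2 k1 k3 (ε := ε / 2 * V) (by positivity)
  filter_upwards [key] with n hn b b0 hb A mA hA
  have mE := meas_pre G.oΩ (G.su n).continuousOn (measurableSet_Ici (a := b))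
  obtain ⟨x, hx⟩ : ∃ x : ℝ, x = b * frac Ω (u n) (Set.Ici b) := ⟨_, rfl⟩
  rw [← hx] at hb ⊢
  have hρ : ContDiffOn ℝ ∞ (fun _ : ℂ => (1 : ℝ)) Ω := contDiffOn_const
  have lo : x * V - ε / 2 * V ≤ b * law Ω φ (fun _ => 1) (u n) (Set.Ici b) := by
    obtain ⟨E, hE⟩ : ∃ E : Set ℂ, E = {z | z ∈ Ω ∧ u n z ∈ Set.Ici b} := ⟨_, rfl⟩
    have EΩ : E ⊆ Ω := fun z hz => by rw [hE] at hz; exact hz.1
    have finE : volume E ≠ ⊤ := ne_top_of_le_ne_top G.fin (measure_mono EΩ)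
    have e1 : x * V = ∫ z in E, b := by
      rw [setIntegral_const, smul_eq_mul, hx]
      unfold frac
      rw [← hE, ← hV]
      show b * ((volume E).toReal / V) * V = (volume E).toReal * b
      field_simp
    have e2 : b * law Ω φ (fun _ => 1) (u n) (Set.Ici b) = ∫ z in E, b * φ z := by
      unfold law
      rw [← hE, ← integral_const_mul]
      congr 1; funext z; ring
    have iφ : IntegrableOn (fun z => b * φ z) E volume := by
      have := ((q_int hφ hρ).const_mul b).integrableOn (s := E)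
      refine this.congr (ae_of_all _ fun z => ?_)
      show b * (φ z * 1) = b * φ z
      ring
    have icE : IntegrableOn (fun _ : ℂ => b) E volume := integrableOn_const finE
    have e3 : (∫ z in E, b) - ∫ z in E, b * φ z = ∫ z in E, (b - b * φ z) :=
      (integral_sub icE iφ).symm
    have e4 : ∫ z in E, (b - b * φ z) ≤ ∫ z in E ∩ (Ω \ K), (b - b * φ z) := by
      have mE' : MeasurableSet E := by rw [hE]; exact mE
      refine le_of_eq (setIntegral_eq_of_subset_of_forall_sdiff_eq_zero mE'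
        Set.inter_subset_left fun z hz => ?_)
      have hzK : z ∈ K := by
        by_contra hc
        exact hz.2 ⟨hz.1, EΩ hz.1, hc⟩
      rw [φ1 z hzK]; ring
    have mE'' : MeasurableSet (E ∩ (Ω \ K)) := by
      rw [hE]; exact mE.inter (G.oΩ.measurableSet.diff hK.measurableSet)
    have sub : E ∩ (Ω \ K) ⊆ Ω := fun z hz => EΩ hz.1
    have e5 : ∫ z in E ∩ (Ω \ K), (b - b * φ z) ≤ ∫ z in E ∩ (Ω \ K), |u n z| := by
      refine setIntegral_mono_on ((icE.sub iφ).mono_set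
        Set.inter_subset_left) ((int1 G n).mono_set sub) mE'' fun z hz => ?_
      have h1 : b ≤ u n z := by
        have := hz.1
        rw [hE] at this
        exact this.2
      have h2 := hφ.2.2.2 z
      have h3 := le_abs_self (u n z)
      nlinarith
    have e6 : ∫ z in E ∩ (Ω \ K), |u n z| ≤ ∫ z in Ω \ K, |u n z| :=
      setIntegral_mono_set ((int1 G n).mono_set Set.sdiff_subset)
        (ae_of_all _ fun z => abs_nonneg _) (ae_of_all _ Set.inter_subset_right)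
    have e7 := tail n
    rw [← hV] at e7
    rw [e1, e2]
    linarith
  have x2 : x / 2 * V ≤ b * law Ω φ (fun _ => 1) (u n) (Set.Ici b) := by nlinarith
  have h1 := hn b b0 (by nlinarith) A mA hA
  have x0 : 0 < x := lt_of_lt_of_le ε0 hb
  have h2 : (x / 2 * V) ^ 3 ≤ (b * law Ω φ (fun _ => 1) (u n) (Set.Ici b)) ^ 3 :=
    pow_le_pow_left₀ (by positivity) x2 3
  have h3 := law_le G hφ φ2 n mA
  rw [← hV] at h3
  have h4 : (volume A).toReal * (x / 2 * V) ^ 3 ≤ 1024 * C ^ 2 * V ^ 2 * (V * frac Ω (u n) A) :=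
    (mul_le_mul_of_nonneg_left h2 ENNReal.toReal_nonneg).trans (h1.trans
      (mul_le_mul_of_nonneg_left h3 (by positivity)))
  have h5 : V ^ 3 * ((volume A).toReal * x ^ 3) ≤ V ^ 3 * (8192 * C ^ 2 * frac Ω (u n) A) := by
    nlinarith
  exact le_of_mul_le_mul_left h5 (by positivity)

/-- the global means tend to zero -/
theorem gmean (G : GHyp Ω lam u) :
    Tendsto (fun n => (∫ z in Ω, u n z) / (volume Ω).toReal) atTop (𝓝 0) := by
  obtain ⟨V, hV⟩ : ∃ V : ℝ, V = (volume Ω).toReal := ⟨_, rfl⟩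
  have V0 : 0 < V := by rw [hV]; exact G.pos
  rw [← hV, Metric.tendsto_atTop']
  intro ε ε0
  obtain ⟨K, φ, hK, hKΩ, hφ, φ1, φ2, tail⟩ := layer G (η := ε / 2) (by positivity)
  have h1 := (S2 G.toHyp hφ).abs
  rw [abs_zero] at h1
  have h2 := h1.eventually (gt_mem_nhds (by positivity : (0 : ℝ) < ε / 2 * V))
  obtain ⟨N, hN⟩ := eventually_atTop.1 h2
  refine ⟨N, fun n hn => ?_⟩
  have h3 := hN n hn.le
  rw [Real.dist_eq, sub_zero, abs_div, abs_of_pos V0, div_lt_iff₀ V0]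
  have i1 : IntegrableOn (fun z => u n z) Ω volume := by
    have := int1 G n
    exact (integrable_norm_iff ((G.su n).continuousOn.aestronglyMeasurable
      G.oΩ.measurableSet)).1 this
  have i2 := int_co G.toHyp hφ (g := fun x => x) continuous_id n
  have e1 : ∫ z, φ z * ((fun _ => (1 : ℝ)) z * u n z) =
      ∫ z in Ω, φ z * ((fun _ => (1 : ℝ)) z * u n z) :=
    (setIntegral_eq_integral_of_forall_compl_eq_zero fun z hz => by
      rw [image_eq_zero_of_notMem_tsupport fun h => hz (hφ.2.2.1 h), zero_mul]).symm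
  have e2 : ∫ z in Ω, u n z = (∫ z, φ z * ((fun _ => (1 : ℝ)) z * u n z)) +
      ∫ z in Ω, (u n z - φ z * ((fun _ => (1 : ℝ)) z * u n z)) := by
    rw [e1, integral_sub i1 i2.integrableOn]; ring
  have e3 : ∫ z in Ω, (u n z - φ z * ((fun _ => (1 : ℝ)) z * u n z)) =
      ∫ z in Ω \ K, (u n z - φ z * ((fun _ => (1 : ℝ)) z * u n z)) := by
    refine setIntegral_eq_of_subset_of_forall_sdiff_eq_zero G.oΩ.measurableSet
      Set.sdiff_subset fun z hz => ?_
    have hzK : z ∈ K := by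
      by_contra hc
      exact hz.2 ⟨hz.1, hc⟩
    rw [φ1 z hzK]; ring
  have e4 : |∫ z in Ω \ K, (u n z - φ z * ((fun _ => (1 : ℝ)) z * u n z))| ≤
      ∫ z in Ω \ K, |u n z| := by
    refine (abs_integral_le_integral_abs).trans ?_
    refine integral_mono ((i1.sub i2.integrableOn).mono_set Set.sdiff_subset).abs
      ((int1 G n).mono_set Set.sdiff_subset) fun z => ?_
    show |u n z - φ z * (1 * u n z)| ≤ |u n z|
    have : u n z - φ z * (1 * u n z) = (1 - φ z) * u n z := by ring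
    rw [this, abs_mul, abs_of_nonneg (by linarith [φ2 z] : 0 ≤ 1 - φ z)]
    have := hφ.2.2.2 z
    nlinarith [abs_nonneg (u n z)]
  have e5 := tail n
  rw [← hV] at e5
  rw [e2, e3]
  refine lt_of_le_of_lt (abs_add_le _ _) ?_
  linarith

end

end

end Pool.Agent.Y139.PD
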