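import Pool.Agent.Y139.PD.J

/-!
Project PD (helper139): limit laws of solutions on a whole planar domain.
-/

set_option autoImplicit false
open MeasureTheory Filter Topology Complex
open scoped ContDiff ENNReal Manifold

namespace Pool.Agent.Y139.PD

open Pool.Agent.W745.RW Pool.Agent.TH294.RS Pool.Agent.TH294.RG Pool.Agent.TH421.DF
open Pool.Agent.TH421.AC Pool.Agent.Results.MP_a52643_an.AbsoluteContinuity

noncomputable section

/-- the inequality behind absolute continuity -/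
theorem ac_ineq {Ω : Set ℂ} {ρ : ℂ → ℝ} {lam : ℕ → ℝ} {u : ℕ → ℂ → ℝ} (H : Hyp Ω ρ lam u)
    {φ : ℂ → ℝ} (hφ : Test Ω φ) : ∃ C : ℝ, 0 ≤ C ∧ ∀ᶠ n in atTop, ∀ (g : ℝ → ℝ) (e : ℝ),
      ContDiff ℝ ∞ g → (∀ x, 0 ≤ g x) → (∀ x, g x ≤ 1) → 0 < e → (∀ x, |Pr g x| ≤ e ^ 6) →
      ∫ z, φ z * (g (u n z) * |ρ z * u n z|) ≤ e * C := by
  obtain ⟨hΩ, hρ, hρ0, hlam, hu, he, hL⟩ := H
  obtain ⟨N0, hN0⟩ := (eventually_atTop.1 (hlam.eventually_ge_atTop 1))
  obtain ⟨l, hl⟩ : ∃ l : ℕ → ℝ, ∀ n, l n = lam (n + N0) := ⟨_, fun _ => rfl⟩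
  have l1 : ∀ n, 1 ≤ l n := fun n => by rw [hl]; exact hN0 _ (Nat.le_add_left _ _)
  have ll : Tendsto l atTop atTop :=
    (hlam.comp (tendsto_add_atTop_nat N0)).congr fun n => (hl n).symm
  obtain ⟨h, hh⟩ : ∃ h : ℕ → ℝ, ∀ n, h n = (√(l n))⁻¹ := ⟨_, fun _ => rfl⟩
  have hp : ∀ n, 0 < h n := fun n => by
    rw [hh]; exact inv_pos.2 (Real.sqrt_pos.2 (lt_of_lt_of_le one_pos (l1 n)))
  have h0 : Tendsto h atTop (𝓝 0) :=
    (tendsto_inv_atTop_zero.comp (Real.tendsto_sqrt_atTop.comp ll)).congr fun n => (hh n).symm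
  have h2 : ∀ n, h n ^ 2 * l n = 1 := fun n => by
    have p : 0 < l n := lt_of_lt_of_le one_pos (l1 n)
    rw [hh, inv_pow, Real.sq_sqrt p.le, inv_mul_cancel₀ p.ne']
  obtain ⟨w, hw⟩ : ∃ w : ℕ → ℂ → ℝ, w = fun n => u (n + N0) := ⟨_, rfl⟩
  have sw : ∀ n, ContDiffOn ℝ ∞ (w n) Ω := fun n => by rw [hw]; exact hu _
  have ew : ∀ n, ∀ z ∈ Ω, h n ^ 2 * lapl (w n) z = -(ρ z * w n z) := by
    intro n z hz
    have e1 := he (n + N0) z hz
    rw [← hl] at e1
    have e2 : lapl (w n) z = - (l n * (ρ z * w n z)) := by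
      rw [hw]; show lapl (u (n + N0)) z = - (l n * (ρ z * u (n + N0) z)); linarith
    rw [e2]
    have := h2 n
    linear_combination (-(ρ z * w n z)) * this
  have lbw : LB Ω 2 (cx w) := by
    refine ⟨fun n => Complex.ofRealCLM.contDiff.comp_contDiffOn (sw n), fun K hK hKB => ?_⟩
    obtain ⟨C, hC⟩ := hL K hK hKB
    refine ⟨C, ?_⟩
    have h3 := (tendsto_add_atTop_nat N0).eventually hC
    refine h3.mono fun n hn => ?_
    simp only [cx, Complex.norm_real, Real.norm_eq_abs, sq_abs, hw]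
    exact hn
  have MKw : MK2 Ω h 3 (cx w) := by
    refine mk_sol hΩ hp h0 lbw (ρ := fun z => (ρ z : ℂ))
      (Complex.ofRealCLM.contDiff.comp_contDiffOn hρ) (c := fun _ => 1) (M := 1)
      (Eventually.of_forall fun n => by norm_num) ?_ 3
    intro n z hz
    have e1 : lap (cx w n) z = ((lapl (w n) z : ℝ) : ℂ) := lap_re hΩ (sw n) hz
    simp only [Pool.Agent.TH294.RS.hL]
    rw [e1]
    have e2 := ew n z hz
    have e3 : ((h n ^ 2 * lapl (w n) z : ℝ) : ℂ) = ((-(ρ z * w n z) : ℝ) : ℂ) := by rw [e2]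
    push_cast at e3
    simp only [cx]
    push_cast
    rw [e3]; ring
  obtain ⟨C, C0, hC⟩ := main_ineq hΩ hp h0 sw MKw (⟨hφ.1, hφ.2.1, hφ.2.2.1⟩ : TF Ω φ) hφ.2.2.2
    hρ.continuousOn (fun n z hz => by
      rw [rdd hΩ sw 1 n hz, rdd hΩ sw I n hz, ← mul_add]
      exact ew n z hz)
  refine ⟨C, C0, ?_⟩
  rw [← Filter.map_add_atTop_eq_nat N0, eventually_map]
  refine hC.mono fun n hn => ?_
  rw [hw] at hn
  exact hn

section

variable {Ω : Set ℂ} {lam : ℕ → ℝ} {u : ℕ → ℂ → ℝ}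

/-- the normalised law -/
def glaw (Ω : Set ℂ) (f : ℂ → ℝ) : Measure ℝ := ((volume Ω)⁻¹ • volume.restrict Ω).map f

lemma g_ae (G : GHyp Ω lam u) (n : ℕ) :
    AEMeasurable (u n) ((volume Ω)⁻¹ • volume.restrict Ω) :=
  ((G.su n).continuousOn.aemeasurable G.oΩ.measurableSet).smul_measure _

lemma glaw_ap (G : GHyp Ω lam u) (n : ℕ) {A : Set ℝ} (mA : MeasurableSet A) :
    (glaw Ω (u n) A).toReal = frac Ω (u n) A := by
  unfold glaw frac
  rw [Measure.map_apply_of_aemeasurable (g_ae G n) mA, Measure.smul_apply,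
    Measure.restrict_apply' G.oΩ.measurableSet, smul_eq_mul, ENNReal.toReal_mul,
    ENNReal.toReal_inv]
  have : u n ⁻¹' A ∩ Ω = {z | z ∈ Ω ∧ u n z ∈ A} := by
    ext z; constructor
    · rintro ⟨h, h'⟩; exact ⟨h', h⟩
    · rintro ⟨h, h'⟩; exact ⟨h', h⟩
  rw [this]; ring

lemma glaw_prob (G : GHyp Ω lam u) (n : ℕ) : IsProbabilityMeasure (glaw Ω (u n)) := by
  refine ⟨?_⟩
  unfold glaw
  rw [Measure.map_apply_of_aemeasurable (g_ae G n) MeasurableSet.univ, Set.preimage_univ,
    Measure.smul_apply, Measure.restrict_apply_univ, smul_eq_mul]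
  exact ENNReal.inv_mul_cancel (G.oΩ.measure_pos volume G.ne).ne' G.fin

lemma glaw_int (G : GHyp Ω lam u) (n : ℕ) {g : ℝ → ℝ} (cg : Continuous g) :
    ∫ x, g x ∂(glaw Ω (u n)) = (∫ z in Ω, g (u n z)) / (volume Ω).toReal := by
  unfold glaw
  rw [integral_map (g_ae G n) cg.aestronglyMeasurable, integral_smul_measure,
    ENNReal.toReal_inv, smul_eq_mul]
  ring

lemma glaw_integrable (G : GHyp Ω lam u) (n : ℕ) {g : ℝ → ℝ} (cg : Continuous g)
    (h : IntegrableOn (fun z => g (u n z)) Ω volume) : Integrable g (glaw Ω (u n)) := by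
  unfold glaw
  rw [integrable_map_measure cg.aestronglyMeasurable (g_ae G n)]
  exact h.smul_measure (by
    rw [Ne, ENNReal.inv_eq_top]
    exact (G.oΩ.measure_pos volume G.ne).ne')

/-- the law as an element of the space of probability measures -/
def gP (G : GHyp Ω lam u) (n : ℕ) : ProbabilityMeasure ℝ := ⟨glaw Ω (u n), glaw_prob G n⟩

/-- absolute continuity of the global limit laws off zero -/
theorem gac (G : GHyp Ω lam u) {σ : ℕ → ℕ} (hσ : StrictMono σ) {ν : ProbabilityMeasure ℝ}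
    (h : Tendsto (fun n => gP G (σ n)) atTop (𝓝 ν)) :
    (ν : Measure ℝ).restrict {0}ᶜ ≪ volume := by
  obtain ⟨V, hV⟩ : ∃ V : ℝ, V = (volume Ω).toReal := ⟨_, rfl⟩
  have V0 : 0 < V := by rw [hV]; exact G.pos
  have base : ∀ K : Set ℝ, IsCompact K → volume K = 0 → ∫ x in K, |x| ∂(ν : Measure ℝ) ≤ 0 := by
    intro K hK K0
    refine le_of_forall_pos_le_add fun δ δ0 => ?_
    rw [zero_add]
    obtain ⟨K', φ, hK', hKΩ, hφ, φ1, φ2, tail⟩ := layer G (η := δ / 2) (by positivity)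
    obtain ⟨C, C0, hC⟩ := ac_ineq G.toHyp hφ
    obtain ⟨e, he0, heC⟩ : ∃ e : ℝ, 0 < e ∧ e * C ≤ δ / 2 * V := by
      refine ⟨(δ / 2 * V) / (C + 1), by positivity, ?_⟩
      rw [div_mul_eq_mul_div, div_le_iff₀ (by positivity)]
      have : 0 ≤ δ / 2 * V := by positivity
      nlinarith
    have hKe : volume K < ENNReal.ofReal (e ^ 6) := by
      rw [K0]; exact ENNReal.ofReal_pos.2 (by positivity)
    obtain ⟨U, hKU, hU, hUe⟩ := K.exists_isOpen_lt_of_lt _ hKe
    obtain ⟨g, sg, cg, tg, gK, g0, g1⟩ := exists_cutR hU hK hKU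
    have gint : Integrable g := sg.continuous.integrable_of_hasCompactSupport cg
    have Ufin : volume U ≠ ⊤ := ne_top_of_lt hUe
    have gle : ∫ x, |g x| ≤ e ^ 6 := by
      have e1 : ∫ x, |g x| = ∫ x in U, |g x| := by
        refine (setIntegral_eq_integral_of_forall_compl_eq_zero fun x hx => ?_).symm
        rw [image_eq_zero_of_notMem_tsupport (fun h => hx (tg h)), abs_zero]
      rw [e1]
      have e2 : ∫ x in U, |g x| ≤ ∫ x in U, (1 : ℝ) := by
        refine setIntegral_mono_on gint.abs.integrableOn (integrableOn_const Ufin) hU.measurableSet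
          fun x _ => ?_
        rw [abs_of_nonneg (g0 x)]; exact g1 x
      refine e2.trans ?_
      rw [setIntegral_const, smul_eq_mul, mul_one]
      exact ENNReal.toReal_le_of_le_ofReal (by positivity) hUe.le
    have hPr : ∀ x, |Pr g x| ≤ e ^ 6 := by
      intro x
      have h1 := intervalIntegral.norm_integral_le_integral_norm_uIoc (f := g)
        (a := 0) (b := x) (μ := volume)
      refine h1.trans (le_trans ?_ gle)
      exact setIntegral_le_integral gint.abs (ae_of_all _ fun x => abs_nonneg _)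
    have cG : Continuous (fun x => g x * |x|) := sg.continuous.mul continuous_abs
    have sG : HasCompactSupport (fun x => g x * |x|) := cg.mul_right
    have lim := lim_bc h cG sG
    have ev : ∀ᶠ n in atTop, ∫ x, g x * |x| ∂((gP G (σ n) : ProbabilityMeasure ℝ) : Measure ℝ) ≤
        δ := by
      filter_upwards [hσ.tendsto_atTop.eventually hC] with n hn
      have h1 := hn g e sg g0 g1 he0 hPr
      have e1 : ∫ x, g x * |x| ∂((gP G (σ n) : ProbabilityMeasure ℝ) : Measure ℝ) =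
          (∫ z in Ω, g (u (σ n) z) * |u (σ n) z|) / V := by
        rw [hV]; exact glaw_int G (σ n) cG
      rw [e1, div_le_iff₀ V0]
      have i0 := int_co G.toHyp hφ (g := fun x => g x * |x|) cG (σ n)
      have cu := (G.su (σ n)).continuousOn
      have ig : IntegrableOn (fun z => g (u (σ n) z) * |u (σ n) z|) Ω volume := by
        refine Integrable.mono' (int1 G (σ n))
          ((cG.comp_continuousOn cu).aestronglyMeasurable G.oΩ.measurableSet)
          (ae_of_all _ fun z => ?_)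
        show ‖g (u (σ n) z) * |u (σ n) z|‖ ≤ |u (σ n) z|
        rw [Real.norm_eq_abs, abs_mul, abs_abs, abs_of_nonneg (g0 _)]
        have := mul_le_mul_of_nonneg_right (g1 (u (σ n) z)) (abs_nonneg (u (σ n) z))
        linarith
      have e2 : ∫ z, φ z * ((fun _ => (1 : ℝ)) z * (g (u (σ n) z) * |u (σ n) z|)) =
          ∫ z in Ω, φ z * ((fun _ => (1 : ℝ)) z * (g (u (σ n) z) * |u (σ n) z|)) :=
        (setIntegral_eq_integral_of_forall_compl_eq_zero fun z hz => by
          rw [image_eq_zero_of_notMem_tsupport fun h => hz (hφ.2.2.1 h), zero_mul]).symm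
      have e3 : ∫ z, φ z * ((fun _ => (1 : ℝ)) z * (g (u (σ n) z) * |u (σ n) z|)) =
          ∫ z, φ z * (g (u (σ n) z) * |(fun _ => (1 : ℝ)) z * u (σ n) z|) := by
        congr 1; funext z
        simp only [one_mul]
      have e4 : ∫ z in Ω, g (u (σ n) z) * |u (σ n) z| =
          (∫ z, φ z * ((fun _ => (1 : ℝ)) z * (g (u (σ n) z) * |u (σ n) z|))) +
          ∫ z in Ω, (g (u (σ n) z) * |u (σ n) z| -
            φ z * ((fun _ => (1 : ℝ)) z * (g (u (σ n) z) * |u (σ n) z|))) := by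
        rw [e2, integral_sub ig i0.integrableOn]; ring
      have e5 : ∫ z in Ω, (g (u (σ n) z) * |u (σ n) z| -
            φ z * ((fun _ => (1 : ℝ)) z * (g (u (σ n) z) * |u (σ n) z|))) =
          ∫ z in Ω \ K', (g (u (σ n) z) * |u (σ n) z| -
            φ z * ((fun _ => (1 : ℝ)) z * (g (u (σ n) z) * |u (σ n) z|))) := by
        refine setIntegral_eq_of_subset_of_forall_sdiff_eq_zero G.oΩ.measurableSet
          Set.sdiff_subset fun z hz => ?_
        have hzK : z ∈ K' := by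
          by_contra hc
          exact hz.2 ⟨hz.1, hc⟩
        rw [φ1 z hzK]; ring
      have e6 : ∫ z in Ω \ K', (g (u (σ n) z) * |u (σ n) z| -
            φ z * ((fun _ => (1 : ℝ)) z * (g (u (σ n) z) * |u (σ n) z|))) ≤
          ∫ z in Ω \ K', |u (σ n) z| := by
        refine integral_mono ((ig.sub i0.integrableOn).mono_set Set.sdiff_subset)
          ((int1 G (σ n)).mono_set Set.sdiff_subset) fun z => ?_
        show g (u (σ n) z) * |u (σ n) z| - φ z * (1 * (g (u (σ n) z) * |u (σ n) z|)) ≤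
          |u (σ n) z|
        have a0 := mul_nonneg (g0 (u (σ n) z)) (abs_nonneg (u (σ n) z))
        have a1 := mul_le_mul_of_nonneg_right (g1 (u (σ n) z)) (abs_nonneg (u (σ n) z))
        have a2 := mul_nonneg (hφ.2.2.2 z) a0
        linarith
      have e7 := tail (σ n)
      rw [← hV] at e7
      rw [e4, e5, e3]
      linarith
    have fin : ∫ x, g x * |x| ∂(ν : Measure ℝ) ≤ δ := le_of_tendsto lim ev
    refine le_trans ?_ fin
    have i1 : Integrable (fun x => g x * |x|) (ν : Measure ℝ) :=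
      cG.integrable_of_hasCompactSupport sG
    have e4 : ∫ x in K, |x| ∂(ν : Measure ℝ) = ∫ x in K, g x * |x| ∂(ν : Measure ℝ) :=
      setIntegral_congr_fun hK.measurableSet fun x hx => by
        show |x| = g x * |x|
        rw [gK x hx, one_mul]
    rw [e4]
    exact setIntegral_le_integral i1 (ae_of_all _ fun x => mul_nonneg (g0 x) (abs_nonneg x))
  intro s hs
  obtain ⟨t, hst, tm, t0⟩ := exists_measurable_superset_of_null hs
  rw [Measure.restrict_apply₀' (measurableSet_singleton (0 : ℝ)).compl.nullMeasurableSet]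
  have tk : ∀ k : ℕ, (ν : Measure ℝ) (t ∩ {x | 1 / ((k : ℝ) + 1) ≤ |x|}) = 0 := by
    intro k
    by_contra hne
    have mt : MeasurableSet (t ∩ {x | 1 / ((k : ℝ) + 1) ≤ |x|}) :=
      tm.inter (measurableSet_le measurable_const continuous_abs.measurable)
    obtain ⟨K, hKt, hK, hKpos⟩ := mt.exists_lt_isCompact (pos_iff_ne_zero.2 hne)
    have K0 : volume K = 0 := measure_mono_null (hKt.trans Set.inter_subset_left) t0
    have Kr : 0 < ((ν : Measure ℝ) K).toReal :=
      ENNReal.toReal_pos hKpos.ne' (measure_ne_top (ν : Measure ℝ) K)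
    have low : 1 / ((k : ℝ) + 1) * ((ν : Measure ℝ) K).toReal ≤
        ∫ x in K, |x| ∂(ν : Measure ℝ) := by
      have e1 : ∫ _ in K, (1 / ((k : ℝ) + 1)) ∂(ν : Measure ℝ) =
          1 / ((k : ℝ) + 1) * ((ν : Measure ℝ) K).toReal := by
        rw [setIntegral_const, smul_eq_mul, mul_comm]; rfl
      rw [← e1]
      refine setIntegral_mono_on (integrableOn_const (measure_ne_top (ν : Measure ℝ) K))
        (continuous_abs.continuousOn.integrableOn_compact hK) hK.measurableSet fun x hx => ?_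
      exact (hKt hx).2
    have kp : 0 < 1 / ((k : ℝ) + 1) * ((ν : Measure ℝ) K).toReal := by positivity
    have := base K hK K0
    linarith
  refine measure_mono_null (t := ⋃ k : ℕ, t ∩ {x | 1 / ((k : ℝ) + 1) ≤ |x|}) ?_
    (measure_iUnion_null tk)
  intro x hx
  have x0 : x ≠ 0 := hx.2
  obtain ⟨k, hk⟩ := exists_nat_one_div_lt (abs_pos.2 x0)
  exact Set.mem_iUnion.2 ⟨k, hst hx.1, hk.le⟩

end

end

end Pool.Agent.Y139.PD
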