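import Pool.Agent.Y139.PD.L

/-!
Project PD (helper139): laws of eigenfunctions on a whole surface of finite area.
-/

set_option autoImplicit false
open MeasureTheory Filter Topology Complex
open scoped ContDiff ENNReal Manifold

namespace Pool.Agent.Y139.PD

open Pool.Agent.W745.RW Pool.Agent.TH294.RS Pool.Agent.TH294.RG Pool.Agent.TH421.DF
open Pool.Agent.TH421.AC Pool.Agent.Results.MP_a52643_an.AbsoluteContinuity

noncomputable section

/-- the area measure of the metric `ρ |dz|²` on `Ω` -/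
def area (Ω : Set ℂ) (ρ : ℂ → ℝ) : Measure ℂ :=
  (volume.restrict Ω).withDensity (fun z => ENNReal.ofReal (ρ z))

/-- the hypotheses for a surface of finite area -/
structure WHyp (Ω : Set ℂ) (ρ : ℂ → ℝ) (lam : ℕ → ℝ) (u : ℕ → ℂ → ℝ) : Prop where
  oΩ : IsOpen Ω
  ne : Ω.Nonempty
  sρ : ContDiffOn ℝ ∞ ρ Ω
  pρ : ∀ z ∈ Ω, 0 < ρ z
  fin : area Ω ρ Set.univ ≠ ⊤
  ll : Tendsto lam atTop atTop
  su : ∀ n, ContDiffOn ℝ ∞ (u n) Ω
  eq : ∀ n, ∀ z ∈ Ω, lapl (u n) z + lam n * (ρ z * u n z) = 0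
  l2 : ∀ n, Integrable (fun z => u n z ^ 2) (area Ω ρ)
  bd : ∀ n, ∫ z, u n z ^ 2 ∂(area Ω ρ) ≤ (area Ω ρ Set.univ).toReal

section

variable {Ω : Set ℂ} {ρ : ℂ → ℝ} {lam : ℕ → ℝ} {u : ℕ → ℂ → ℝ}

lemma a_me (hΩ : IsOpen Ω) (hρ : ContDiffOn ℝ ∞ ρ Ω) :
    AEMeasurable (fun z => ENNReal.ofReal (ρ z)) (volume.restrict Ω) :=
  (hρ.continuousOn.aemeasurable hΩ.measurableSet).ennreal_ofReal

lemma a_int (G : WHyp Ω ρ lam u) (g : ℂ → ℝ) {s : Set ℂ} (hs : MeasurableSet s) :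
    ∫ z in s, g z ∂(area Ω ρ) = ∫ z in s ∩ Ω, ρ z * g z := by
  unfold area
  rw [← Measure.restrict_restrict hs, setIntegral_withDensity_eq_setIntegral_toReal_smul₀
    ((a_me G.oΩ G.sρ).restrict) (ae_of_all _ fun _ => ENNReal.ofReal_lt_top) _ hs]
  rw [Measure.restrict_restrict hs]
  refine setIntegral_congr_fun (hs.inter G.oΩ.measurableSet) fun z hz => ?_
  show (ENNReal.ofReal (ρ z)).toReal • g z = ρ z * g z
  rw [ENNReal.toReal_ofReal (G.pρ z hz.2).le, smul_eq_mul]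

lemma a_compl (G : WHyp Ω ρ lam u) : area Ω ρ Ωᶜ = 0 := by
  unfold area
  rw [withDensity_apply _ G.oΩ.measurableSet.compl,
    Measure.restrict_restrict G.oΩ.measurableSet.compl]
  simp

lemma a_pos (G : WHyp Ω ρ lam u) : 0 < (area Ω ρ Set.univ).toReal := by
  refine ENNReal.toReal_pos (fun h => ?_) G.fin
  unfold area at h
  rw [withDensity_apply _ MeasurableSet.univ, Measure.restrict_univ,
    lintegral_eq_zero_iff' (a_me G.oΩ G.sρ)] at h
  have h1 : ∀ᵐ z ∂(volume.restrict Ω), False := by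
    filter_upwards [h, ae_restrict_mem G.oΩ.measurableSet] with z h1 h2
    have : ENNReal.ofReal (ρ z) = 0 := h1
    rw [ENNReal.ofReal_eq_zero] at this
    exact absurd (G.pρ z h2) (not_lt.2 this)
  rw [ae_iff] at h1
  simp only [not_false_eq_true] at h1
  have h2 : (volume.restrict Ω) Set.univ = 0 := h1
  rw [Measure.restrict_apply_univ] at h2
  exact (G.oΩ.measure_pos volume G.ne).ne' h2

lemma a_fm (G : WHyp Ω ρ lam u) : IsFiniteMeasure (area Ω ρ) := ⟨lt_top_iff_ne_top.2 G.fin⟩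

lemma u_me (G : WHyp Ω ρ lam u) (n : ℕ) : AEMeasurable (u n) (area Ω ρ) :=
  ((G.su n).continuousOn.aemeasurable G.oΩ.measurableSet).mono_ac
    (withDensity_absolutelyContinuous _ _)

lemma w_int1 (G : WHyp Ω ρ lam u) (n : ℕ) : Integrable (fun z => |u n z|) (area Ω ρ) := by
  have := a_fm G
  refine Integrable.mono' ((integrable_const (1 : ℝ)).add (G.l2 n))
    (u_me G n).aestronglyMeasurable.norm (ae_of_all _ fun z => ?_)
  show ‖|u n z|‖ ≤ 1 + u n z ^ 2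
  rw [Real.norm_eq_abs, abs_abs, ← sq_abs (u n z)]
  nlinarith [sq_nonneg (|u n z| - 1), abs_nonneg (u n z)]

lemma WHyp.toHyp (G : WHyp Ω ρ lam u) : Hyp Ω ρ lam u := by
  have := a_fm G
  refine ⟨G.oΩ, G.sρ, G.pρ, G.ll, G.su, G.eq, fun K hK hKΩ => ?_⟩
  obtain ⟨M, hM⟩ := hK.exists_bound_of_continuousOn
    ((G.sρ.continuousOn.mono hKΩ).inv₀ fun z hz => (G.pρ z (hKΩ hz)).ne')
  refine ⟨|M| * (area Ω ρ Set.univ).toReal, Eventually.of_forall fun n => ?_⟩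
  have cu := (G.su n).continuousOn.mono hKΩ
  have cρ := G.sρ.continuousOn.mono hKΩ
  refine intK_c hK (abs_nonneg M) (cu.pow 2) (cρ.mul (cu.pow 2)) (fun z hz => ?_) ?_
  · show u n z ^ 2 ≤ |M| * (ρ z * u n z ^ 2)
    have h1 : ‖(ρ z)⁻¹‖ ≤ |M| := (hM z hz).trans (le_abs_self M)
    have p := G.pρ z (hKΩ hz)
    rw [Real.norm_eq_abs, abs_of_pos (inv_pos.2 p), inv_le_iff_one_le_mul₀ p] at h1
    have := mul_le_mul_of_nonneg_right h1 (sq_nonneg (u n z))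
    nlinarith
  · have e := a_int G (fun z => u n z ^ 2) hK.measurableSet
    rw [Set.inter_eq_left.2 hKΩ] at e
    show ∫ z in K, ρ z * u n z ^ 2 ≤ (area Ω ρ Set.univ).toReal
    rw [← e]
    refine le_trans ?_ (G.bd n)
    exact setIntegral_le_integral (G.l2 n) (ae_of_all _ fun z => sq_nonneg _)

lemma WHyp.neg (G : WHyp Ω ρ lam u) : WHyp Ω ρ lam (fun n z => -u n z) := by
  refine ⟨G.oΩ, G.ne, G.sρ, G.pρ, G.fin, G.ll, fun n => (G.su n).neg, fun n z hz => ?_,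
    fun n => ?_, fun n => ?_⟩
  · rw [lapl_neg]; linear_combination -(G.eq n z hz)
  · simp only [neg_sq]; exact G.l2 n
  · simp only [neg_sq]; exact G.bd n

/-- integrals against test functions -/
lemma a_test (G : WHyp Ω ρ lam u) {φ : ℂ → ℝ} (hφ : Test Ω φ) (g : ℂ → ℝ) :
    ∫ z, φ z * (ρ z * g z) = ∫ z, φ z * g z ∂(area Ω ρ) := by
  have e1 := a_int G (fun z => φ z * g z) MeasurableSet.univ
  rw [Measure.restrict_univ, Set.univ_inter] at e1
  rw [e1]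
  have e2 : ∫ z, φ z * (ρ z * g z) = ∫ z in Ω, φ z * (ρ z * g z) :=
    (setIntegral_eq_integral_of_forall_compl_eq_zero fun z hz => by
      rw [image_eq_zero_of_notMem_tsupport fun h => hz (hφ.2.2.1 h), zero_mul]).symm
  rw [e2]
  congr 1; funext z; ring

/-- a compact set and a test function for a given precision -/
lemma w_layer (G : WHyp Ω ρ lam u) {η : ℝ} (η0 : 0 < η) : ∃ (K : Set ℂ) (φ : ℂ → ℝ),
    IsCompact K ∧ K ⊆ Ω ∧ Test Ω φ ∧ (∀ z ∈ K, φ z = 1) ∧ (∀ z, φ z ≤ 1) ∧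
    ∀ n, ∫ z in Kᶜ, |u n z| ∂(area Ω ρ) ≤ η * (area Ω ρ Set.univ).toReal := by
  have := a_fm G
  obtain ⟨V, hV⟩ : ∃ V : ℝ, V = (area Ω ρ Set.univ).toReal := ⟨_, rfl⟩
  have V0 : 0 < V := by rw [hV]; exact a_pos G
  obtain ⟨K, hKΩ, hK, hlt⟩ := G.oΩ.measurableSet.exists_isCompact_sdiff_lt
    (μ := area Ω ρ) (measure_ne_top _ _)
    (ε := ENNReal.ofReal (η ^ 2 * V)) (by
      rw [Ne, ENNReal.ofReal_eq_zero, not_le]; positivity)
  obtain ⟨φ, hφ, φ1, φ2⟩ := exists_cutC G.oΩ hK hKΩ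
  refine ⟨K, φ, hK, hKΩ, hφ, φ1, φ2, fun n => ?_⟩
  have hc : area Ω ρ Kᶜ ≤ area Ω ρ (Ω \ K) := by
    have : Kᶜ ⊆ (Ω \ K) ∪ Ωᶜ := fun z hz => by
      by_cases h : z ∈ Ω
      · exact Or.inl ⟨h, hz⟩
      · exact Or.inr h
    refine (measure_mono this).trans ((measure_union_le _ _).trans ?_)
    rw [a_compl G, add_zero]
  have vK : (area Ω ρ Kᶜ).toReal ≤ η ^ 2 * V :=
    ENNReal.toReal_le_of_le_ofReal (by positivity) (hc.trans hlt.le)
  have i1 := (w_int1 G n).integrableOn (s := Kᶜ)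
  have i2 := (G.l2 n).integrableOn (s := Kᶜ)
  have i3 : IntegrableOn (fun _ : ℂ => (1 : ℝ) / (2 * η)) Kᶜ (area Ω ρ) :=
    integrableOn_const (measure_ne_top _ _)
  have h1 : ∫ z in Kᶜ, |u n z| ∂(area Ω ρ) ≤
      ∫ z in Kᶜ, (1 / (2 * η) + (η / 2) * u n z ^ 2) ∂(area Ω ρ) := by
    refine integral_mono i1 (i3.add (i2.const_mul _)) fun z => ?_
    show |u n z| ≤ 1 / (2 * η) + (η / 2) * u n z ^ 2
    have h2 : 0 ≤ 1 / (2 * η) * (1 - η * |u n z|) ^ 2 := by positivity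
    have h3 : 1 / (2 * η) * (1 - η * |u n z|) ^ 2 = 1 / (2 * η) + (η / 2) * u n z ^ 2 -
        |u n z| := by
      rw [← sq_abs (u n z)]; field_simp; ring
    linarith
  refine h1.trans ?_
  rw [integral_add i3 (i2.const_mul _), integral_const_mul, setIntegral_const, smul_eq_mul]
  have h4 : ∫ z in Kᶜ, u n z ^ 2 ∂(area Ω ρ) ≤ V := by
    refine le_trans (setIntegral_le_integral (G.l2 n) (ae_of_all _ fun z => sq_nonneg _)) ?_
    rw [hV]; exact G.bd n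
  have h5 : (area Ω ρ).real Kᶜ * (1 / (2 * η)) ≤ η ^ 2 * V * (1 / (2 * η)) :=
    mul_le_mul_of_nonneg_right vK (by positivity)
  have h6 : η ^ 2 * V * (1 / (2 * η)) = η / 2 * V := by field_simp
  have h7 : η / 2 * ∫ z in Kᶜ, u n z ^ 2 ∂(area Ω ρ) ≤ η / 2 * V :=
    mul_le_mul_of_nonneg_left h4 (by positivity)
  rw [← hV]
  linarith

lemma w_mass1 (G : WHyp Ω ρ lam u) {φ : ℂ → ℝ} (hφ : Test Ω φ) (φ1 : ∀ z, φ z ≤ 1) (n : ℕ) :
    ∫ z, φ z * (ρ z * u n z ^ 2) ≤ (area Ω ρ Set.univ).toReal := by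
  refine le_trans ?_ (G.bd n)
  rw [a_test G hφ (fun z => u n z ^ 2)]
  refine integral_mono_of_nonneg (ae_of_all _ fun z => mul_nonneg (hφ.2.2.2 z) (sq_nonneg _))
    (G.l2 n) (ae_of_all _ fun z => ?_)
  show φ z * u n z ^ 2 ≤ u n z ^ 2
  nlinarith [sq_nonneg (u n z), φ1 z]

/-- the fraction of the area of `Ω` where `f` takes a value in `A` -/
def wfrac (Ω : Set ℂ) (ρ f : ℂ → ℝ) (A : Set ℝ) : ℝ :=
  (area Ω ρ {z | z ∈ Ω ∧ f z ∈ A}).toReal / (area Ω ρ Set.univ).toReal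

lemma w_law (G : WHyp Ω ρ lam u) {φ : ℂ → ℝ} (n : ℕ) {A : Set ℝ} (mA : MeasurableSet A) :
    law Ω φ ρ (u n) A = ∫ z in {z | z ∈ Ω ∧ u n z ∈ A}, φ z ∂(area Ω ρ) := by
  have mE := meas_pre G.oΩ (G.su n).continuousOn mA
  rw [a_int G φ mE]
  have : {z | z ∈ Ω ∧ u n z ∈ A} ∩ Ω = {z | z ∈ Ω ∧ u n z ∈ A} :=
    Set.inter_eq_left.2 fun z hz => hz.1
  rw [this]
  unfold law
  congr 1; funext z; ring

lemma w_law_le (G : WHyp Ω ρ lam u) {φ : ℂ → ℝ} (hφ : Test Ω φ) (φ1 : ∀ z, φ z ≤ 1) (n : ℕ)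
    {A : Set ℝ} (mA : MeasurableSet A) :
    law Ω φ ρ (u n) A ≤ (area Ω ρ Set.univ).toReal * wfrac Ω ρ (u n) A := by
  have := a_fm G
  have V0 := a_pos G
  rw [w_law G n mA]
  have e1 : (area Ω ρ Set.univ).toReal * wfrac Ω ρ (u n) A =
      ∫ z in {z | z ∈ Ω ∧ u n z ∈ A}, (1 : ℝ) ∂(area Ω ρ) := by
    rw [setIntegral_const, smul_eq_mul, mul_one]
    unfold wfrac
    rw [mul_div_cancel₀ _ V0.ne']; rfl
  rw [e1]
  exact integral_mono_of_nonneg (ae_of_all _ fun z => hφ.2.2.2 z)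
    (integrableOn_const (measure_ne_top _ _)) (ae_of_all _ φ1)

lemma w_φ (G : WHyp Ω ρ lam u) {φ : ℂ → ℝ} (hφ : Test Ω φ) : Integrable φ (area Ω ρ) := by
  have := a_fm G
  obtain ⟨C, hC⟩ := hφ.2.1.exists_bound_of_continuous hφ.1.continuous
  exact Integrable.mono' (integrable_const C) hφ.1.continuous.aestronglyMeasurable
    (ae_of_all _ hC)

/-- **Part (a) for a surface.** -/
theorem wA (G : WHyp Ω ρ lam u) {k : ℝ → ℝ} {C : ℝ} (C0 : 0 < C)
    (sk : ContDiff ℝ ∞ k) (k4 : ∀ t, t * k t ≤ 4) (k2 : ∀ t, |k t| ≤ 2)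
    (k1 : ∀ t, |1 - deriv k t| ≤ C * |t|) (k3 : ∀ t, |k t - t * deriv k t| ≤ C)
    {ε : ℝ} (ε0 : 0 < ε) :
    ∀ᶠ n in atTop, ∀ b : ℝ, 0 < b → ε ≤ b * wfrac Ω ρ (u n) (Set.Ici b) → ∀ A : Set ℝ,
      MeasurableSet A → A ⊆ Set.Ioo 0 b →
      (volume A).toReal * (b * wfrac Ω ρ (u n) (Set.Ici b)) ^ 3 ≤
        8192 * C ^ 2 * wfrac Ω ρ (u n) A := by
  have := a_fm G
  obtain ⟨V, hV⟩ : ∃ V : ℝ, V = (area Ω ρ Set.univ).toReal := ⟨_, rfl⟩
  have V0 : 0 < V := by rw [hV]; exact a_pos G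
  obtain ⟨K, φ, hK, hKΩ, hφ, φ1, φ2, tail⟩ := w_layer G (η := ε / 2) (by positivity)
  have key := halfA G.toHyp hφ (m := V) V0 (Eventually.of_forall fun n => by
    rw [hV]; exact w_mass1 G hφ φ2 n) C0 sk k4 k2 k1 k3 (ε := ε / 2 * V) (by positivity)
  filter_upwards [key] with n hn b b0 hb A mA hA
  have mE := meas_pre G.oΩ (G.su n).continuousOn (measurableSet_Ici (a := b))
  obtain ⟨x, hx⟩ : ∃ x : ℝ, x = b * wfrac Ω ρ (u n) (Set.Ici b) := ⟨_, rfl⟩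
  rw [← hx] at hb ⊢
  have lo : x * V - ε / 2 * V ≤ b * law Ω φ ρ (u n) (Set.Ici b) := by
    obtain ⟨E, hE⟩ : ∃ E : Set ℂ, E = {z | z ∈ Ω ∧ u n z ∈ Set.Ici b} := ⟨_, rfl⟩
    have e1 : x * V = ∫ z in E, b ∂(area Ω ρ) := by
      rw [setIntegral_const, smul_eq_mul, hx]
      unfold wfrac
      rw [← hE, ← hV]
      show b * ((area Ω ρ E).toReal / V) * V = (area Ω ρ E).toReal * b
      field_simp
    have e2 : b * law Ω φ ρ (u n) (Set.Ici b) = ∫ z in E, b * φ z ∂(area Ω ρ) := by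
      rw [w_law G n measurableSet_Ici, ← hE, integral_const_mul]
    have icE : IntegrableOn (fun _ : ℂ => b) E (area Ω ρ) :=
      integrableOn_const (measure_ne_top _ _)
    have iφ : IntegrableOn (fun z => b * φ z) E (area Ω ρ) := ((w_φ G hφ).const_mul b).integrableOn
    have e3 : (∫ z in E, b ∂(area Ω ρ)) - ∫ z in E, b * φ z ∂(area Ω ρ) =
        ∫ z in E, (b - b * φ z) ∂(area Ω ρ) := (integral_sub icE iφ).symm
    have mE' : MeasurableSet E := by rw [hE]; exact mE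
    have e4 : ∫ z in E, (b - b * φ z) ∂(area Ω ρ) =
        ∫ z in E ∩ Kᶜ, (b - b * φ z) ∂(area Ω ρ) := by
      refine setIntegral_eq_of_subset_of_forall_sdiff_eq_zero mE'
        Set.inter_subset_left fun z hz => ?_
      have hzK : z ∈ K := by
        by_contra hc
        exact hz.2 ⟨hz.1, hc⟩
      rw [φ1 z hzK]; ring
    have e5 : ∫ z in E ∩ Kᶜ, (b - b * φ z) ∂(area Ω ρ) ≤
        ∫ z in E ∩ Kᶜ, |u n z| ∂(area Ω ρ) := by
      refine setIntegral_mono_on ((icE.sub iφ).mono_set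
        Set.inter_subset_left) (w_int1 G n).integrableOn (mE'.inter hK.measurableSet.compl)
        fun z hz => ?_
      have h1 : b ≤ u n z := by
        have := hz.1
        rw [hE] at this
        exact this.2
      have h2 := hφ.2.2.2 z
      have h3 := le_abs_self (u n z)
      nlinarith
    have e6 : ∫ z in E ∩ Kᶜ, |u n z| ∂(area Ω ρ) ≤ ∫ z in Kᶜ, |u n z| ∂(area Ω ρ) :=
      setIntegral_mono_set (w_int1 G n).integrableOn
        (ae_of_all _ fun z => abs_nonneg _) (ae_of_all _ Set.inter_subset_right)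
    have e7 := tail n
    rw [← hV] at e7
    rw [e1, e2]
    linarith
  have x2 : x / 2 * V ≤ b * law Ω φ ρ (u n) (Set.Ici b) := by nlinarith
  have h1 := hn b b0 (by nlinarith) A mA hA
  have x0 : 0 < x := lt_of_lt_of_le ε0 hb
  have h2 : (x / 2 * V) ^ 3 ≤ (b * law Ω φ ρ (u n) (Set.Ici b)) ^ 3 :=
    pow_le_pow_left₀ (by positivity) x2 3
  have h3 := w_law_le G hφ φ2 n mA
  rw [← hV] at h3
  have h4 : (volume A).toReal * (x / 2 * V) ^ 3 ≤
      1024 * C ^ 2 * V ^ 2 * (V * wfrac Ω ρ (u n) A) :=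
    (mul_le_mul_of_nonneg_left h2 ENNReal.toReal_nonneg).trans (h1.trans
      (mul_le_mul_of_nonneg_left h3 (by positivity)))
  have h5 : V ^ 3 * ((volume A).toReal * x ^ 3) ≤
      V ^ 3 * (8192 * C ^ 2 * wfrac Ω ρ (u n) A) := by
    nlinarith
  exact le_of_mul_le_mul_left h5 (by positivity)

/-- the global means tend to zero -/
theorem wmean (G : WHyp Ω ρ lam u) :
    Tendsto (fun n => (∫ z, u n z ∂(area Ω ρ)) / (area Ω ρ Set.univ).toReal) atTop (𝓝 0) := by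
  have := a_fm G
  obtain ⟨V, hV⟩ : ∃ V : ℝ, V = (area Ω ρ Set.univ).toReal := ⟨_, rfl⟩
  have V0 : 0 < V := by rw [hV]; exact a_pos G
  rw [← hV, Metric.tendsto_atTop']
  intro ε ε0
  obtain ⟨K, φ, hK, hKΩ, hφ, φ1, φ2, tail⟩ := w_layer G (η := ε / 2) (by positivity)
  have h1 := (S2 G.toHyp hφ).abs
  rw [abs_zero] at h1
  have h2 := h1.eventually (gt_mem_nhds (by positivity : (0 : ℝ) < ε / 2 * V))
  obtain ⟨N, hN⟩ := eventually_atTop.1 h2
  refine ⟨N, fun n hn => ?_⟩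
  have h3 := hN n hn.le
  rw [a_test G hφ (fun z => u n z)] at h3
  rw [Real.dist_eq, sub_zero, abs_div, abs_of_pos V0, div_lt_iff₀ V0]
  have i1 : Integrable (fun z => u n z) (area Ω ρ) :=
    (integrable_norm_iff (u_me G n).aestronglyMeasurable).1 (w_int1 G n)
  have i2 : Integrable (fun z => φ z * u n z) (area Ω ρ) := by
    refine Integrable.mono' (w_int1 G n)
      (hφ.1.continuous.aestronglyMeasurable.mul (u_me G n).aestronglyMeasurable)
      (ae_of_all _ fun z => ?_)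
    rw [Real.norm_eq_abs, abs_mul, abs_of_nonneg (hφ.2.2.2 z)]
    have := mul_le_mul_of_nonneg_right (φ2 z) (abs_nonneg (u n z))
    linarith
  have e2 : ∫ z, u n z ∂(area Ω ρ) = (∫ z, φ z * u n z ∂(area Ω ρ)) +
      ∫ z, (u n z - φ z * u n z) ∂(area Ω ρ) := by
    rw [integral_sub i1 i2]; ring
  have e3 : ∫ z, (u n z - φ z * u n z) ∂(area Ω ρ) =
      ∫ z in Kᶜ, (u n z - φ z * u n z) ∂(area Ω ρ) := by
    refine (setIntegral_eq_integral_of_forall_compl_eq_zero fun z hz => ?_).symm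
    have hzK : z ∈ K := by
      by_contra hc
      exact hz hc
    rw [φ1 z hzK]; ring
  have e4 : |∫ z in Kᶜ, (u n z - φ z * u n z) ∂(area Ω ρ)| ≤
      ∫ z in Kᶜ, |u n z| ∂(area Ω ρ) := by
    refine (abs_integral_le_integral_abs).trans ?_
    refine integral_mono (i1.sub i2).integrableOn.abs
      (w_int1 G n).integrableOn fun z => ?_
    show |u n z - φ z * u n z| ≤ |u n z|
    have : u n z - φ z * u n z = (1 - φ z) * u n z := by ring
    rw [this, abs_mul, abs_of_nonneg (by linarith [φ2 z] : 0 ≤ 1 - φ z)]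
    have := hφ.2.2.2 z
    nlinarith [abs_nonneg (u n z)]
  have e5 := tail n
  rw [← hV] at e5
  rw [e2, e3]
  refine lt_of_le_of_lt (abs_add_le _ _) ?_
  linarith

end

end

end Pool.Agent.Y139.PD
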