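import Pool.Agent.Y139.PD.M

/-!
Project PD (helper139): limit laws of eigenfunctions on a whole surface of finite area.
-/

set_option autoImplicit false
open MeasureTheory Filter Topology Complex
open scoped ContDiff ENNReal Manifold

namespace Pool.Agent.Y139.PD

open Pool.Agent.W745.RW Pool.Agent.TH294.RS Pool.Agent.TH294.RG Pool.Agent.TH421.DF
open Pool.Agent.TH421.AC Pool.Agent.Results.MP_a52643_an.AbsoluteContinuity

noncomputable section

section

variable {Ω : Set ℂ} {ρ : ℂ → ℝ} {lam : ℕ → ℝ} {u : ℕ → ℂ → ℝ}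

/-- the normalised law -/
def wlaw (Ω : Set ℂ) (ρ f : ℂ → ℝ) : Measure ℝ :=
  ((area Ω ρ Set.univ)⁻¹ • area Ω ρ).map f

lemma w_ae (G : WHyp Ω ρ lam u) (n : ℕ) :
    AEMeasurable (u n) ((area Ω ρ Set.univ)⁻¹ • area Ω ρ) := (u_me G n).smul_measure _

lemma a_ne (G : WHyp Ω ρ lam u) : area Ω ρ Set.univ ≠ 0 := fun h => by
  have := a_pos G
  rw [h] at this
  simp at this

lemma wlaw_ap (G : WHyp Ω ρ lam u) (n : ℕ) {A : Set ℝ} (mA : MeasurableSet A) :
    (wlaw Ω ρ (u n) A).toReal = wfrac Ω ρ (u n) A := by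
  unfold wlaw wfrac
  rw [Measure.map_apply_of_aemeasurable (w_ae G n) mA, Measure.smul_apply,
    smul_eq_mul, ENNReal.toReal_mul, ENNReal.toReal_inv]
  have h1 : area Ω ρ (u n ⁻¹' A) = area Ω ρ {z | z ∈ Ω ∧ u n z ∈ A} := by
    refine le_antisymm ?_ (measure_mono fun z hz => hz.2)
    have : u n ⁻¹' A ⊆ {z | z ∈ Ω ∧ u n z ∈ A} ∪ Ωᶜ := fun z hz => by
      by_cases h : z ∈ Ω
      · exact Or.inl ⟨h, hz⟩
      · exact Or.inr h
    refine (measure_mono this).trans ((measure_union_le _ _).trans ?_)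
    rw [a_compl G, add_zero]
  rw [h1]; ring

lemma wlaw_prob (G : WHyp Ω ρ lam u) (n : ℕ) : IsProbabilityMeasure (wlaw Ω ρ (u n)) := by
  refine ⟨?_⟩
  unfold wlaw
  rw [Measure.map_apply_of_aemeasurable (w_ae G n) MeasurableSet.univ, Set.preimage_univ,
    Measure.smul_apply, smul_eq_mul]
  exact ENNReal.inv_mul_cancel (a_ne G) G.fin

lemma wlaw_int (G : WHyp Ω ρ lam u) (n : ℕ) {g : ℝ → ℝ} (cg : Continuous g) :
    ∫ x, g x ∂(wlaw Ω ρ (u n)) = (∫ z, g (u n z) ∂(area Ω ρ)) / (area Ω ρ Set.univ).toReal := by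
  unfold wlaw
  rw [integral_map (w_ae G n) cg.aestronglyMeasurable, integral_smul_measure,
    ENNReal.toReal_inv, smul_eq_mul]
  ring

lemma wlaw_integrable (G : WHyp Ω ρ lam u) (n : ℕ) {g : ℝ → ℝ} (cg : Continuous g)
    (h : Integrable (fun z => g (u n z)) (area Ω ρ)) : Integrable g (wlaw Ω ρ (u n)) := by
  unfold wlaw
  rw [integrable_map_measure cg.aestronglyMeasurable (w_ae G n)]
  exact h.smul_measure (by
    rw [Ne, ENNReal.inv_eq_top]
    exact a_ne G)

/-- the law as an element of the space of probability measures -/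
def wP (G : WHyp Ω ρ lam u) (n : ℕ) : ProbabilityMeasure ℝ := ⟨wlaw Ω ρ (u n), wlaw_prob G n⟩

/-- absolute continuity of the global limit laws off zero -/
theorem wac (G : WHyp Ω ρ lam u) {σ : ℕ → ℕ} (hσ : StrictMono σ) {ν : ProbabilityMeasure ℝ}
    (h : Tendsto (fun n => wP G (σ n)) atTop (𝓝 ν)) :
    (ν : Measure ℝ).restrict {0}ᶜ ≪ volume := by
  have := a_fm G
  obtain ⟨V, hV⟩ : ∃ V : ℝ, V = (area Ω ρ Set.univ).toReal := ⟨_, rfl⟩
  have V0 : 0 < V := by rw [hV]; exact a_pos G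
  have base : ∀ K : Set ℝ, IsCompact K → volume K = 0 → ∫ x in K, |x| ∂(ν : Measure ℝ) ≤ 0 := by
    intro K hK K0
    refine le_of_forall_pos_le_add fun δ δ0 => ?_
    rw [zero_add]
    obtain ⟨K', φ, hK', hKΩ, hφ, φ1, φ2, tail⟩ := w_layer G (η := δ / 2) (by positivity)
    obtain ⟨C, C0, hC⟩ := ac_ineq G.toHyp hφ
    obtain ⟨e, he0, heC⟩ : ∃ e : ℝ, 0 < e ∧ e * C ≤ δ / 2 * V := by
      refine ⟨(δ / 2 * V) / (C + 1), by positivity, ?_⟩
      rw [div_mul_eq_mul_div, div_le_iff₀ (by positivity)]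
      have : 0 ≤ δ / 2 * V := by positivity
      nlinarith
    have hKe : volume K < ENNReal.ofReal (e ^ 6) := by
      rw [K0]; exact ENNReal.ofReal_pos.2 (by positivity)
    obtain ⟨U, hKU, hU, hUe⟩ := K.exists_isOpen_lt_of_lt _ hKe
    obtain ⟨g, sg, cg, tg, gK, g0, g1⟩ := exists_cutR hU hK hKU
    have gint : Integrable g := sg.continuous.integrable_of_hasCompactSupport cg
    have Ufin : volume U ≠ ⊤ := ne_top_of_lt hUe
    have gle : ∫ x, |g x| ≤ e ^ 6 := by
      have e1 : ∫ x, |g x| = ∫ x in U, |g x| := by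
        refine (setIntegral_eq_integral_of_forall_compl_eq_zero fun x hx => ?_).symm
        rw [image_eq_zero_of_notMem_tsupport (fun h => hx (tg h)), abs_zero]
      rw [e1]
      have e2 : ∫ x in U, |g x| ≤ ∫ x in U, (1 : ℝ) := by
        refine setIntegral_mono_on gint.abs.integrableOn (integrableOn_const Ufin) hU.measurableSet
          fun x _ => ?_
        rw [abs_of_nonneg (g0 x)]; exact g1 x
      refine e2.trans ?_
      rw [setIntegral_const, smul_eq_mul, mul_one]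
      exact ENNReal.toReal_le_of_le_ofReal (by positivity) hUe.le
    have hPr : ∀ x, |Pr g x| ≤ e ^ 6 := by
      intro x
      have h1 := intervalIntegral.norm_integral_le_integral_norm_uIoc (f := g)
        (a := 0) (b := x) (μ := volume)
      refine h1.trans (le_trans ?_ gle)
      exact setIntegral_le_integral gint.abs (ae_of_all _ fun x => abs_nonneg _)
    have cG : Continuous (fun x => g x * |x|) := sg.continuous.mul continuous_abs
    have sG : HasCompactSupport (fun x => g x * |x|) := cg.mul_right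
    have lim := lim_bc h cG sG
    have ev : ∀ᶠ n in atTop, ∫ x, g x * |x| ∂((wP G (σ n) : ProbabilityMeasure ℝ) : Measure ℝ) ≤
        δ := by
      filter_upwards [hσ.tendsto_atTop.eventually hC] with n hn
      have h1 := hn g e sg g0 g1 he0 hPr
      have e1 : ∫ x, g x * |x| ∂((wP G (σ n) : ProbabilityMeasure ℝ) : Measure ℝ) =
          (∫ z, g (u (σ n) z) * |u (σ n) z| ∂(area Ω ρ)) / V := by
        rw [hV]; exact wlaw_int G (σ n) cG
      rw [e1, div_le_iff₀ V0]
      have ig : Integrable (fun z => g (u (σ n) z) * |u (σ n) z|) (area Ω ρ) := by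
        refine Integrable.mono' (w_int1 G (σ n))
          (cG.measurable.comp_aemeasurable (u_me G (σ n))).aestronglyMeasurable
          (ae_of_all _ fun z => ?_)
        show ‖g (u (σ n) z) * |u (σ n) z|‖ ≤ |u (σ n) z|
        rw [Real.norm_eq_abs, abs_mul, abs_abs, abs_of_nonneg (g0 _)]
        have := mul_le_mul_of_nonneg_right (g1 (u (σ n) z)) (abs_nonneg (u (σ n) z))
        linarith
      have i0 : Integrable (fun z => φ z * (g (u (σ n) z) * |u (σ n) z|)) (area Ω ρ) := by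
        refine Integrable.mono' ig (hφ.1.continuous.aestronglyMeasurable.mul
          ig.aestronglyMeasurable) (ae_of_all _ fun z => ?_)
        have a0 := mul_nonneg (g0 (u (σ n) z)) (abs_nonneg (u (σ n) z))
        rw [Real.norm_eq_abs, abs_mul, abs_of_nonneg (hφ.2.2.2 z), abs_of_nonneg a0]
        have := mul_le_mul_of_nonneg_right (φ2 z) a0
        linarith
      have e3 : ∫ z, φ z * (g (u (σ n) z) * |u (σ n) z|) ∂(area Ω ρ) =
          ∫ z, φ z * (g (u (σ n) z) * |ρ z * u (σ n) z|) := by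
        rw [← a_test G hφ (fun z => g (u (σ n) z) * |u (σ n) z|)]
        congr 1; funext z
        by_cases hz : z ∈ Ω
        · rw [abs_mul, abs_of_pos (G.pρ z hz)]; ring
        · rw [image_eq_zero_of_notMem_tsupport fun h => hz (hφ.2.2.1 h), zero_mul, zero_mul]
      have e4 : ∫ z, g (u (σ n) z) * |u (σ n) z| ∂(area Ω ρ) =
          (∫ z, φ z * (g (u (σ n) z) * |u (σ n) z|) ∂(area Ω ρ)) +
          ∫ z, (g (u (σ n) z) * |u (σ n) z| -
            φ z * (g (u (σ n) z) * |u (σ n) z|)) ∂(area Ω ρ) := by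
        rw [integral_sub ig i0]; ring
      have e5 : ∫ z, (g (u (σ n) z) * |u (σ n) z| -
            φ z * (g (u (σ n) z) * |u (σ n) z|)) ∂(area Ω ρ) =
          ∫ z in K'ᶜ, (g (u (σ n) z) * |u (σ n) z| -
            φ z * (g (u (σ n) z) * |u (σ n) z|)) ∂(area Ω ρ) := by
        refine (setIntegral_eq_integral_of_forall_compl_eq_zero fun z hz => ?_).symm
        have hzK : z ∈ K' := by
          by_contra hc
          exact hz hc
        rw [φ1 z hzK]; ring
      have e6 : ∫ z in K'ᶜ, (g (u (σ n) z) * |u (σ n) z| -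
            φ z * (g (u (σ n) z) * |u (σ n) z|)) ∂(area Ω ρ) ≤
          ∫ z in K'ᶜ, |u (σ n) z| ∂(area Ω ρ) := by
        refine integral_mono (ig.sub i0).integrableOn
          (w_int1 G (σ n)).integrableOn fun z => ?_
        show g (u (σ n) z) * |u (σ n) z| - φ z * (g (u (σ n) z) * |u (σ n) z|) ≤
          |u (σ n) z|
        have a0 := mul_nonneg (g0 (u (σ n) z)) (abs_nonneg (u (σ n) z))
        have a1 := mul_le_mul_of_nonneg_right (g1 (u (σ n) z)) (abs_nonneg (u (σ n) z))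
        have a2 := mul_nonneg (hφ.2.2.2 z) a0
        linarith
      have e7 := tail (σ n)
      rw [← hV] at e7
      rw [e4, e5, e3]
      linarith
    have fin : ∫ x, g x * |x| ∂(ν : Measure ℝ) ≤ δ := le_of_tendsto lim ev
    refine le_trans ?_ fin
    have i1 : Integrable (fun x => g x * |x|) (ν : Measure ℝ) :=
      cG.integrable_of_hasCompactSupport sG
    have e4 : ∫ x in K, |x| ∂(ν : Measure ℝ) = ∫ x in K, g x * |x| ∂(ν : Measure ℝ) :=
      setIntegral_congr_fun hK.measurableSet fun x hx => by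
        show |x| = g x * |x|
        rw [gK x hx, one_mul]
    rw [e4]
    exact setIntegral_le_integral i1 (ae_of_all _ fun x => mul_nonneg (g0 x) (abs_nonneg x))
  intro s hs
  obtain ⟨t, hst, tm, t0⟩ := exists_measurable_superset_of_null hs
  rw [Measure.restrict_apply₀' (measurableSet_singleton (0 : ℝ)).compl.nullMeasurableSet]
  have tk : ∀ k : ℕ, (ν : Measure ℝ) (t ∩ {x | 1 / ((k : ℝ) + 1) ≤ |x|}) = 0 := by
    intro k
    by_contra hne
    have mt : MeasurableSet (t ∩ {x | 1 / ((k : ℝ) + 1) ≤ |x|}) :=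
      tm.inter (measurableSet_le measurable_const continuous_abs.measurable)
    obtain ⟨K, hKt, hK, hKpos⟩ := mt.exists_lt_isCompact (pos_iff_ne_zero.2 hne)
    have K0 : volume K = 0 := measure_mono_null (hKt.trans Set.inter_subset_left) t0
    have Kr : 0 < ((ν : Measure ℝ) K).toReal :=
      ENNReal.toReal_pos hKpos.ne' (measure_ne_top (ν : Measure ℝ) K)
    have low : 1 / ((k : ℝ) + 1) * ((ν : Measure ℝ) K).toReal ≤
        ∫ x in K, |x| ∂(ν : Measure ℝ) := by
      have e1 : ∫ _ in K, (1 / ((k : ℝ) + 1)) ∂(ν : Measure ℝ) =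
          1 / ((k : ℝ) + 1) * ((ν : Measure ℝ) K).toReal := by
        rw [setIntegral_const, smul_eq_mul, mul_comm]; rfl
      rw [← e1]
      refine setIntegral_mono_on (integrableOn_const (measure_ne_top (ν : Measure ℝ) K))
        (continuous_abs.continuousOn.integrableOn_compact hK) hK.measurableSet fun x hx => ?_
      exact (hKt hx).2
    have kp : 0 < 1 / ((k : ℝ) + 1) * ((ν : Measure ℝ) K).toReal := by positivity
    have := base K hK K0
    linarith
  refine measure_mono_null (t := ⋃ k : ℕ, t ∩ {x | 1 / ((k : ℝ) + 1) ≤ |x|}) ?_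
    (measure_iUnion_null tk)
  intro x hx
  have x0 : x ≠ 0 := hx.2
  obtain ⟨k, hk⟩ := exists_nat_one_div_lt (abs_pos.2 x0)
  exact Set.mem_iUnion.2 ⟨k, hst hx.1, hk.le⟩

end

/-- the values beyond `b`, seen from zero -/
def Bey (b : ℝ) : Set ℝ := {t | b ∈ Set.uIcc 0 t}

lemma Bey_pos {b : ℝ} (hb : 0 < b) : Bey b = Set.Ici b := by
  ext t
  show b ∈ Set.uIcc 0 t ↔ b ≤ t
  constructor
  · intro h
    rcases le_total 0 t with ht | ht
    · rw [Set.uIcc_of_le ht] at h; exact h.2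
    · rw [Set.uIcc_of_ge ht] at h
      exact absurd h.2 (not_le.2 hb)
  · intro h
    rw [Set.uIcc_of_le (hb.le.trans h)]
    exact ⟨hb.le, h⟩

lemma Bey_neg {b : ℝ} (hb : b < 0) : Bey b = Set.Iic b := by
  ext t
  show b ∈ Set.uIcc 0 t ↔ t ≤ b
  constructor
  · intro h
    rcases le_total 0 t with ht | ht
    · rw [Set.uIcc_of_le ht] at h
      exact absurd h.1 (not_le.2 hb)
    · rw [Set.uIcc_of_ge ht] at h; exact h.1
  · intro h
    rw [Set.uIcc_of_ge (h.trans hb.le)]
    exact ⟨h, hb.le⟩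

/-- weak limits of the laws of `u n` for the normalised area -/
def WLim (Ω : Set ℂ) (ρ : ℂ → ℝ) (u : ℕ → ℂ → ℝ) (ν : Measure ℝ) : Prop :=
  ∃ σ : ℕ → ℕ, StrictMono σ ∧ ∀ g : ℝ → ℝ, Continuous g → (∃ M, ∀ x, |g x| ≤ M) →
    Tendsto (fun n => (∫ z, g (u (σ n) z) ∂(area Ω ρ)) / (area Ω ρ Set.univ).toReal) atTop
      (𝓝 (∫ x, g x ∂ν))

lemma wlim_neg {Ω : Set ℂ} {ρ : ℂ → ℝ} {u : ℕ → ℂ → ℝ} {ν : Measure ℝ} (h : WLim Ω ρ u ν) :
    WLim Ω ρ (fun n z => -u n z) (refl ν) := by
  obtain ⟨σ, hσ, hg⟩ := h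
  refine ⟨σ, hσ, fun g cg bg => ?_⟩
  obtain ⟨M, hM⟩ := bg
  have h1 := hg (fun t => g (-t)) (cg.comp continuous_neg) ⟨M, fun x => hM _⟩
  have e : ∫ x, g x ∂(refl ν) = ∫ x, g (-x) ∂ν :=
    integral_map_equiv (MeasurableEquiv.neg ℝ) g
  rw [e]
  exact h1

lemma wlim_tendsto {Ω : Set ℂ} {ρ : ℂ → ℝ} {lam : ℕ → ℝ} {u : ℕ → ℂ → ℝ}
    (G : WHyp Ω ρ lam u) {ν : Measure ℝ} (hp : IsProbabilityMeasure ν) {σ : ℕ → ℕ}
    (h : ∀ g : ℝ → ℝ, Continuous g → (∃ M, ∀ x, |g x| ≤ M) →
      Tendsto (fun n => (∫ z, g (u (σ n) z) ∂(area Ω ρ)) / (area Ω ρ Set.univ).toReal) atTop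
        (𝓝 (∫ x, g x ∂ν))) :
    Tendsto (fun n => wP G (σ n)) atTop (𝓝 (⟨ν, hp⟩ : ProbabilityMeasure ℝ)) := by
  rw [ProbabilityMeasure.tendsto_iff_forall_integral_tendsto]
  intro g
  have h1 := h g g.continuous ⟨‖g‖, fun x => g.norm_coe_le_norm x⟩
  refine h1.congr fun n => ?_
  exact (wlaw_int G (σ n) g.continuous).symm

/-- **The value distribution of eigenfunctions on surfaces of finite area.** -/
theorem wmain : ∃ C : ℝ, ∀ (Ω : Set ℂ) (ρ : ℂ → ℝ) (lam : ℕ → ℝ) (u : ℕ → ℂ → ℝ),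
    WHyp Ω ρ lam u →
      (∀ ε : ℝ, 0 < ε → ∀ᶠ n in atTop, ∀ (b : ℝ) (A : Set ℝ), MeasurableSet A →
        A ⊆ Set.uIoo 0 b → ε ≤ |b| * wfrac Ω ρ (u n) (Bey b) →
        (volume A).toReal * (|b| * wfrac Ω ρ (u n) (Bey b)) ^ 3 ≤
          C * wfrac Ω ρ (u n) A) ∧
      ∀ ν : Measure ℝ, IsProbabilityMeasure ν → WLim Ω ρ u ν →
        (Integrable (fun x => x ^ 2) ν ∧ ∫ x, x ^ 2 ∂ν ≤ 1 ∧ ∫ x, x ∂ν = 0) ∧
        (∀ (b : ℝ) (A : Set ℝ), MeasurableSet A → A ⊆ Set.uIoo 0 b →
          (volume A).toReal * (|b| * (ν (Bey b)).toReal) ^ 3 ≤ C * (ν A).toReal) ∧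
        (ν {0} = 1 ∨ ∃ J : Set ℝ, IsOpen J ∧ J.OrdConnected ∧ (0 : ℝ) ∈ J ∧
          ν.restrict {0}ᶜ ≪ volume.restrict J ∧ volume.restrict J ≪ ν.restrict {0}ᶜ) := by
  obtain ⟨k, C, C0, sk, k4, k2, k1, k3⟩ := exists_cut
  refine ⟨8192 * C ^ 2, ?_⟩
  intro Ω ρ lam u G
  have G' := G.neg
  have V0 := a_pos G
  have D0 : (0 : ℝ) ≤ 8192 * C ^ 2 := by positivity
  have uo : ∀ {b : ℝ}, 0 < b → Set.uIoo 0 b = Set.Ioo 0 b := fun hb => Set.uIoo_of_lt hb
  have un : ∀ {b : ℝ}, b < 0 → Set.uIoo 0 b = Set.Ioo b 0 := fun hb => Set.uIoo_of_gt hb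
  refine ⟨fun ε ε0 => ?_, fun ν hν hlim => ?_⟩
  · filter_upwards [wA G C0 sk k4 k2 k1 k3 ε0, wA G' C0 sk k4 k2 k1 k3 ε0] with n p1 p2 b A mA hA hb
    rcases lt_trichotomy b 0 with h | h | h
    · rw [Bey_neg h, abs_of_neg h] at hb ⊢
      rw [un h] at hA
      have e1 : wfrac Ω ρ (fun z => -u n z) (Set.Ici (-b)) =
          wfrac Ω ρ (u n) (Set.Iic b) := by
        unfold wfrac
        have : {z | z ∈ Ω ∧ -u n z ∈ Set.Ici (-b)} = {z | z ∈ Ω ∧ u n z ∈ Set.Iic b} := by
          ext z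
          show (z ∈ Ω ∧ -b ≤ -u n z) ↔ (z ∈ Ω ∧ u n z ≤ b)
          rw [neg_le_neg_iff]
        rw [this]
      have e2 : wfrac Ω ρ (fun z => -u n z) {t | -t ∈ A} =
          wfrac Ω ρ (u n) A := by
        unfold wfrac
        have : {z | z ∈ Ω ∧ -u n z ∈ {t | -t ∈ A}} = {z | z ∈ Ω ∧ u n z ∈ A} := by
          ext z
          show (z ∈ Ω ∧ - -u n z ∈ A) ↔ (z ∈ Ω ∧ u n z ∈ A)
          rw [neg_neg]
        rw [this]
      have q := p2 (-b) (by linarith) (by rw [e1]; exact hb) {t | -t ∈ A} (measurable_neg mA)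
        (fun t ht => by
          have := hA ht
          exact ⟨by linarith [this.2], by linarith [this.1]⟩)
      rw [e1, e2, vol_neg] at q
      exact q
    · rw [h, abs_zero, zero_mul] at hb
      linarith
    · rw [Bey_pos h, abs_of_pos h] at hb ⊢
      rw [uo h] at hA
      exact p1 b h hb A mA hA
  · obtain ⟨σ, hσ, hg⟩ := hlim
    obtain ⟨σ', hσ', hg'⟩ := wlim_neg ⟨σ, hσ, hg⟩
    have hν' : IsProbabilityMeasure (refl ν) := ⟨by
      rw [refl_ap]
      exact hν.measure_univ⟩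
    have T1 := wlim_tendsto G hν hg
    have T2 := wlim_tendsto G' hν' hg'
    have posi : ∀ b, 0 < b → ∀ A, MeasurableSet A → A ⊆ Set.Ioo 0 b →
        (volume A).toReal * (b * (ν (Set.Ici b)).toReal) ^ 3 ≤
          8192 * C ^ 2 * (ν A).toReal := by
      intro b b0 A mA hA
      refine passA T1 (fun ε ε0 => ?_) D0 b0 mA hA
      filter_upwards [hσ.tendsto_atTop.eventually (wA G C0 sk k4 k2 k1 k3 ε0)] with
        n hn b b0 hb A mA hA
      have e1 : ((wP G (σ n) : ProbabilityMeasure ℝ) : Measure ℝ) = wlaw Ω ρ (u (σ n)) := rfl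
      rw [e1, wlaw_ap G (σ n) measurableSet_Ici] at hb ⊢
      rw [wlaw_ap G (σ n) mA]
      exact hn b b0 hb A mA hA
    have nega : ∀ b, 0 < b → ∀ A, MeasurableSet A → A ⊆ Set.Ioo 0 b →
        (volume A).toReal * (b * (refl ν (Set.Ici b)).toReal) ^ 3 ≤
          8192 * C ^ 2 * (refl ν A).toReal := by
      intro b b0 A mA hA
      refine passA T2 (fun ε ε0 => ?_) D0 b0 mA hA
      filter_upwards [hσ'.tendsto_atTop.eventually (wA G' C0 sk k4 k2 k1 k3 ε0)] with
        n hn b b0 hb A mA hA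
      have e1 : ((wP G' (σ' n) : ProbabilityMeasure ℝ) : Measure ℝ) =
          wlaw Ω ρ (fun z => -u (σ' n) z) := rfl
      rw [e1, wlaw_ap G' (σ' n) measurableSet_Ici] at hb ⊢
      rw [wlaw_ap G' (σ' n) mA]
      exact hn b b0 hb A mA hA
    have mm := mean' T1 (m := 1) (fun n => wlaw_integrable G (σ n) (continuous_pow 2)
      (G.l2 (σ n))) (fun n => by
        have e1 : ∫ x, x ^ 2 ∂((wP G (σ n) : ProbabilityMeasure ℝ) : Measure ℝ) =
          (∫ z, u (σ n) z ^ 2 ∂(area Ω ρ)) / (area Ω ρ Set.univ).toReal :=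
          wlaw_int G (σ n) (continuous_pow 2)
        rw [e1, div_le_one V0]
        exact G.bd (σ n)) (by
        refine ((wmean G).comp hσ.tendsto_atTop).congr fun n => ?_
        exact (wlaw_int G (σ n) continuous_id).symm)
    obtain ⟨m1, m2, m3, m4⟩ := mm
    have ac := wac G hσ T1
    refine ⟨⟨m1, m2, m4⟩, fun b A mA hA => ?_, ?_⟩
    · rcases lt_trichotomy b 0 with h | h | h
      · rw [Bey_neg h, abs_of_neg h]
        rw [un h] at hA
        have q := nega (-b) (by linarith) {t | -t ∈ A} (measurable_neg mA) (fun t ht => by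
            have := hA ht
            exact ⟨by linarith [this.2], by linarith [this.1]⟩)
        rw [refl_Ici, neg_neg, vol_neg, refl_ap] at q
        have e2 : {t : ℝ | -t ∈ {t | -t ∈ A}} = A := by
          ext t
          show - -t ∈ A ↔ t ∈ A
          rw [neg_neg]
        rw [e2] at q
        exact q
      · rw [h, abs_zero, zero_mul]
        have : 0 ≤ 8192 * C ^ 2 * (ν A).toReal := by positivity
        simpa using this
      · rw [Bey_pos h, abs_of_pos h]
        rw [uo h] at hA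
        exact posi b h A mA hA
    · have up : ∀ {μ : Measure ℝ}, IsFiniteMeasure μ →
          (∀ b, 0 < b → ∀ A, MeasurableSet A → A ⊆ Set.Ioo 0 b →
            (volume A).toReal * (b * (μ (Set.Ici b)).toReal) ^ 3 ≤
              8192 * C ^ 2 * (μ A).toReal) →
          ∀ b, 0 < b → ∀ A, A ⊆ Set.Ioo 0 b →
            (volume A).toReal * (b * (μ (Set.Ici b)).toReal) ^ 3 ≤
              8192 * C ^ 2 * (μ A).toReal := by
        intro μ hμ hh b b0 A hA
        have q := hh b b0 (toMeasurable μ A ∩ Set.Ioo 0 b)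
          ((measurableSet_toMeasurable μ A).inter measurableSet_Ioo) Set.inter_subset_right
        have q1 : volume A ≤ volume (toMeasurable μ A ∩ Set.Ioo 0 b) :=
          measure_mono (Set.subset_inter (subset_toMeasurable μ A) hA)
        have q2 : volume (toMeasurable μ A ∩ Set.Ioo 0 b) ≠ ⊤ :=
          ne_top_of_le_ne_top (by simp) (measure_mono Set.inter_subset_right :
            volume (toMeasurable μ A ∩ Set.Ioo 0 b) ≤ volume (Set.Ioo 0 b))
        have q3 : μ (toMeasurable μ A ∩ Set.Ioo 0 b) ≤ μ A :=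
          (measure_mono Set.inter_subset_left).trans (measure_toMeasurable A).le
        have y0 : 0 ≤ (b * (μ (Set.Ici b)).toReal) ^ 3 :=
          pow_nonneg (mul_nonneg b0.le ENNReal.toReal_nonneg) 3
        exact (mul_le_mul_of_nonneg_right (ENNReal.toReal_mono q2 q1) y0).trans
          (q.trans (mul_le_mul_of_nonneg_left
            (ENNReal.toReal_mono (measure_ne_top μ A) q3) D0))
      rcases shape ac m3 m4 (up inferInstance posi) (up inferInstance nega) with h | h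
      · left
        have := prob_compl_eq_zero_iff (μ := ν) (measurableSet_singleton (0 : ℝ))
        exact this.1 h
      · exact Or.inr h

end

end Pool.Agent.Y139.PD
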