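import Pool.Agent.Y139.PD.N

/-!
Project PD (helper139): the theorem for surfaces with the weaker normalisation
`∫ u² ≤ M · area` for all large `n`.
-/

set_option autoImplicit false
open MeasureTheory Filter Topology Complex
open scoped ContDiff ENNReal Manifold

namespace Pool.Agent.Y139.PD

open Pool.Agent.Results.MP_a52643_an.AbsoluteContinuity

noncomputable section

variable {Ω : Set ℂ} {ρ : ℂ → ℝ} {lam : ℕ → ℝ} {u : ℕ → ℂ → ℝ}

lemma area_const_mul {f : ℂ → ℝ} {c : ℝ} : ∫ z, (c * f z) ^ 2 ∂(area Ω ρ) =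
    c ^ 2 * ∫ z, f z ^ 2 ∂(area Ω ρ) := by
  rw [← integral_const_mul]
  congr 1
  funext z
  ring

lemma lapl_cmul {f : ℂ → ℝ} (oΩ : IsOpen Ω) (sf : ContDiffOn ℝ ∞ f Ω) {z : ℂ} (hz : z ∈ Ω) (c : ℝ) :
    lapl (fun w => c * f w) z = c * lapl f z := by
  have e : ∀ v : ℂ, (fun w => fderiv ℝ (fun w => c * f w) w v) =ᶠ[𝓝 z]
      fun w => c * fderiv ℝ f w v := by
    intro v
    filter_upwards [oΩ.mem_nhds hz] with w hw
    have : DifferentiableAt ℝ f w := (sf.contDiffAt (oΩ.mem_nhds hw)).differentiableAt (by simp)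
    rw [fderiv_const_mul this]
    rfl
  have d2 : ∀ v : ℂ, DifferentiableAt ℝ (fun w => fderiv ℝ f w v) z := fun v =>
    (((sf.contDiffAt (oΩ.mem_nhds hz)).fderiv_right (m := ∞) (by simp)).differentiableAt
      (by simp)).clm_apply (differentiableAt_const v)
  unfold lapl
  rw [(e 1).fderiv_eq, (e I).fderiv_eq, fderiv_const_mul (d2 1), fderiv_const_mul (d2 I)]
  simp only [smul_apply, smul_eq_mul]
  ring

lemma lapl_zero (z : ℂ) : lapl (fun _ => (0 : ℝ)) z = 0 := by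
  unfold lapl
  simp

/-- the normalised, truncated sequence -/
def vv (Ω : Set ℂ) (ρ : ℂ → ℝ) (u : ℕ → ℂ → ℝ) (M : ℝ) (n : ℕ) : ℂ → ℝ :=
  open Classical in
  if Integrable (fun z => u n z ^ 2) (area Ω ρ) ∧
    ∫ z, u n z ^ 2 ∂(area Ω ρ) ≤ M * (area Ω ρ Set.univ).toReal then fun z => (√M)⁻¹ * u n z
  else fun _ => 0

lemma vv_hyp {M : ℝ} (M0 : 0 < M) (oΩ : IsOpen Ω) (ne : Ω.Nonempty) (sρ : ContDiffOn ℝ ∞ ρ Ω)
    (pρ : ∀ z ∈ Ω, 0 < ρ z) (fin : area Ω ρ Set.univ ≠ ⊤) (ll : Tendsto lam atTop atTop)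
    (su : ∀ n, ContDiffOn ℝ ∞ (u n) Ω) (eq : ∀ n, ∀ z ∈ Ω, lapl (u n) z + lam n * (ρ z * u n z) = 0) :
    WHyp Ω ρ lam (vv Ω ρ u M) := by
  have s0 : 0 < √M := Real.sqrt_pos.2 M0
  have s2 : √M ^ 2 = M := Real.sq_sqrt M0.le
  refine ⟨oΩ, ne, sρ, pρ, fin, ll, fun n => ?_, fun n z hz => ?_, fun n => ?_, fun n => ?_⟩
  · unfold vv
    split_ifs
    · exact contDiffOn_const.mul (su n)
    · exact contDiffOn_const
  · unfold vv
    split_ifs
    · rw [lapl_cmul oΩ (su n) hz]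
      linear_combination (√M)⁻¹ * eq n z hz
    · rw [lapl_zero]; ring
  · unfold vv
    split_ifs with h
    · exact (h.1.const_mul ((√M)⁻¹ ^ 2)).congr (ae_of_all _ fun z => by ring)
    · simp
  · unfold vv
    split_ifs with h
    · rw [area_const_mul, inv_pow, s2]
      rw [inv_mul_le_iff₀ M0]
      exact h.2
    · simp

lemma bey_scale {s b t : ℝ} (s0 : 0 < s) : s⁻¹ * t ∈ Bey (b / s) ↔ t ∈ Bey b := by
  have e1 : s⁻¹ * t = t / s := by rw [div_eq_inv_mul]
  rw [e1]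
  rcases lt_trichotomy b 0 with h | h | h
  · rw [Bey_neg h, Bey_neg (div_neg_of_neg_of_pos h s0)]
    exact div_le_div_iff_of_pos_right s0
  · rw [h, zero_div]
    show (0 : ℝ) ∈ Set.uIcc 0 (t / s) ↔ (0 : ℝ) ∈ Set.uIcc 0 t
    exact ⟨fun _ => Set.left_mem_uIcc, fun _ => Set.left_mem_uIcc⟩
  · rw [Bey_pos h, Bey_pos (div_pos h s0)]
    exact div_le_div_iff_of_pos_right s0

lemma pre_scale {s b : ℝ} (s0 : 0 < s) {A : Set ℝ} (hA : A ⊆ Set.uIoo 0 b) :
    (fun x => s * x) ⁻¹' A ⊆ Set.uIoo 0 (b / s) := by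
  intro x hx
  have h1 := hA (show s * x ∈ A from hx)
  rcases lt_trichotomy b 0 with h | h | h
  · rw [Set.uIoo_of_gt h] at h1
    rw [Set.uIoo_of_gt (div_neg_of_neg_of_pos h s0)]
    refine ⟨?_, ?_⟩
    · rw [div_lt_iff₀ s0]; linarith [h1.1]
    · by_contra h2
      have := mul_nonneg s0.le (not_lt.1 h2)
      linarith [h1.2]
  · rw [h, Set.uIoo_self] at h1
    exact absurd h1 (Set.notMem_empty _)
  · rw [Set.uIoo_of_lt h] at h1
    rw [Set.uIoo_of_lt (div_pos h s0)]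
    refine ⟨?_, ?_⟩
    · by_contra h2
      have := mul_nonpos_of_nonneg_of_nonpos s0.le (not_lt.1 h2)
      linarith [h1.1]
    · rw [lt_div_iff₀ s0]; linarith [h1.2]

lemma inv_scale {s t : ℝ} (s0 : 0 < s) : s * (s⁻¹ * t) = t := by
  rw [← mul_assoc, mul_inv_cancel₀ s0.ne', one_mul]

lemma vol_scale {s : ℝ} (s0 : 0 < s) (A : Set ℝ) :
    (volume ((fun x => s * x) ⁻¹' A)).toReal = (volume A).toReal / s := by
  rw [Real.volume_preimage_mul_left s0.ne', ENNReal.toReal_mul,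
    ENNReal.toReal_ofReal (abs_nonneg _), abs_of_pos (inv_pos.2 s0)]
  rw [div_eq_inv_mul]

/-- **The value distribution, for `∫ u² ≤ M · area` eventually.** -/
theorem wmainM : ∃ C : ℝ, ∀ (M : ℝ) (Ω : Set ℂ) (ρ : ℂ → ℝ) (lam : ℕ → ℝ) (u : ℕ → ℂ → ℝ),
    0 < M → IsOpen Ω → Ω.Nonempty → ContDiffOn ℝ ∞ ρ Ω → (∀ z ∈ Ω, 0 < ρ z) →
    area Ω ρ Set.univ ≠ ⊤ → Tendsto lam atTop atTop → (∀ n, ContDiffOn ℝ ∞ (u n) Ω) →
    (∀ n, ∀ z ∈ Ω, lapl (u n) z + lam n * (ρ z * u n z) = 0) →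
    (∀ᶠ n in atTop, Integrable (fun z => u n z ^ 2) (area Ω ρ) ∧
      ∫ z, u n z ^ 2 ∂(area Ω ρ) ≤ M * (area Ω ρ Set.univ).toReal) →
      (∀ ε : ℝ, 0 < ε → ∀ᶠ n in atTop, ∀ (b : ℝ) (A : Set ℝ), MeasurableSet A →
        A ⊆ Set.uIoo 0 b → ε ≤ |b| * wfrac Ω ρ (u n) (Bey b) →
        (volume A).toReal * (|b| * wfrac Ω ρ (u n) (Bey b)) ^ 3 ≤
          C * M ^ 2 * wfrac Ω ρ (u n) A) ∧
      ∀ ν : Measure ℝ, IsProbabilityMeasure ν → WLim Ω ρ u ν →
        (Integrable (fun x => x ^ 2) ν ∧ ∫ x, x ^ 2 ∂ν ≤ M ∧ ∫ x, x ∂ν = 0) ∧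
        (∀ (b : ℝ) (A : Set ℝ), MeasurableSet A → A ⊆ Set.uIoo 0 b →
          (volume A).toReal * (|b| * (ν (Bey b)).toReal) ^ 3 ≤ C * M ^ 2 * (ν A).toReal) ∧
        (ν {0} = 1 ∨ ∃ J : Set ℝ, IsOpen J ∧ J.OrdConnected ∧ (0 : ℝ) ∈ J ∧
          ν.restrict {0}ᶜ ≪ volume.restrict J ∧ volume.restrict J ≪ ν.restrict {0}ᶜ) := by
  obtain ⟨C, hC⟩ := wmain
  refine ⟨C, fun M Ω ρ lam u M0 oΩ ne sρ pρ fin ll su eq hev => ?_⟩
  have W := vv_hyp M0 oΩ ne sρ pρ fin ll su eq
  obtain ⟨m1, m2⟩ := hC Ω ρ lam (vv Ω ρ u M) W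
  have ev : ∀ᶠ n in atTop, vv Ω ρ u M n = fun z => (√M)⁻¹ * u n z := by
    filter_upwards [hev] with n hn
    unfold vv
    rw [if_pos hn]
  obtain ⟨s, hs⟩ : ∃ s, s = √M := ⟨_, rfl⟩
  have s0 : 0 < s := by rw [hs]; exact Real.sqrt_pos.2 M0
  have s2 : s ^ 2 = M := by rw [hs]; exact Real.sq_sqrt M0.le
  rw [← hs] at ev
  have f1 : ∀ (f : ℂ → ℝ) (b : ℝ), wfrac Ω ρ (fun z => s⁻¹ * f z) (Bey (b / s)) =
      wfrac Ω ρ f (Bey b) := by
    intro f b
    unfold wfrac
    simp only [bey_scale s0]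
  have f2 : ∀ (f : ℂ → ℝ) (A : Set ℝ), wfrac Ω ρ (fun z => s⁻¹ * f z) ((fun x => s * x) ⁻¹' A) =
      wfrac Ω ρ f A := by
    intro f A
    unfold wfrac
    simp only [Set.mem_preimage, inv_scale s0]
  have alg : ∀ (V b w r : ℝ), V / s * (|b / s| * w) ^ 3 ≤ C * r →
      V * (|b| * w) ^ 3 ≤ C * M ^ 2 * r := by
    intro V b w r h
    rw [abs_div, abs_of_pos s0] at h
    have e : V / s * (|b| / s * w) ^ 3 = V * (|b| * w) ^ 3 / M ^ 2 := by
      rw [← s2]; field_simp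
    rw [e, div_le_iff₀ (by positivity)] at h
    linarith
  refine ⟨fun ε ε0 => ?_, fun ν hν hlim => ?_⟩
  · filter_upwards [m1 (ε / s) (div_pos ε0 s0), ev] with n hn he b A mA hA hb
    have q := hn (b / s) ((fun x => s * x) ⁻¹' A) (measurable_const_mul s mA) (pre_scale s0 hA)
    rw [he, f1, f2, vol_scale s0] at q
    refine alg _ _ _ _ (q ?_)
    rw [abs_div, abs_of_pos s0, div_mul_eq_mul_div]
    exact div_le_div_of_nonneg_right hb s0.le
  · obtain ⟨σ, hσ, hg⟩ := hlim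
    have mm : Measurable (fun x : ℝ => s⁻¹ * x) := measurable_const_mul s⁻¹
    have me : ∀ {B : Set ℝ}, MeasurableSet B → ν.map (fun x => s⁻¹ * x) B =
        ν ((fun x => s⁻¹ * x) ⁻¹' B) := fun mB => Measure.map_apply mm mB
    have hν' : IsProbabilityMeasure (ν.map (fun x => s⁻¹ * x)) :=
      Measure.isProbabilityMeasure_map mm.aemeasurable
    have hw : WLim Ω ρ (vv Ω ρ u M) (ν.map (fun x => s⁻¹ * x)) := by
      refine ⟨σ, hσ, fun g cg bg => ?_⟩
      obtain ⟨K, hK⟩ := bg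
      have h1 := hg (fun x => g (s⁻¹ * x)) (cg.comp (continuous_const.mul continuous_id))
        ⟨K, fun x => hK _⟩
      rw [integral_map mm.aemeasurable cg.aestronglyMeasurable]
      refine h1.congr' ?_
      filter_upwards [hσ.tendsto_atTop.eventually ev] with n hn
      rw [hn]
    obtain ⟨⟨i1, i2, i3⟩, iq, ish⟩ := m2 _ hν' hw
    have bm : ∀ b : ℝ, MeasurableSet (Bey b) := by
      intro b
      rcases lt_trichotomy b 0 with h | h | h
      · rw [Bey_neg h]; exact measurableSet_Iic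
      · have : Bey b = Set.univ := by
          ext t
          rw [h]
          exact ⟨fun _ => trivial, fun _ => Set.left_mem_uIcc⟩
        rw [this]; exact MeasurableSet.univ
      · rw [Bey_pos h]; exact measurableSet_Ici
    refine ⟨⟨?_, ?_, ?_⟩, fun b A mA hA => ?_, ?_⟩
    · have h1 := (integrable_map_measure (continuous_pow 2).aestronglyMeasurable
        mm.aemeasurable).1 i1
      refine (h1.const_mul (s ^ 2)).congr (ae_of_all _ fun x => ?_)
      show s ^ 2 * (s⁻¹ * x) ^ 2 = x ^ 2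
      field_simp
    · rw [integral_map mm.aemeasurable (continuous_pow 2).aestronglyMeasurable] at i2
      have e : ∫ x, (s⁻¹ * x) ^ 2 ∂ν = (s ^ 2)⁻¹ * ∫ x, x ^ 2 ∂ν := by
        rw [← integral_const_mul]
        congr 1
        funext x
        ring
      rw [e, s2, inv_mul_le_iff₀ M0, mul_one] at i2
      exact i2
    · have e : ∫ x, x ∂(ν.map (fun x => s⁻¹ * x)) = ∫ x, s⁻¹ * x ∂ν :=
        integral_map (f := fun x => x) mm.aemeasurable continuous_id.aestronglyMeasurable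
      rw [e, integral_const_mul] at i3
      exact (mul_eq_zero.1 i3).resolve_left (inv_ne_zero s0.ne')
    · have q := iq (b / s) ((fun x => s * x) ⁻¹' A) (measurable_const_mul s mA) (pre_scale s0 hA)
      rw [me (bm _), me (measurable_const_mul s mA), vol_scale s0] at q
      have e1 : (fun x => s⁻¹ * x) ⁻¹' (Bey (b / s)) = Bey b := by
        ext x
        exact bey_scale s0
      have e2 : (fun x => s⁻¹ * x) ⁻¹' ((fun x => s * x) ⁻¹' A) = A := by
        ext x
        show s * (s⁻¹ * x) ∈ A ↔ x ∈ A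
        rw [inv_scale s0]
      rw [e1, e2] at q
      exact alg _ _ _ _ q
    · rcases ish with h | ⟨J, oJ, cJ, z0, a1, a2⟩
      · left
        rw [me (measurableSet_singleton 0)] at h
        have e : (fun x => s⁻¹ * x) ⁻¹' ({0} : Set ℝ) = {0} := by
          ext x
          simp [s0.ne']
        rw [e] at h
        exact h
      · right
        have cm : Continuous (fun x : ℝ => s⁻¹ * x) := continuous_const.mul continuous_id
        have cs : Continuous (fun x : ℝ => s * x) := continuous_const.mul continuous_id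
        refine ⟨(fun x => s⁻¹ * x) ⁻¹' J, oJ.preimage cm, ?_, ?_, ?_, ?_⟩
        · exact cJ.preimage_mono (fun x y h => mul_le_mul_of_nonneg_left h (inv_pos.2 s0).le)
        · show s⁻¹ * 0 ∈ J
          rw [mul_zero]; exact z0
        · refine Measure.AbsolutelyContinuous.mk fun N mN hN => ?_
          rw [Measure.restrict_apply mN] at hN ⊢
          have mN' : MeasurableSet ((fun x => s * x) ⁻¹' N) := measurable_const_mul s mN
          have h1 : (volume.restrict J) ((fun x => s * x) ⁻¹' N) = 0 := by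
            rw [Measure.restrict_apply mN']
            have e : (fun x => s * x) ⁻¹' N ∩ J =
                (fun x => s * x) ⁻¹' (N ∩ (fun x => s⁻¹ * x) ⁻¹' J) := by
              ext x
              show s * x ∈ N ∧ x ∈ J ↔ s * x ∈ N ∧ s⁻¹ * (s * x) ∈ J
              rw [← mul_assoc, inv_mul_cancel₀ s0.ne', one_mul]
            rw [e, Real.volume_preimage_mul_left s0.ne', hN, mul_zero]
          have h2 := a1 h1
          rw [Measure.restrict_apply mN', me (mN'.inter (measurableSet_singleton 0).compl)] at h2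
          have e : (fun x => s⁻¹ * x) ⁻¹' ((fun x => s * x) ⁻¹' N ∩ {0}ᶜ) = N ∩ {0}ᶜ := by
            ext x
            show s * (s⁻¹ * x) ∈ N ∧ ¬ (s⁻¹ * x = 0) ↔ x ∈ N ∧ ¬ (x = 0)
            rw [inv_scale s0]
            simp [s0.ne']
          rw [e] at h2
          exact h2
        · refine Measure.AbsolutelyContinuous.mk fun N mN hN => ?_
          rw [Measure.restrict_apply mN] at hN ⊢
          have mN' : MeasurableSet ((fun x => s * x) ⁻¹' N) := measurable_const_mul s mN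
          have h1 : ((ν.map (fun x => s⁻¹ * x)).restrict {0}ᶜ) ((fun x => s * x) ⁻¹' N) = 0 := by
            rw [Measure.restrict_apply mN', me (mN'.inter (measurableSet_singleton 0).compl)]
            have e : (fun x => s⁻¹ * x) ⁻¹' ((fun x => s * x) ⁻¹' N ∩ {0}ᶜ) = N ∩ {0}ᶜ := by
              ext x
              show s * (s⁻¹ * x) ∈ N ∧ ¬ (s⁻¹ * x = 0) ↔ x ∈ N ∧ ¬ (x = 0)
              rw [inv_scale s0]
              simp [s0.ne']
            rw [e]
            exact hN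
          have h2 := a2 h1
          rw [Measure.restrict_apply mN'] at h2
          have e : (fun x => s * x) ⁻¹' N ∩ J =
              (fun x => s * x) ⁻¹' (N ∩ (fun x => s⁻¹ * x) ⁻¹' J) := by
            ext x
            show s * x ∈ N ∧ x ∈ J ↔ s * x ∈ N ∧ s⁻¹ * (s * x) ∈ J
            rw [← mul_assoc, inv_mul_cancel₀ s0.ne', one_mul]
          rw [e, Real.volume_preimage_mul_left s0.ne'] at h2
          rcases mul_eq_zero.1 h2 with h3 | h3
          · rw [ENNReal.ofReal_eq_zero] at h3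
            have : 0 < |s⁻¹| := abs_pos.2 (inv_ne_zero s0.ne')
            linarith
          · exact h3

end

end Pool.Agent.Y139.PD
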